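import Pool.Agent.Helper45.CV.E6c

set_option autoImplicit false

namespace Pool.Agent.Helper36.CV

open Complex Filter Topology MeasureTheory Set

theorem e6_nrm (x c δ : ℝ) (hδ : 0 ≤ δ) :
    ‖((x : ℝ) : ℂ) + (δ : ℂ) * I - ((c : ℝ) : ℂ)‖ ≤ |x - c| + δ := by
  have h : ((x : ℝ) : ℂ) + (δ : ℂ) * I - ((c : ℝ) : ℂ) = ((x - c : ℝ) : ℂ) + (δ : ℂ) * I := by
    push_cast; ring
  rw [h]
  refine (norm_add_le _ _).trans ?_
  rw [norm_mul, Complex.norm_real, Complex.norm_real, Complex.norm_I, mul_one, Real.norm_eq_abs,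
    Real.norm_eq_abs, abs_of_nonneg hδ]

theorem e6_eps {ε Ct : ℝ} (h0 : 0 < ε) (hC : 1 ≤ Ct) (h : ε ≤ (1 / Ct) ^ 20) :
    ∃ θ : ℝ, 0 < θ ∧ θ * Ct ≤ 1 ∧ θ ≤ 1 ∧ ε ^ 2 = ε ^ (19 / 10 : ℝ) * θ * θ ∧
      ε ^ 2 * ε ^ (-(1 / 20) : ℝ) = ε ^ (19 / 10 : ℝ) * θ := by
  have hC0 : 0 < Ct := by linarith
  refine ⟨ε ^ (1 / 20 : ℝ), Real.rpow_pos_of_pos h0 _, ?_, ?_, ?_, ?_⟩
  · have h1 : ε ^ (1 / 20 : ℝ) ≤ ((1 / Ct) ^ 20) ^ (1 / 20 : ℝ) :=
      Real.rpow_le_rpow h0.le h (by norm_num)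
    have h2 : ((1 / Ct) ^ 20) ^ (1 / 20 : ℝ) = 1 / Ct := by
      rw [← Real.rpow_natCast, ← Real.rpow_mul (by positivity)]
      norm_num
    rw [h2] at h1
    calc ε ^ (1 / 20 : ℝ) * Ct ≤ 1 / Ct * Ct := mul_le_mul_of_nonneg_right h1 hC0.le
      _ = 1 := by field_simp
  · apply Real.rpow_le_one h0.le _ (by norm_num)
    refine h.trans (pow_le_one₀ (by positivity) ?_)
    rw [div_le_one hC0]; exact hC
  · rw [← Real.rpow_add h0, ← Real.rpow_add h0, ← Real.rpow_natCast]
    congr 1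
    norm_num
  · rw [← Real.rpow_add h0, ← Real.rpow_natCast, ← Real.rpow_add h0]
    congr 1
    norm_num

theorem st_E6 (hP2 : ST_P2) (hP3 : ST_P3) (hQ2 : ST_Q2) (hQ3 : ST_Q3) (hQ4 : ST_Q4)
    (hQ5 : ST_Q5) (hQ6 : ST_Q6) : ST_E6 := by
  have hQ4' := hQ4
  obtain ⟨K3, hK3, H3⟩ := hQ3
  obtain ⟨K5, e5, hK5, he5, H5⟩ := hQ5
  obtain ⟨K6, e6, hK6, he6, H6⟩ := hQ6
  obtain ⟨Ct, hCt⟩ : ∃ Ct : ℝ, Ct = 100 * K5 + 2 * 10 ^ 6 * K6 + 3 := ⟨_, rfl⟩
  have hCt1 : 1 ≤ Ct := by rw [hCt]; linarith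
  have hCt0 : 0 < Ct := by linarith
  refine ⟨min (min e5 e6) (min (min (1 / 10 ^ 5) (1 / (25 * K3))) (min (1 / (250 * K6)) ((1 / Ct) ^ 20))),
    ?_, ?_⟩
  · refine lt_min (lt_min he5 he6) (lt_min (lt_min (by norm_num) (by positivity)) (lt_min (by positivity) (by positivity)))
  intro ε Hm Hp C cd hPar hε V hmu
  simp only [le_min_iff] at hε
  obtain ⟨⟨hε5, hε6⟩, ⟨hεa, hεb⟩, hεc, hεd⟩ := hε
  have hε0 : 0 < ε := hPar.1
  have hεa' : ε ≤ 1 / 100000 := hεa.trans (by norm_num)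
  have hK3e : 25 * K3 * ε ≤ 1 := by
    rw [le_div_iff₀ (by positivity)] at hεb; linarith
  have hK6e : 250 * K6 * ε ≤ 1 := by
    rw [le_div_iff₀ (by positivity)] at hεc; linarith
  obtain ⟨θ, hθ0, hθC, hθ1, hθ2, hθ3⟩ := e6_eps hε0 hCt1 hεd
  obtain ⟨J, hJ1, hJ2⟩ := e6_J hε0 (by linarith)
  obtain ⟨-, -, -, P2d, -, -, P2g, -⟩ := hP2 Hm Hp C cd hPar.2.1
  obtain ⟨-, -, -, -, hkkv, hkk, hvc⟩ := P2d V
  obtain ⟨Q41, Q42, Q43, Q44⟩ := hQ4 ε Hm Hp C cd hPar hεa
  have hVlt := V.lt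
  have hs0 : 0 < V.s := sub_pos.2 V.lt
  have hLW := Q43 V hmu
  obtain ⟨-, H6b⟩ := H6 ε Hm Hp C cd hPar hε6 V hmu
  have hv : Continuous (vf cd) := by
    have h1 : ContinuousOn (fun z : ℂ => (cd.f z).im) {z | 0 ≤ z.im} :=
      Complex.continuous_im.comp_continuousOn cd.cont
    exact h1.comp_continuous Complex.continuous_ofReal (fun t => by simp)
  have hv0 : ∀ t, 0 ≤ vf cd t := fun t => cd.im_nonneg t
  have hpi := Real.pi_pos
  have hpi3 := Real.pi_gt_three
  have hcin : V.c ∈ Ioo V.a V.b := by unfold Gap.c; constructor <;> linarith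
  have P3a := (hP3 Hm Hp C cd V.a V.b V.N hVlt V.lab).1
  obtain ⟨hfi, -, -⟩ := P3a V.c hcin
  -- names
  have hqm := q11_qm V.a V.b
  set W : ℝ → ℝ := fun t => vf cd t / |qr V.a V.b t| with hW
  have hW0 : ∀ t, 0 ≤ W t := fun t => div_nonneg (hv0 t) (abs_nonneg _)
  have hWm : Measurable W := hv.measurable.div (measurable_abs.comp hqm)
  set f : ℝ → ℝ := fun t => vf cd t / (|qr V.a V.b t| * |t - V.c|) with hf
  have hf0 : ∀ t, 0 ≤ f t := fun t => div_nonneg (hv0 t) (by positivity)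
  have hfW : ∀ t, f t = W t / |t - V.c| := fun t => by rw [hf, hW]; simp only []; rw [div_div]
  have hfint : ∫ t : ℝ, f t = Real.pi * V.kk := by
    have h1 : V.kk = (1 / Real.pi) * ∫ t : ℝ, f t := rfl
    rw [h1, ← mul_assoc, mul_one_div_cancel hpi.ne', one_mul]
  have hWi : ∀ l r : ℝ, IntegrableOn W (Icc l r) := by
    intro l r
    apply q11_mono measurableSet_Icc hWm ((hfi.const_mul (|l| + |r| + |V.c|)).integrableOn)
    intro t ht
    rw [abs_of_nonneg (hW0 t)]
    by_cases hq : qr V.a V.b t = 0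
    · have h1 : W t = 0 := by rw [hW]; simp only []; rw [hq]; simp
      rw [h1]
      exact mul_nonneg (by positivity) (hf0 t)
    · have htc : t ≠ V.c := by
        intro h
        apply hq
        rw [h]
        exact e6_qin ⟨hcin.1.le, hcin.2.le⟩
      have h6 : 0 < |t - V.c| := abs_pos.2 (sub_ne_zero.2 htc)
      have h7 : |t - V.c| ≤ |l| + |r| + |V.c| := by
        have h8 : |t| ≤ |l| + |r| := by
          rw [abs_le]
          constructor
          · have := neg_abs_le l; have := abs_nonneg r; linarith [ht.1]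
          · have := le_abs_self r; have := abs_nonneg l; linarith [ht.2]
        have := abs_sub t V.c
        linarith
      have h9 : W t = |t - V.c| * f t := by
        rw [hfW]; field_simp
      rw [h9]
      exact mul_le_mul_of_nonneg_right h7 (hf0 t)
  -- middle region
  have hC1 : 0 ≤ 12640 * K6 * ε ^ 2 * V.kk := by positivity
  have hmid := e6_mid hv hv0 (a := V.a) (b := V.b) (ε := ε) (C1 := 12640 * K6 * ε ^ 2 * V.kk) hVlt hε0
    (by linarith) hfi (by
      intro d h1 h2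
      have h3 := (e6_mass hP2 hQ2 hQ4' cd hPar hεa K6 hK6 hK6e V hmu H6b d h1 h2).2
      refine h3.trans (le_of_eq ?_)
      ring) hC1 J hJ1
  set Mid : Set ℝ := {t : ℝ | V.b - V.a ≤ |t - (V.a + V.b) / 2| ∧ |t - (V.a + V.b) / 2| ≤ (V.b - V.a) / (4 * ε)} with hMid
  have hMidm : MeasurableSet Mid := by
    have m1 : MeasurableSet {t : ℝ | V.b - V.a ≤ |t - (V.a + V.b) / 2|} :=
      measurableSet_le measurable_const (by fun_prop)
    have m2 : MeasurableSet {t : ℝ | |t - (V.a + V.b) / 2| ≤ (V.b - V.a) / (4 * ε)} :=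
      measurableSet_le (by fun_prop) measurable_const
    exact m1.inter m2
  -- amplitude
  have hRs : V.s / (4 * ε) = (V.b - V.a) / (4 * ε) := rfl
  have hR1 : 250 * V.s ≤ V.s / (4 * ε) / 100 := by
    rw [le_div_iff₀ (by norm_num), le_div_iff₀ (by positivity)]
    nlinarith
  have H3v := (H3 ε Hm Hp C cd hPar.2.1 hε0 (by linarith) V.a V.b V.N (V.s / (4 * ε)) hVlt.le
    (by
      have : V.b - V.a = V.s := rfl
      rw [this]
      linarith) (by positivity) V.lab (P2g V) (by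
      intro t ht1 ht2
      exact (Q44 V t (hLW t ht1)).2.2.1 ht2)).2.2 hVlt
  have hamp : ∀ (k : ℕ) (x : ℝ), |x - V.c| ≤ V.s / 2 + V.s / 3 ^ k →
      ‖V.g ((x : ℂ) + ((V.s / 3 ^ k : ℝ) : ℂ) * I)‖ ≤ V.kk * (2 * (3 / 2) ^ k) := by
    intro k x hx
    have hδ0 : 0 < V.s / 3 ^ k := by positivity
    have hδ1 : V.s / 3 ^ k ≤ V.s := div_le_self hs0.le (one_le_pow₀ (by norm_num))
    have hn := e6_nrm x V.c (V.s / 3 ^ k) hδ0.le
    have hn2 : ‖((x : ℝ) : ℂ) + ((V.s / 3 ^ k : ℝ) : ℂ) * I - ((V.c : ℝ) : ℂ)‖ ≤ 5 / 2 * V.s := by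
      linarith
    have him : (((x : ℝ) : ℂ) + ((V.s / 3 ^ k : ℝ) : ℂ) * I).im = V.s / 3 ^ k := by
      rw [Complex.add_im, Complex.ofReal_im, Complex.im_ofReal_mul, Complex.I_im, mul_one, zero_add]
    have h1 := H3v (((x : ℝ) : ℂ) + ((V.s / 3 ^ k : ℝ) : ℂ) * I) (by
      show 0 < (((x : ℝ) : ℂ) + ((V.s / 3 ^ k : ℝ) : ℂ) * I).im
      rw [him]; exact hδ0) (by
      refine hn2.trans ?_
      have : 250 * V.s * 100 ≤ V.s / (4 * ε) := by
        rw [le_div_iff₀ (by norm_num)] at hR1; exact hR1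
      linarith)
    rw [him] at h1
    exact e6_amp hkk (by linarith) hε0 hK3e hs0 k (norm_nonneg _) rfl (norm_nonneg _) hn2 h1
  -- near regions
  have hδR : ∀ k : ℕ, V.s / 2 + 2 * (V.s / 3 ^ k) ≤ V.s / (4 * ε) / 100 := by
    intro k
    have hδ1 : V.s / 3 ^ k ≤ V.s := div_le_self hs0.le (one_le_pow₀ (by norm_num))
    linarith
  obtain ⟨nR1, nR2⟩ := e6_near W (fun t => t - V.b) hWm hW0 (by fun_prop) V.s (K5 * ε ^ 2 * V.kk) hs0
    (Ioc V.b (V.b + 3 * V.s / 2)) (fun k => Icc (V.b + V.s / 3 ^ k / 2) (V.b + 3 * (V.s / 3 ^ k) / 2))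
    (fun k => measurableSet_Icc) (by
      intro t ht
      obtain ⟨k, k1, k2⟩ := e6_cov hs0 (sub_pos.2 ht.1) (by linarith [ht.2] : t - V.b ≤ 3 * V.s / 2)
      rw [Set.mem_iUnion]
      exact ⟨k, by constructor <;> linarith⟩) (by
      intro k t ht
      have := ht.1
      linarith) (fun k => hWi _ _) (by
      intro k
      have hδ0 : 0 < V.s / 3 ^ k := by positivity
      have h1 := (H5 ε Hm Hp C cd hPar hε5 V (V.s / (4 * ε)) (V.s / 3 ^ k) hmu hLW hδ0 (hδR k)).1
      refine h1.trans ?_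
      have h2 := hamp k (V.b + V.s / 3 ^ k) (by
        have : V.b - V.c = V.s / 2 := by unfold Gap.c Gap.s; ring
        rw [abs_of_nonneg (by linarith)]
        linarith)
      have h3 : K5 * ε ^ 2 * V.kk * (V.s / 3 ^ k) * (2 * (3 / 2) ^ k) =
          K5 * ε ^ 2 * (V.s / 3 ^ k) * (V.kk * (2 * (3 / 2) ^ k)) := by ring
      rw [h3]
      exact mul_le_mul_of_nonneg_left h2 (by positivity))
  obtain ⟨nL1, nL2⟩ := e6_near W (fun t => V.a - t) hWm hW0 (by fun_prop) V.s (K5 * ε ^ 2 * V.kk) hs0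
    (Ico (V.a - 3 * V.s / 2) V.a) (fun k => Icc (V.a - 3 * (V.s / 3 ^ k) / 2) (V.a - V.s / 3 ^ k / 2))
    (fun k => measurableSet_Icc) (by
      intro t ht
      obtain ⟨k, k1, k2⟩ := e6_cov hs0 (sub_pos.2 ht.2) (by linarith [ht.1] : V.a - t ≤ 3 * V.s / 2)
      rw [Set.mem_iUnion]
      exact ⟨k, by constructor <;> linarith⟩) (by
      intro k t ht
      have := ht.2
      linarith) (fun k => hWi _ _) (by
      intro k
      have hδ0 : 0 < V.s / 3 ^ k := by positivity
      have h1 := (H5 ε Hm Hp C cd hPar hε5 V (V.s / (4 * ε)) (V.s / 3 ^ k) hmu hLW hδ0 (hδR k)).2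
      refine h1.trans ?_
      have h2 := hamp k (V.a - V.s / 3 ^ k) (by
        have : V.a - V.c = - (V.s / 2) := by unfold Gap.c Gap.s; ring
        rw [abs_of_nonpos (by linarith)]
        linarith)
      have h3 : K5 * ε ^ 2 * V.kk * (V.s / 3 ^ k) * (2 * (3 / 2) ^ k) =
          K5 * ε ^ 2 * (V.s / 3 ^ k) * (V.kk * (2 * (3 / 2) ^ k)) := by ring
      rw [h3]
      exact mul_le_mul_of_nonneg_left h2 (by positivity))
  set FR : ℝ → ℝ := fun t => W t * Real.sqrt (V.s / (t - V.b)) with hFR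
  set FL : ℝ → ℝ := fun t => W t * Real.sqrt (V.s / (V.a - t)) with hFL
  set NR := Ioc V.b (V.b + 3 * V.s / 2) with hNR
  set NL := Ico (V.a - 3 * V.s / 2) V.a with hNL
  have hFR0 : ∀ t, 0 ≤ NR.indicator FR t := fun t => Set.indicator_nonneg (fun t _ => mul_nonneg (hW0 t) (Real.sqrt_nonneg _)) t
  have hFL0 : ∀ t, 0 ≤ NL.indicator FL t := fun t => Set.indicator_nonneg (fun t _ => mul_nonneg (hW0 t) (Real.sqrt_nonneg _)) t
  have hfM0 : ∀ t, 0 ≤ Mid.indicator f t := fun t => Set.indicator_nonneg (fun t _ => hf0 t) t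
  have iR : Integrable (NR.indicator FR) := (integrable_indicator_iff measurableSet_Ioc).2 nR1
  have iL : Integrable (NL.indicator FL) := (integrable_indicator_iff measurableSet_Ico).2 nL1
  have iM : Integrable (Mid.indicator f) := hfi.indicator hMidm
  have vR : ∫ t, NR.indicator FR t ≤ 24 * (K5 * ε ^ 2 * V.kk) * V.s := by
    rw [integral_indicator measurableSet_Ioc]; exact nR2
  have vL : ∫ t, NL.indicator FL t ≤ 24 * (K5 * ε ^ 2 * V.kk) * V.s := by
    rw [integral_indicator measurableSet_Ico]; exact nL2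
  have vM : ∫ t, Mid.indicator f t ≤ J * (5 * (12640 * K6 * ε ^ 2 * V.kk)) := by
    rw [integral_indicator hMidm]; exact hmid
  have hca : V.c - V.a = V.s / 2 := by unfold Gap.c Gap.s; ring
  have hcb : V.b - V.c = V.s / 2 := by unfold Gap.c Gap.s; ring
  -- location
  have hloc : ∀ τ : ℝ, τ ∉ Icc V.a V.b → |τ - V.c| < V.s → (τ ∈ NR ∧ V.b < τ ∧ τ - V.b ≤ V.s / 2) ∨
      (τ ∈ NL ∧ τ < V.a ∧ V.a - τ ≤ V.s / 2) := by
    intro τ h1 h2
    obtain ⟨h3, h4⟩ := abs_lt.1 h2
    rw [Set.mem_Icc, not_and_or] at h1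
    rcases h1 with h1 | h1
    · right
      have h5 := not_le.1 h1
      exact ⟨⟨by linarith, h5⟩, h5, by linarith⟩
    · left
      have h5 := not_le.1 h1
      exact ⟨⟨h5, by linarith⟩, h5, by linarith⟩
  -- numerical bounds
  have hJb : (J : ℝ) * ε ^ 2 ≤ 31 * (ε ^ (19 / 10 : ℝ) * θ) := by
    calc (J : ℝ) * ε ^ 2 ≤ 31 * ε ^ (-(1 / 20) : ℝ) * ε ^ 2 := mul_le_mul_of_nonneg_right hJ2 (by positivity)
      _ = 31 * (ε ^ 2 * ε ^ (-(1 / 20) : ℝ)) := by ring
      _ = 31 * (ε ^ (19 / 10 : ℝ) * θ) := by rw [hθ3]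
  have hP0 : 0 < ε ^ (19 / 10 : ℝ) := Real.rpow_pos_of_pos hε0 _
  set P := ε ^ (19 / 10 : ℝ) with hP
  have he2 : ε ^ 2 ≤ P * θ := by
    rw [hθ2]
    exact mul_le_of_le_one_right (by positivity) hθ1
  have hPC : P * θ * Ct ≤ P := by
    calc P * θ * Ct = P * (θ * Ct) := by ring
      _ ≤ P := mul_le_of_le_one_right hP0.le hθC
  constructor
  · -- n2
    have h1 : n2 V (V.s / (4 * ε)) = ∫ t in Icc (V.c - V.s / (4 * ε)) (V.c + V.s / (4 * ε)), f t := rfl
    have h2 : ∀ τ ∈ Icc (V.c - V.s / (4 * ε)) (V.c + V.s / (4 * ε)),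
        f τ ≤ (2 / V.s) * (NR.indicator FR τ + NL.indicator FL τ) + Mid.indicator f τ := by
      intro τ hτ
      have hτR : |τ - V.c| ≤ V.s / (4 * ε) := by
        rw [abs_le]; constructor <;> linarith [hτ.1, hτ.2]
      by_cases hin : τ ∈ Icc V.a V.b
      · have h3 : f τ = 0 := by rw [hf]; simp only []; rw [e6_qin hin]; simp
        rw [h3]
        exact add_nonneg (mul_nonneg (by positivity) (add_nonneg (hFR0 τ) (hFL0 τ))) (hfM0 τ)
      · rcases lt_or_ge (|τ - V.c|) V.s with hlt | hge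
        · have hfb : f τ ≤ (2 / V.s) * W τ := by
            have h4 : V.s / 2 ≤ |τ - V.c| := by
              rcases hloc τ hin hlt with ⟨-, h5, -⟩ | ⟨-, h5, -⟩
              · refine le_trans ?_ (le_abs_self _); linarith
              · refine le_trans ?_ (neg_le_abs _); linarith
            rw [hfW, div_le_iff₀ (lt_of_lt_of_le (by positivity) h4)]
            have h6 : W τ * 1 ≤ W τ * (2 / V.s * |τ - V.c|) := by
              apply mul_le_mul_of_nonneg_left _ (hW0 τ)
              have : 2 / V.s * (V.s / 2) = 1 := by field_simp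
              rw [← this]
              exact mul_le_mul_of_nonneg_left h4 (by positivity)
            linarith
          have hsq : ∀ x : ℝ, 0 < x → x ≤ V.s / 2 → 1 ≤ Real.sqrt (V.s / x) := by
            intro x hx hx2
            rw [Real.one_le_sqrt, one_le_div hx]
            linarith
          rcases hloc τ hin hlt with ⟨h4, h5, h6⟩ | ⟨h4, h5, h6⟩
          · have h7 : NR.indicator FR τ = W τ * Real.sqrt (V.s / (τ - V.b)) := Set.indicator_of_mem h4 _
            have h8 : W τ ≤ NR.indicator FR τ := by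
              rw [h7]
              exact le_mul_of_one_le_right (hW0 τ) (hsq _ (by linarith) h6)
            have h9 : (2 / V.s) * W τ ≤ (2 / V.s) * (NR.indicator FR τ + NL.indicator FL τ) :=
              mul_le_mul_of_nonneg_left (by linarith [hFL0 τ]) (by positivity)
            linarith [hfM0 τ]
          · have h7 : NL.indicator FL τ = W τ * Real.sqrt (V.s / (V.a - τ)) := Set.indicator_of_mem h4 _
            have h8 : W τ ≤ NL.indicator FL τ := by
              rw [h7]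
              exact le_mul_of_one_le_right (hW0 τ) (hsq _ (by linarith) h6)
            have h9 : (2 / V.s) * W τ ≤ (2 / V.s) * (NR.indicator FR τ + NL.indicator FL τ) :=
              mul_le_mul_of_nonneg_left (by linarith [hFR0 τ]) (by positivity)
            linarith [hfM0 τ]
        · have h4 : τ ∈ Mid := ⟨hge, hτR⟩
          have h5 : Mid.indicator f τ = f τ := Set.indicator_of_mem h4 _
          rw [h5]
          have : 0 ≤ (2 / V.s) * (NR.indicator FR τ + NL.indicator FL τ) :=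
            mul_nonneg (by positivity) (add_nonneg (hFR0 τ) (hFL0 τ))
          linarith
    have iA : Integrable (fun τ => (2 / V.s) * (NR.indicator FR τ + NL.indicator FL τ) + Mid.indicator f τ) :=
      ((iR.add iL).const_mul _).add iM
    have h3 : ∫ t in Icc (V.c - V.s / (4 * ε)) (V.c + V.s / (4 * ε)), f t ≤
        ∫ τ, ((2 / V.s) * (NR.indicator FR τ + NL.indicator FL τ) + Mid.indicator f τ) := by
      refine (setIntegral_mono_on hfi.integrableOn iA.integrableOn measurableSet_Icc h2).trans ?_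
      apply setIntegral_le_integral iA
      exact Filter.Eventually.of_forall (fun τ => add_nonneg
        (mul_nonneg (by positivity) (add_nonneg (hFR0 τ) (hFL0 τ))) (hfM0 τ))
    have h4 : ∫ τ, ((2 / V.s) * (NR.indicator FR τ + NL.indicator FL τ) + Mid.indicator f τ) =
        (2 / V.s) * ((∫ τ, NR.indicator FR τ) + ∫ τ, NL.indicator FL τ) + ∫ τ, Mid.indicator f τ := by
      have h6 := integral_add ((iR.add iL).const_mul (2 / V.s)) iM
      have h7 := integral_add iR iL
      simp only [Pi.add_apply] at h6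
      rw [integral_const_mul, h7] at h6
      exact h6
    rw [h1]
    rw [h4] at h3
    have h5 : (2 / V.s) * ((∫ τ, NR.indicator FR τ) + ∫ τ, NL.indicator FL τ) ≤ 96 * K5 * ε ^ 2 * V.kk := by
      calc (2 / V.s) * ((∫ τ, NR.indicator FR τ) + ∫ τ, NL.indicator FL τ)
          ≤ (2 / V.s) * (24 * (K5 * ε ^ 2 * V.kk) * V.s + 24 * (K5 * ε ^ 2 * V.kk) * V.s) :=
            mul_le_mul_of_nonneg_left (add_le_add vR vL) (by positivity)
        _ = 96 * K5 * ε ^ 2 * V.kk := by field_simp; ring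
    have h6 : (J : ℝ) * (5 * (12640 * K6 * ε ^ 2 * V.kk)) ≤ 1959200 * K6 * (P * θ) * V.kk := by
      have h7 : (J : ℝ) * (5 * (12640 * K6 * ε ^ 2 * V.kk)) = 63200 * K6 * V.kk * (J * ε ^ 2) := by ring
      rw [h7]
      have := mul_le_mul_of_nonneg_left hJb (by positivity : 0 ≤ 63200 * K6 * V.kk)
      linarith
    have h7 : 96 * K5 * ε ^ 2 * V.kk ≤ 96 * K5 * (P * θ) * V.kk :=
      mul_le_mul_of_nonneg_right (mul_le_mul_of_nonneg_left he2 (by positivity)) hkk.le
    have h8 : 96 * K5 * (P * θ) * V.kk + 1959200 * K6 * (P * θ) * V.kk ≤ P * θ * Ct * V.kk := by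
      have h9 : 96 * K5 * (P * θ) * V.kk + 1959200 * K6 * (P * θ) * V.kk =
          (P * θ) * (96 * K5 + 1959200 * K6) * V.kk := by ring
      rw [h9]
      apply mul_le_mul_of_nonneg_right _ hkk.le
      apply mul_le_mul_of_nonneg_left _ (by positivity)
      rw [hCt]; linarith
    have h9 : P * θ * Ct * V.kk ≤ P * V.kk := mul_le_mul_of_nonneg_right hPC hkk.le
    linarith
  · -- the height
    intro t ht
    have hvc0 : vf cd V.c = V.s * V.kk / 2 := by rw [hkkv]; field_simp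
    have hzero : ∀ x ∈ C, vf cd x = 0 := fun x hx => (cd.zero x).2 hx
    have hRHS : 0 ≤ (1 + P) * vf cd V.c := by positivity
    rcases eq_or_lt_of_le ht.1 with h | ha
    · rw [← h, hzero V.a V.ha]; exact hRHS
    rcases eq_or_lt_of_le ht.2 with h | hb
    · rw [h, hzero V.b V.hb]; exact hRHS
    obtain ⟨gi, -, gv⟩ := P3a t ⟨ha, hb⟩
    set w0 := Real.sqrt ((t - V.a) * (V.b - t)) with hw0
    have hw00 : 0 ≤ w0 := Real.sqrt_nonneg _
    have hG : Real.pi * vf cd t = ∫ τ, w0 * (vf cd τ / (|qr V.a V.b τ| * |τ - t|)) := by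
      rw [integral_const_mul, gv]
      have h1 : KI cd V.a V.b t = (1 / Real.pi) * ∫ τ, vf cd τ / (|qr V.a V.b τ| * |τ - t|) := rfl
      rw [h1]
      field_simp
    have hpt : ∀ τ : ℝ, w0 * (vf cd τ / (|qr V.a V.b τ| * |τ - t|)) ≤
        1 / 2 * (NR.indicator FR τ + NL.indicator FL τ) + V.s * Mid.indicator f τ +
          (V.s / 2 * (1 + 3 * ε ^ 2)) * f τ := by
      intro τ
      have hGW : w0 * (vf cd τ / (|qr V.a V.b τ| * |τ - t|)) = W τ * (w0 / |τ - t|) := by
        rw [hW]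
        simp only []
        rw [div_mul_div_comm, mul_div_assoc', mul_comm w0]
      have hlast : 0 ≤ (V.s / 2 * (1 + 3 * ε ^ 2)) * f τ := mul_nonneg (by positivity) (hf0 τ)
      have hmidn : 0 ≤ V.s * Mid.indicator f τ := mul_nonneg hs0.le (hfM0 τ)
      have hnn : 0 ≤ 1 / 2 * (NR.indicator FR τ + NL.indicator FL τ) :=
        mul_nonneg (by norm_num) (add_nonneg (hFR0 τ) (hFL0 τ))
      by_cases hin : τ ∈ Icc V.a V.b
      · have h3 : w0 * (vf cd τ / (|qr V.a V.b τ| * |τ - t|)) = 0 := by rw [e6_qin hin]; simp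
        rw [h3]
        linarith
      · rw [hGW]
        rcases lt_or_ge (|τ - V.c|) V.s with hlt | hge
        · rcases hloc τ hin hlt with ⟨h4, h5, h6⟩ | ⟨h4, h5, h6⟩
          · have h7 : NR.indicator FR τ = W τ * Real.sqrt (V.s / (τ - V.b)) := Set.indicator_of_mem h4 _
            have h8 := mul_le_mul_of_nonneg_left (e6_ptR ha hb h5) (hW0 τ)
            have h9 : W τ * (1 / 2 * Real.sqrt ((V.b - V.a) / (τ - V.b))) = 1 / 2 * NR.indicator FR τ := by
              rw [h7]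
              have : V.b - V.a = V.s := rfl
              rw [this]; ring
            rw [h9] at h8
            linarith [hFL0 τ]
          · have h7 : NL.indicator FL τ = W τ * Real.sqrt (V.s / (V.a - τ)) := Set.indicator_of_mem h4 _
            have h8 := mul_le_mul_of_nonneg_left (e6_ptL ha hb h5) (hW0 τ)
            have h9 : W τ * (1 / 2 * Real.sqrt ((V.b - V.a) / (V.a - τ))) = 1 / 2 * NL.indicator FL τ := by
              rw [h7]
              have : V.b - V.a = V.s := rfl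
              rw [this]; ring
            rw [h9] at h8
            linarith [hFR0 τ]
        · rcases le_or_gt (|τ - V.c|) (V.s / (4 * ε)) with hle | hgt
          · have h4 : τ ∈ Mid := ⟨hge, hle⟩
            have h5 : Mid.indicator f τ = f τ := Set.indicator_of_mem h4 _
            have h6 := mul_le_mul_of_nonneg_left (e6_ptM ha hb hge) (hW0 τ)
            have h7 : W τ * ((V.b - V.a) / |τ - (V.a + V.b) / 2|) = V.s * f τ := by
              rw [hfW]
              have : V.b - V.a = V.s := rfl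
              rw [this]
              show W τ * (V.s / |τ - V.c|) = V.s * (W τ / |τ - V.c|)
              ring
            rw [h7] at h6
            rw [h5]
            linarith
          · have h4 : V.b - V.a ≤ 4 * ε * |τ - (V.a + V.b) / 2| := by
              have h5 : V.s / (4 * ε) < |τ - V.c| := hgt
              rw [div_lt_iff₀ (by positivity)] at h5
              show V.s ≤ 4 * ε * |τ - V.c|
              linarith
            have h6 := mul_le_mul_of_nonneg_left (e6_ptF hε0 (by linarith) ha hb h4) (hW0 τ)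
            have h7 : W τ * ((V.b - V.a) / 2 * (1 + 3 * ε ^ 2) / |τ - (V.a + V.b) / 2|) =
                (V.s / 2 * (1 + 3 * ε ^ 2)) * f τ := by
              rw [hfW]
              show W τ * (V.s / 2 * (1 + 3 * ε ^ 2) / |τ - V.c|) = (V.s / 2 * (1 + 3 * ε ^ 2)) * (W τ / |τ - V.c|)
              ring
            rw [h7] at h6
            linarith
    have iA : Integrable (fun τ => 1 / 2 * (NR.indicator FR τ + NL.indicator FL τ) + V.s * Mid.indicator f τ) :=
      ((iR.add iL).const_mul _).add (iM.const_mul _)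
    have h3 : Real.pi * vf cd t ≤ 1 / 2 * ((∫ τ, NR.indicator FR τ) + ∫ τ, NL.indicator FL τ) +
        V.s * (∫ τ, Mid.indicator f τ) + (V.s / 2 * (1 + 3 * ε ^ 2)) * (Real.pi * V.kk) := by
      rw [hG]
      have h4 := integral_mono (gi.const_mul w0) (iA.add (hfi.const_mul (V.s / 2 * (1 + 3 * ε ^ 2)))) hpt
      refine h4.trans (le_of_eq ?_)
      have h5 := integral_add iA (hfi.const_mul (V.s / 2 * (1 + 3 * ε ^ 2)))
      have h6 := integral_add ((iR.add iL).const_mul (1 / 2)) (iM.const_mul V.s)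
      have h7 := integral_add iR iL
      rw [integral_const_mul, hfint] at h5
      simp only [Pi.add_apply] at h6
      rw [integral_const_mul, integral_const_mul, h7] at h6
      rw [h6] at h5
      exact h5
    have h5 : V.s * (∫ τ, Mid.indicator f τ) ≤ 2 * vf cd V.c * (1959200 * K6 * (P * θ)) := by
      have h6 : (J : ℝ) * (5 * (12640 * K6 * ε ^ 2 * V.kk)) ≤ 1959200 * K6 * (P * θ) * V.kk := by
        have h7 : (J : ℝ) * (5 * (12640 * K6 * ε ^ 2 * V.kk)) = 63200 * K6 * V.kk * (J * ε ^ 2) := by ring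
        rw [h7]
        have := mul_le_mul_of_nonneg_left hJb (by positivity : 0 ≤ 63200 * K6 * V.kk)
        linarith
      have h7 := mul_le_mul_of_nonneg_left (vM.trans h6) hs0.le
      refine h7.trans (le_of_eq ?_)
      rw [hvc0]; ring
    have h6 : 1 / 2 * ((∫ τ, NR.indicator FR τ) + ∫ τ, NL.indicator FL τ) ≤ 2 * vf cd V.c * (24 * K5 * (P * θ)) := by
      have h7 : 1 / 2 * ((∫ τ, NR.indicator FR τ) + ∫ τ, NL.indicator FL τ) ≤ 24 * (K5 * ε ^ 2 * V.kk) * V.s := by
        linarith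
      refine h7.trans ?_
      have h8 : 24 * (K5 * ε ^ 2 * V.kk) * V.s = 2 * vf cd V.c * (24 * K5) * ε ^ 2 := by rw [hvc0]; ring
      rw [h8]
      have := mul_le_mul_of_nonneg_left he2 (by positivity : 0 ≤ 2 * vf cd V.c * (24 * K5))
      linarith
    have h7 : (V.s / 2 * (1 + 3 * ε ^ 2)) * (Real.pi * V.kk) ≤ Real.pi * (vf cd V.c * (1 + 3 * (P * θ))) := by
      have h8 : (V.s / 2 * (1 + 3 * ε ^ 2)) * (Real.pi * V.kk) = Real.pi * (vf cd V.c * (1 + 3 * ε ^ 2)) := by
        rw [hvc0]; ring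
      rw [h8]
      apply mul_le_mul_of_nonneg_left _ hpi.le
      apply mul_le_mul_of_nonneg_left _ hvc.le
      linarith
    have hPθ : 0 < P * θ := mul_pos hP0 hθ0
    have h8 : 2 * vf cd V.c * (1959200 * K6 * (P * θ)) + 2 * vf cd V.c * (24 * K5 * (P * θ)) ≤
        Real.pi * (vf cd V.c * (1959200 * K6 * (P * θ) + 24 * K5 * (P * θ))) := by
      have h9 : 0 ≤ vf cd V.c * (1959200 * K6 * (P * θ) + 24 * K5 * (P * θ)) := by positivity
      have := mul_le_mul_of_nonneg_right hpi3.le h9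
      linarith
    have h9 : Real.pi * vf cd t ≤ Real.pi * ((1 + P) * vf cd V.c) := by
      have h10 : vf cd V.c * (1959200 * K6 * (P * θ) + 24 * K5 * (P * θ)) + vf cd V.c * (1 + 3 * (P * θ)) ≤
          (1 + P) * vf cd V.c := by
        have h11 : (P * θ) * (1959200 * K6 + 24 * K5 + 3) ≤ (P * θ) * Ct := by
          apply mul_le_mul_of_nonneg_left _ hPθ.le
          rw [hCt]; linarith
        have h12 : (P * θ) * (1959200 * K6 + 24 * K5 + 3) ≤ P := h11.trans hPC
        have h13 := mul_le_mul_of_nonneg_left h12 hvc.le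
        linarith
      have := mul_le_mul_of_nonneg_left h10 hpi.le
      linarith
    exact le_of_mul_le_mul_left h9 hpi

end Pool.Agent.Helper36.CV
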