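import Pool.Agent.Helper36.CV.StmtsP

set_option autoImplicit false

namespace Pool.Agent.Helper36.CV

open Complex Filter Topology MeasureTheory Set

noncomputable section

theorem p1_zim (x r : ℝ) : ((x : ℂ) + (r : ℂ) * I).im = r := by simp
theorem p1_zre (x r : ℝ) : ((x : ℂ) + (r : ℂ) * I).re = x := by simp
theorem p1_mem (x : ℝ) {r : ℝ} (hr : 0 < r) : ((x : ℂ) + (r : ℂ) * I) ∈ Uo := by
  simp [Uo, hr]
theorem p1_UoUc {z : ℂ} (h : z ∈ Uo) : z ∈ Uc := le_of_lt (show (0 : ℝ) < z.im from h)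
theorem p1_isOpen : IsOpen Uo := isOpen_lt continuous_const Complex.continuous_im

/-- Poisson formula for the imaginary part -/
theorem p1_im (h : ST_A1) {G : ℂ → ℂ} {A : ℝ} (h1 : ContinuousOn G Uc) (h2 : DifferentiableOn ℂ G Uo)
    (h3 : ∀ z ∈ Uc, ‖G z‖ ≤ A * (1 + Real.log (1 + ‖z‖))) (x : ℝ) {r : ℝ} (hr : 0 < r) :
    Integrable (fun t : ℝ => (G t).im * (r / ((t - x) ^ 2 + r ^ 2))) ∧
    (G ((x : ℂ) + (r : ℂ) * I)).im = (1 / Real.pi) * ∫ t : ℝ, (G t).im * (r / ((t - x) ^ 2 + r ^ 2)) := by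
  obtain ⟨hi, he⟩ := (h G A h1 h2 h3).1 _ (p1_mem x hr)
  rw [p1_zim, p1_zre] at hi he
  have key : ∀ t : ℝ, RCLike.im (((r / ((t - x) ^ 2 + r ^ 2) : ℝ) : ℂ) * G t) =
      (G t).im * (r / ((t - x) ^ 2 + r ^ 2)) := by
    intro t
    show (((r / ((t - x) ^ 2 + r ^ 2) : ℝ) : ℂ) * G t).im = _
    rw [Complex.im_ofReal_mul, mul_comm]
  refine ⟨hi.im.congr (Eventually.of_forall key), ?_⟩
  have e1 := congrArg Complex.im he
  rw [Complex.im_ofReal_mul] at e1
  rw [e1]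
  congr 1
  have e2 := (integral_im hi).symm
  rw [integral_congr_ae (Eventually.of_forall key)] at e2
  exact e2

/-- Poisson formula for the real part -/
theorem p1_re (h : ST_A1) {G : ℂ → ℂ} {A : ℝ} (h1 : ContinuousOn G Uc) (h2 : DifferentiableOn ℂ G Uo)
    (h3 : ∀ z ∈ Uc, ‖G z‖ ≤ A * (1 + Real.log (1 + ‖z‖))) (x : ℝ) {r : ℝ} (hr : 0 < r) :
    Integrable (fun t : ℝ => (G t).re * (r / ((t - x) ^ 2 + r ^ 2))) ∧
    (G ((x : ℂ) + (r : ℂ) * I)).re = (1 / Real.pi) * ∫ t : ℝ, (G t).re * (r / ((t - x) ^ 2 + r ^ 2)) := by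
  obtain ⟨hi, he⟩ := (h G A h1 h2 h3).1 _ (p1_mem x hr)
  rw [p1_zim, p1_zre] at hi he
  have key : ∀ t : ℝ, RCLike.re (((r / ((t - x) ^ 2 + r ^ 2) : ℝ) : ℂ) * G t) =
      (G t).re * (r / ((t - x) ^ 2 + r ^ 2)) := by
    intro t
    show (((r / ((t - x) ^ 2 + r ^ 2) : ℝ) : ℂ) * G t).re = _
    rw [Complex.re_ofReal_mul, mul_comm]
  refine ⟨hi.re.congr (Eventually.of_forall key), ?_⟩
  have e1 := congrArg Complex.re he
  rw [Complex.re_ofReal_mul] at e1
  rw [e1]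
  congr 1
  have e2 := (integral_re hi).symm
  rw [integral_congr_ae (Eventually.of_forall key)] at e2
  exact e2

/-- the Poisson kernel: integrable, total mass pi, half of it on each side -/
theorem p1_w (x : ℝ) {r : ℝ} (hr : 0 < r) :
    Integrable (fun t : ℝ => r / ((t - x) ^ 2 + r ^ 2)) ∧ (∫ t : ℝ, r / ((t - x) ^ 2 + r ^ 2)) = Real.pi ∧
    (∫ t : ℝ in Iic x, r / ((t - x) ^ 2 + r ^ 2)) = Real.pi / 2 ∧
    (∫ t : ℝ in Ioi x, r / ((t - x) ^ 2 + r ^ 2)) = Real.pi / 2 := by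
  have hrr : (fun t : ℝ => r / ((t - x) ^ 2 + r ^ 2)) = fun t : ℝ => r⁻¹ * (1 + ((t - x) / r) ^ 2)⁻¹ := by
    funext t
    have h1 : (t - x) ^ 2 + r ^ 2 ≠ 0 := by positivity
    have h2 : 1 + ((t - x) / r) ^ 2 ≠ 0 := by positivity
    field_simp
    ring
  have hi : Integrable (fun t : ℝ => r / ((t - x) ^ 2 + r ^ 2)) := by
    rw [hrr]
    exact ((integrable_inv_one_add_sq.comp_div hr.ne').comp_sub_right x).const_mul _
  have hd : ∀ t : ℝ, HasDerivAt (fun t : ℝ => Real.arctan ((t - x) / r)) (r / ((t - x) ^ 2 + r ^ 2)) t := by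
    intro t
    have h1 := ((hasDerivAt_id t).sub_const x).div_const r
    have h2 := h1.arctan
    simp only [id] at h2
    have : r / ((t - x) ^ 2 + r ^ 2) = 1 / (1 + ((t - x) / r) ^ 2) * (1 / r) := by
      have h1 : (t - x) ^ 2 + r ^ 2 ≠ 0 := by positivity
      have h2 : 1 + ((t - x) / r) ^ 2 ≠ 0 := by positivity
      field_simp
      ring
    rw [this]
    exact h2
  have ht : Tendsto (fun t : ℝ => Real.arctan ((t - x) / r)) atTop (𝓝 (Real.pi / 2)) := by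
    refine (tendsto_nhds_of_tendsto_nhdsWithin Real.tendsto_arctan_atTop).comp ?_
    exact (tendsto_id.atTop_add tendsto_const_nhds).atTop_div_const hr
  have hb : Tendsto (fun t : ℝ => Real.arctan ((t - x) / r)) atBot (𝓝 (-(Real.pi / 2))) := by
    refine (tendsto_nhds_of_tendsto_nhdsWithin Real.tendsto_arctan_atBot).comp ?_
    exact (tendsto_id.atBot_add tendsto_const_nhds).atBot_div_const hr
  refine ⟨hi, ?_, ?_, ?_⟩
  · rw [integral_of_hasDerivAt_of_tendsto hd hi hb ht]; ring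
  · rw [integral_Iic_of_hasDerivAt_of_tendsto' (fun t _ => hd t) hi.integrableOn hb]; simp
  · rw [integral_Ioi_of_hasDerivAt_of_tendsto' (fun t _ => hd t) hi.integrableOn ht]; simp

variable {Hm Hp : ℝ} {C : Set ℝ} (cd : CD Hm Hp C)

theorem p1_growth : ∃ A : ℝ, 1 ≤ A ∧ ∀ z ∈ Uc, ‖cd.f z‖ ≤ A * (1 + Real.log (1 + ‖z‖)) := by
  obtain ⟨A, hA⟩ := cd.growth
  refine ⟨max A 1, le_max_right _ _, fun z hz => (hA z hz).trans ?_⟩
  have h0 : 0 ≤ Real.log (1 + ‖z‖) := Real.log_nonneg (by linarith [norm_nonneg z])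
  have h1 : A ≤ max A 1 := le_max_left _ _
  have h2 : 1 ≤ max A 1 := le_max_right _ _
  nlinarith

/-- (1) -/
theorem p1_one (h : ST_A1) (x r : ℝ) (hr : 0 < r) :
    Integrable (fun t => vf cd t * (r / ((t - x) ^ 2 + r ^ 2))) ∧
    Yf cd x r = (1 / Real.pi) * ∫ t : ℝ, vf cd t * (r / ((t - x) ^ 2 + r ^ 2)) := by
  obtain ⟨A, _, hA⟩ := p1_growth cd
  exact p1_im h cd.cont cd.ana hA x hr

/-- (2) -/
theorem p1_two (h : ST_A1) (x r : ℝ) (hr : 0 < r) :
    Integrable (fun t => Nf cd t * (r / ((t - x) ^ 2 + r ^ 2))) ∧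
    (cd.f ((x : ℂ) + (r : ℂ) * I)).re = (1 / Real.pi) * ∫ t : ℝ, Nf cd t * (r / ((t - x) ^ 2 + r ^ 2)) := by
  obtain ⟨A, _, hA⟩ := p1_growth cd
  exact p1_re h cd.cont cd.ana hA x hr

theorem p1_pos (x r : ℝ) (hr : 0 < r) : 0 < Yf cd x r := cd.im_pos _ (p1_mem x hr)

theorem p1_v0 (t : ℝ) : 0 ≤ vf cd t := cd.im_nonneg t

/-- the real part is nondecreasing on horizontal lines -/
theorem p1_remono (h : ST_A1) (r : ℝ) (hr : 0 < r) :
    Monotone (fun x : ℝ => (cd.f ((x : ℂ) + (r : ℂ) * I)).re) := by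
  have key : ∀ x : ℝ, Integrable (fun u : ℝ => Nf cd (u + x) * (r / (u ^ 2 + r ^ 2))) ∧
      (cd.f ((x : ℂ) + (r : ℂ) * I)).re = (1 / Real.pi) * ∫ u : ℝ, Nf cd (u + x) * (r / (u ^ 2 + r ^ 2)) := by
    intro x
    obtain ⟨h1, h2⟩ := p1_two cd h x r hr
    refine ⟨?_, ?_⟩
    · have := h1.comp_add_right x
      refine this.congr (Eventually.of_forall fun u => ?_)
      simp
    · rw [h2, ← integral_add_right_eq_self (fun t : ℝ => Nf cd t * (r / ((t - x) ^ 2 + r ^ 2))) x]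
      simp
  intro x x' hx
  show (cd.f ((x : ℂ) + (r : ℂ) * I)).re ≤ (cd.f ((x' : ℂ) + (r : ℂ) * I)).re
  rw [(key x).2, (key x').2]
  refine mul_le_mul_of_nonneg_left (integral_mono (key x).1 (key x').1 fun u => ?_) (by positivity)
  exact mul_le_mul_of_nonneg_right (cd.re_mono _ _ (by linarith)) (by positivity)

theorem p1_dd {z : ℂ} (hz : z ∈ Uo) : HasDerivAt cd.f (deriv cd.f z) z :=
  ((cd.ana z hz).differentiableAt (p1_isOpen.mem_nhds hz)).hasDerivAt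

theorem p1_dre (h : ST_A1) (x : ℝ) {r : ℝ} (hr : 0 < r) : 0 ≤ (deriv cd.f ((x : ℂ) + (r : ℂ) * I)).re := by
  have h1 : HasDerivAt (fun w : ℂ => cd.f (w + (r : ℂ) * I)) (deriv cd.f ((x : ℂ) + (r : ℂ) * I)) (x : ℂ) := by
    have := (p1_dd cd (p1_mem x hr)).comp (x : ℂ) ((hasDerivAt_id (x : ℂ)).add_const ((r : ℂ) * I))
    rw [mul_one] at this
    exact this
  have h2 := h1.real_of_complex
  rw [← h2.deriv]
  exact (p1_remono cd h r hr).deriv_nonneg

theorem p1_dim (x : ℝ) {r : ℝ} (hr : 0 < r) :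
    HasDerivAt (fun y : ℝ => Yf cd x y) (deriv cd.f ((x : ℂ) + (r : ℂ) * I)).re r := by
  have h1 : HasDerivAt (fun w : ℂ => -I * cd.f ((x : ℂ) + w * I)) (deriv cd.f ((x : ℂ) + (r : ℂ) * I)) (r : ℂ) := by
    have h3 : HasDerivAt (fun w : ℂ => (x : ℂ) + w * I) I (r : ℂ) := by
      have := ((hasDerivAt_id (r : ℂ)).mul_const I).const_add (x : ℂ)
      simpa using this
    have h4 := ((p1_dd cd (p1_mem x hr)).comp (r : ℂ) h3).const_mul (-I)
    have h5 : -I * (deriv cd.f ((x : ℂ) + (r : ℂ) * I) * I) = deriv cd.f ((x : ℂ) + (r : ℂ) * I) := by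
      rw [show -I * (deriv cd.f ((x : ℂ) + (r : ℂ) * I) * I) = -(I * I) * deriv cd.f ((x : ℂ) + (r : ℂ) * I) by ring]
      rw [I_mul_I]; ring
    rw [h5] at h4
    exact h4
  have h2 := h1.real_of_complex
  refine h2.congr_of_eventuallyEq (Eventually.of_forall fun y => ?_)
  simp [Yf]

/-- (3) -/
theorem p1_three (h : ST_A1) (x r r' : ℝ) (hr : 0 < r) (hrr : r ≤ r') :
    0 < Yf cd x r ∧ Yf cd x r ≤ Yf cd x r' ∧ Yf cd x r' / r' ≤ Yf cd x r / r := by
  have hr' : 0 < r' := lt_of_lt_of_le hr hrr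
  refine ⟨p1_pos cd x r hr, ?_, ?_⟩
  · have hm : MonotoneOn (fun y : ℝ => Yf cd x y) (Ioi 0) := by
      refine monotoneOn_of_deriv_nonneg (convex_Ioi 0) ?_ ?_ ?_
      · intro y hy
        exact (p1_dim cd x hy).continuousAt.continuousWithinAt
      · intro y hy
        rw [interior_Ioi] at hy
        exact (p1_dim cd x hy).differentiableAt.differentiableWithinAt
      · intro y hy
        rw [interior_Ioi] at hy
        rw [(p1_dim cd x hy).deriv]
        exact p1_dre cd h x hy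
    exact hm hr hr' hrr
  · obtain ⟨i1, e1⟩ := p1_one cd h x r hr
    obtain ⟨i2, e2⟩ := p1_one cd h x r' hr'
    rw [div_le_div_iff₀ hr' hr, e1, e2]
    rw [mul_assoc, mul_assoc, ← integral_mul_const, ← integral_mul_const]
    refine mul_le_mul_of_nonneg_left (integral_mono (i2.mul_const _) (i1.mul_const _) fun t => ?_) (by positivity)
    show vf cd t * (r' / ((t - x) ^ 2 + r' ^ 2)) * r ≤ vf cd t * (r / ((t - x) ^ 2 + r ^ 2)) * r'
    rw [mul_assoc, mul_assoc]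
    refine mul_le_mul_of_nonneg_left ?_ (p1_v0 cd t)
    have h1 : 0 < (t - x) ^ 2 + r ^ 2 := by positivity
    have h2 : 0 < (t - x) ^ 2 + r' ^ 2 := by positivity
    rw [div_mul_eq_mul_div, div_mul_eq_mul_div, div_le_div_iff₀ h2 h1]
    nlinarith [mul_pos hr hr', mul_nonneg (mul_pos hr hr').le (sub_nonneg.2 (pow_le_pow_left₀ hr.le hrr 2))]

/-- (4), for all points -/
theorem p1_four (h : ST_A1) (x x' r : ℝ) (hr : 0 < r) :
    Yf cd x' r ≤ (1 + |x - x'| / r + (|x - x'| / r) ^ 2) * Yf cd x r := by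
  obtain ⟨i1, e1⟩ := p1_one cd h x r hr
  obtain ⟨i2, e2⟩ := p1_one cd h x' r hr
  set k : ℝ := |x - x'| / r with hk
  have hk0 : 0 ≤ k := by positivity
  have hkr : |x - x'| = k * r := by rw [hk]; field_simp
  rw [e1, e2, show (1 + k + k ^ 2) * (1 / Real.pi * ∫ t : ℝ, vf cd t * (r / ((t - x) ^ 2 + r ^ 2))) =
    1 / Real.pi * ∫ t : ℝ, (1 + k + k ^ 2) * (vf cd t * (r / ((t - x) ^ 2 + r ^ 2))) by
      rw [integral_const_mul]; ring]
  refine mul_le_mul_of_nonneg_left (integral_mono i2 (i1.const_mul _) fun t => ?_) (by positivity)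
  show vf cd t * (r / ((t - x') ^ 2 + r ^ 2)) ≤ (1 + k + k ^ 2) * (vf cd t * (r / ((t - x) ^ 2 + r ^ 2)))
  rw [mul_left_comm]
  refine mul_le_mul_of_nonneg_left ?_ (p1_v0 cd t)
  have h1 : 0 < (t - x) ^ 2 + r ^ 2 := by positivity
  have h2 : 0 < (t - x') ^ 2 + r ^ 2 := by positivity
  rw [mul_div_assoc', div_le_div_iff₀ h2 h1]
  have h3 : (t - x) ^ 2 + r ^ 2 ≤ (1 + k + k ^ 2) * ((t - x') ^ 2 + r ^ 2) := by
    have h4 : (t - x) ^ 2 = (t - x') ^ 2 - 2 * (t - x') * (x - x') + (x - x') ^ 2 := by ring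
    have h5 : (x - x') ^ 2 = k ^ 2 * r ^ 2 := by rw [← sq_abs, hkr]; ring
    have h6 : -(2 * (t - x') * (x - x')) ≤ k * ((t - x') ^ 2 + r ^ 2) := by
      have : -(2 * (t - x') * (x - x')) ≤ 2 * |t - x'| * |x - x'| := by
        have h7 := neg_abs_le ((t - x') * (x - x'))
        rw [abs_mul] at h7
        nlinarith
      rw [hkr] at this
      have h8 : 2 * |t - x'| * r ≤ (t - x') ^ 2 + r ^ 2 := by
        have := sq_nonneg (|t - x'| - r)
        rw [sub_sq, sq_abs] at this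
        linarith
      nlinarith
    have h9 : k ^ 2 * r ^ 2 ≤ k ^ 2 * ((t - x') ^ 2 + r ^ 2) := by
      have := mul_nonneg (sq_nonneg k) (sq_nonneg (t - x'))
      nlinarith
    nlinarith
  calc r * ((t - x) ^ 2 + r ^ 2) ≤ r * ((1 + k + k ^ 2) * ((t - x') ^ 2 + r ^ 2)) := by gcongr
    _ = (1 + k + k ^ 2) * r * ((t - x') ^ 2 + r ^ 2) := by ring

/-- lower bound for the imaginary part -/
theorem p1_low (h : ST_A1) {d : ℝ} (hd : 0 < d) :
    ∃ b : ℝ, 0 < b ∧ ∀ z ∈ Uc, b ≤ (1 + ‖z‖) ^ 2 * (cd.f (z + (d : ℂ) * I)).im := by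
  have hY := p1_pos cd 0 d hd
  refine ⟨Yf cd 0 d / (1 + 1 / d) ^ 2, by positivity, fun z hz => ?_⟩
  have hz0 : 0 ≤ z.im := hz
  have hr : 0 < z.im + d := by linarith
  have e1 : (cd.f (z + (d : ℂ) * I)).im = Yf cd z.re (z.im + d) := by
    unfold Yf
    congr 2
    apply Complex.ext <;> simp
  rw [e1]
  have h1 := p1_four cd h z.re 0 (z.im + d) hr
  have h2 := (p1_three cd h 0 d (z.im + d) hd (by linarith)).2.1
  set k : ℝ := |z.re - 0| / (z.im + d) with hk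
  have hk0 : 0 ≤ k := by positivity
  have hk1 : k ≤ ‖z‖ / d := by
    rw [hk, sub_zero]
    have := Complex.abs_re_le_norm z
    gcongr
    linarith
  have hz1 : 0 ≤ ‖z‖ := norm_nonneg z
  have h3 : 1 + k + k ^ 2 ≤ ((1 + 1 / d) * (1 + ‖z‖)) ^ 2 := by
    have h4 : 1 + k ≤ (1 + 1 / d) * (1 + ‖z‖) := by
      have h5 : ‖z‖ / d = 1 / d * ‖z‖ := by ring
      have h6 : 0 ≤ 1 / d := by positivity
      nlinarith
    calc 1 + k + k ^ 2 ≤ (1 + k) ^ 2 := by nlinarith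
      _ ≤ _ := by gcongr
  have hY2 := p1_pos cd z.re (z.im + d) hr
  rw [div_le_iff₀ (by positivity)]
  calc Yf cd 0 d ≤ (1 + k + k ^ 2) * Yf cd z.re (z.im + d) := h2.trans h1
    _ ≤ ((1 + 1 / d) * (1 + ‖z‖)) ^ 2 * Yf cd z.re (z.im + d) := by gcongr
    _ = _ := by ring

theorem p1_arg {w : ℂ} (h1 : Real.pi / 4 ≤ arg w) (h2 : arg w ≤ 3 * Real.pi / 4) : |w.re| ≤ w.im := by
  have hs : 0 ≤ Real.sin (arg w - Real.pi / 4) := Real.sin_nonneg_of_nonneg_of_le_pi (by linarith) (by linarith [Real.pi_pos])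
  have ht : 0 ≤ Real.sin (arg w + Real.pi / 4) := Real.sin_nonneg_of_nonneg_of_le_pi (by linarith [Real.pi_pos]) (by linarith [Real.pi_pos])
  rw [Real.sin_sub, Real.cos_pi_div_four, Real.sin_pi_div_four] at hs
  rw [Real.sin_add, Real.cos_pi_div_four, Real.sin_pi_div_four] at ht
  have h2 : 0 < Real.sqrt 2 := by positivity
  have hs' : Real.cos (arg w) ≤ Real.sin (arg w) := by nlinarith
  have ht' : -Real.cos (arg w) ≤ Real.sin (arg w) := by nlinarith
  rw [← Complex.norm_mul_cos_arg w, ← Complex.norm_mul_sin_arg w, abs_mul, abs_norm]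
  exact mul_le_mul_of_nonneg_left (abs_le.2 ⟨by linarith, hs'⟩) (norm_nonneg _)

/-- (5) shifted -/
theorem p1_shift (h : ST_A1) (x : ℝ) {r d : ℝ} (hr : 0 < r) (hd : 0 < d) :
    |(cd.f ((x : ℂ) + ((r + d : ℝ) : ℂ) * I)).re - (cd.f ((x : ℂ) + (d : ℂ) * I)).re| ≤
      (cd.f ((x : ℂ) + ((r + d : ℝ) : ℂ) * I)).im := by
  set c : ℝ := (cd.f ((x : ℂ) + (d : ℂ) * I)).re with hc
  set G : ℂ → ℂ := fun z => cd.f (z + (d : ℂ) * I) - (c : ℂ) with hG
  have hsh : ∀ z ∈ Uc, z + (d : ℂ) * I ∈ Uo := by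
    intro z hz
    have hz0 : 0 ≤ z.im := hz
    show 0 < (z + (d : ℂ) * I).im
    simp
    linarith
  have hGim : ∀ z ∈ Uc, 0 < (G z).im := by
    intro z hz
    have := cd.im_pos _ (hsh z hz)
    simpa [hG] using this
  have hslit : ∀ z ∈ Uc, G z ∈ slitPlane := fun z hz => Or.inr (hGim z hz).ne'
  have hGd : ∀ z ∈ Uc, DifferentiableAt ℂ G z := by
    intro z hz
    have h1 := (p1_dd cd (hsh z hz)).comp z ((hasDerivAt_id z).add_const ((d : ℂ) * I))
    exact (h1.sub_const (c : ℂ)).differentiableAt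
  obtain ⟨b, hb0, hb⟩ := p1_low cd h hd
  obtain ⟨A, hA1, hA⟩ := p1_growth cd
  -- growth of log G
  have hgr : ∃ K : ℝ, ∀ z ∈ Uc, ‖Complex.log (G z)‖ ≤ K * (1 + Real.log (1 + ‖z‖)) := by
    refine ⟨|Real.log (2 * A + A * d + |c| + 1)| + |Real.log b| + 2 + Real.pi, fun z hz => ?_⟩
    have hz0 : 0 ≤ z.im := hz
    have hn : 0 ≤ ‖z‖ := norm_nonneg z
    have hL : 0 ≤ Real.log (1 + ‖z‖) := Real.log_nonneg (by linarith)
    have hup : ‖G z‖ ≤ (2 * A + A * d + |c| + 1) * (1 + ‖z‖) := by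
      have h1 : ‖G z‖ ≤ ‖cd.f (z + (d : ℂ) * I)‖ + |c| := by
        have := norm_sub_le (cd.f (z + (d : ℂ) * I)) (c : ℂ)
        rwa [Complex.norm_real, Real.norm_eq_abs] at this
      have h2 := hA _ (p1_UoUc (hsh z hz))
      have h3 : ‖z + (d : ℂ) * I‖ ≤ ‖z‖ + d := by
        have := norm_add_le z ((d : ℂ) * I)
        rwa [norm_mul, Complex.norm_I, mul_one, Complex.norm_real, Real.norm_eq_abs, abs_of_pos hd] at this
      have h4 : Real.log (1 + ‖z + (d : ℂ) * I‖) ≤ ‖z‖ + d := by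
        have := Real.log_le_sub_one_of_pos (show 0 < 1 + ‖z + (d : ℂ) * I‖ by positivity)
        linarith
      have h5 : A * (1 + Real.log (1 + ‖z + (d : ℂ) * I‖)) ≤ A * (1 + (‖z‖ + d)) := by gcongr
      have h6 : 0 ≤ |c| := abs_nonneg c
      nlinarith [mul_nonneg (mul_nonneg (by linarith : (0:ℝ) ≤ A) hd.le) hn, mul_nonneg h6 hn]
    have hlo : b / (1 + ‖z‖) ^ 2 ≤ ‖G z‖ := by
      have h1 := hb z hz
      have h2 : (cd.f (z + (d : ℂ) * I)).im = (G z).im := by simp [hG]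
      have h3 := (le_abs_self (G z).im).trans (Complex.abs_im_le_norm (G z))
      rw [div_le_iff₀ (by positivity)]
      calc b ≤ (1 + ‖z‖) ^ 2 * (cd.f (z + (d : ℂ) * I)).im := h1
        _ ≤ (1 + ‖z‖) ^ 2 * ‖G z‖ := by rw [h2]; gcongr
        _ = _ := by ring
    have hB : 0 < 2 * A + A * d + |c| + 1 := by positivity
    have hG0 : 0 < ‖G z‖ := lt_of_lt_of_le (by positivity) hlo
    have hl1 : Real.log ‖G z‖ ≤ |Real.log (2 * A + A * d + |c| + 1)| + Real.log (1 + ‖z‖) := by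
      have := Real.log_le_log hG0 hup
      rw [Real.log_mul hB.ne' (by positivity)] at this
      linarith [le_abs_self (Real.log (2 * A + A * d + |c| + 1))]
    have hl2 : -(|Real.log b| + 2 * Real.log (1 + ‖z‖)) ≤ Real.log ‖G z‖ := by
      have := Real.log_le_log (by positivity) hlo
      rw [Real.log_div hb0.ne' (by positivity), Real.log_pow] at this
      push_cast at this
      linarith [neg_abs_le (Real.log b)]
    have h1 := Complex.norm_le_abs_re_add_abs_im (Complex.log (G z))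
    rw [Complex.log_re, Complex.log_im] at h1
    have h2 := Complex.abs_arg_le_pi (G z)
    have h3 : |Real.log ‖G z‖| ≤ |Real.log (2 * A + A * d + |c| + 1)| + |Real.log b| + 2 * Real.log (1 + ‖z‖) := by
      rw [abs_le]
      constructor
      · linarith [abs_nonneg (Real.log (2 * A + A * d + |c| + 1))]
      · linarith [abs_nonneg (Real.log b)]
    have h4 := mul_nonneg (add_nonneg (add_nonneg (abs_nonneg (Real.log (2 * A + A * d + |c| + 1))) (abs_nonneg (Real.log b))) Real.pi_pos.le) hL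
    nlinarith
  obtain ⟨K, hK⟩ := hgr
  have hF1 : ContinuousOn (fun z => Complex.log (G z)) Uc := by
    intro z hz
    exact ((hGd z hz).clog (hslit z hz)).continuousAt.continuousWithinAt
  have hF2 : DifferentiableOn ℂ (fun z => Complex.log (G z)) Uo := by
    intro z hz
    exact ((hGd z (p1_UoUc hz)).clog (hslit z (p1_UoUc hz))).differentiableWithinAt
  obtain ⟨hi, he⟩ := p1_im h hF1 hF2 hK x hr
  simp only [Complex.log_im] at hi he
  obtain ⟨w0, w1, w2, w3⟩ := p1_w x hr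
  have hreal : ∀ t : ℝ, ((t : ℝ) : ℂ) ∈ Uc := fun t => by simp [Uc]
  have hGre : ∀ t : ℝ, (G t).re = (cd.f ((t : ℂ) + (d : ℂ) * I)).re - c := by intro t; simp [hG]
  have hmono := p1_remono cd h d hd
  have hwp : ∀ t : ℝ, 0 ≤ r / ((t - x) ^ 2 + r ^ 2) := fun t => by positivity
  have hz0 : G ((x : ℂ) + (r : ℂ) * I) = cd.f ((x : ℂ) + ((r + d : ℝ) : ℂ) * I) - (c : ℂ) := by
    simp only [hG]
    congr 2
    push_cast
    ring
  have hup : arg (G ((x : ℂ) + (r : ℂ) * I)) ≤ 3 * Real.pi / 4 := by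
    rw [he]
    have h1 : ∫ t : ℝ, arg (G t) * (r / ((t - x) ^ 2 + r ^ 2)) ≤
        ∫ t : ℝ, (Real.pi / 2 * (r / ((t - x) ^ 2 + r ^ 2)) +
          (Iic x).indicator (fun t => Real.pi / 2 * (r / ((t - x) ^ 2 + r ^ 2))) t) := by
      refine integral_mono hi ((w0.const_mul _).add ((w0.const_mul _).indicator measurableSet_Iic)) fun t => ?_
      show arg (G t) * (r / ((t - x) ^ 2 + r ^ 2)) ≤ _
      by_cases ht : t ≤ x
      · rw [indicator_of_mem (show t ∈ Iic x from ht)]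
        have := Complex.arg_le_pi (G t)
        nlinarith [hwp t]
      · rw [indicator_of_notMem (show t ∉ Iic x from ht), add_zero]
        refine mul_le_mul_of_nonneg_right ?_ (hwp t)
        rw [Complex.arg_le_pi_div_two_iff]
        left
        rw [hGre]
        have := hmono (not_le.1 ht).le
        simp only at this
        linarith
    rw [integral_add (w0.const_mul _) ((w0.const_mul _).indicator measurableSet_Iic),
      integral_indicator measurableSet_Iic, integral_const_mul, integral_const_mul, w1, w2] at h1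
    have hp := Real.pi_pos
    calc 1 / Real.pi * ∫ t : ℝ, arg (G t) * (r / ((t - x) ^ 2 + r ^ 2)) ≤
        1 / Real.pi * (Real.pi / 2 * Real.pi + Real.pi / 2 * (Real.pi / 2)) := by gcongr
      _ = 3 * Real.pi / 4 := by field_simp; ring
  have hlo : Real.pi / 4 ≤ arg (G ((x : ℂ) + (r : ℂ) * I)) := by
    rw [he]
    have h1 : ∫ t : ℝ, (Iic x).indicator (fun t => Real.pi / 2 * (r / ((t - x) ^ 2 + r ^ 2))) t ≤
        ∫ t : ℝ, arg (G t) * (r / ((t - x) ^ 2 + r ^ 2)) := by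
      refine integral_mono ((w0.const_mul _).indicator measurableSet_Iic) hi fun t => ?_
      show _ ≤ arg (G t) * (r / ((t - x) ^ 2 + r ^ 2))
      by_cases ht : t ≤ x
      · rw [indicator_of_mem (show t ∈ Iic x from ht)]
        refine mul_le_mul_of_nonneg_right ?_ (hwp t)
        by_contra hcon
        rw [not_le, Complex.arg_lt_pi_div_two_iff] at hcon
        have hp := hGim t (hreal t)
        rcases hcon with h1 | h1 | h1
        · rw [hGre] at h1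
          have := hmono ht
          simp only at this
          linarith
        · linarith
        · rw [h1] at hp; simp at hp
      · rw [indicator_of_notMem (show t ∉ Iic x from ht)]
        exact mul_nonneg (Complex.arg_nonneg_iff.2 (hGim t (hreal t)).le) (hwp t)
    rw [integral_indicator measurableSet_Iic, integral_const_mul, w2] at h1
    have hp := Real.pi_pos
    calc Real.pi / 4 = 1 / Real.pi * (Real.pi / 2 * (Real.pi / 2)) := by field_simp; ring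
      _ ≤ 1 / Real.pi * ∫ t : ℝ, arg (G t) * (r / ((t - x) ^ 2 + r ^ 2)) := by gcongr
  have hfin := p1_arg hlo hup
  rw [hz0] at hfin
  simpa using hfin

/-- (5) -/
theorem p1_five (h : ST_A1) (x r : ℝ) (hr : 0 < r) :
    |(cd.f ((x : ℂ) + (r : ℂ) * I)).re - Nf cd x| ≤ Yf cd x r := by
  have hcont : ∀ y : ℝ, 0 ≤ y → Tendsto (fun d : ℝ => cd.f ((x : ℂ) + ((y + d : ℝ) : ℂ) * I)) (𝓝[>] 0)
      (𝓝 (cd.f ((x : ℂ) + (y : ℂ) * I))) := by
    intro y hy
    have h1 : ContinuousWithinAt cd.f {z | 0 ≤ z.im} ((x : ℂ) + (y : ℂ) * I) :=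
      cd.cont _ (show 0 ≤ ((x : ℂ) + (y : ℂ) * I).im by simpa using hy)
    refine h1.tendsto.comp (tendsto_nhdsWithin_iff.2 ⟨?_, ?_⟩)
    · have h2 : Continuous (fun d : ℝ => (x : ℂ) + ((y + d : ℝ) : ℂ) * I) := by fun_prop
      have h3 := (h2.tendsto 0).mono_left (nhdsWithin_le_nhds (s := Ioi (0 : ℝ)))
      simpa using h3
    · filter_upwards [self_mem_nhdsWithin] with d hd
      have hd0 : (0 : ℝ) < d := hd
      show 0 ≤ ((x : ℂ) + ((y + d : ℝ) : ℂ) * I).im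
      simp
      linarith
  have h1 := hcont r hr.le
  have h2 := hcont 0 le_rfl
  simp only [zero_add, Complex.ofReal_zero, zero_mul, add_zero] at h2
  have h3 : Tendsto (fun d : ℝ => |(cd.f ((x : ℂ) + ((r + d : ℝ) : ℂ) * I)).re - (cd.f ((x : ℂ) + (d : ℂ) * I)).re|)
      (𝓝[>] 0) (𝓝 |(cd.f ((x : ℂ) + (r : ℂ) * I)).re - Nf cd x|) :=
    (((Complex.continuous_re.tendsto _).comp h1).sub ((Complex.continuous_re.tendsto _).comp h2)).abs
  have h4 : Tendsto (fun d : ℝ => (cd.f ((x : ℂ) + ((r + d : ℝ) : ℂ) * I)).im) (𝓝[>] 0) (𝓝 (Yf cd x r)) :=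
    (Complex.continuous_im.tendsto _).comp h1
  refine le_of_tendsto_of_tendsto h3 h4 ?_
  filter_upwards [self_mem_nhdsWithin] with d hd
  exact p1_shift cd h x hr hd

theorem p1_norm (t x r : ℝ) : ‖(t : ℂ) - ((x : ℂ) + (r : ℂ) * I)‖ ^ 2 = (t - x) ^ 2 + r ^ 2 := by
  rw [← Complex.normSq_eq_norm_sq, Complex.normSq_apply]
  simp
  ring

/-- difference of f on a horizontal line -/
theorem p1_diff (h : ST_A1) (x₁ x₂ r : ℝ) (hr : 0 < r) :
    ‖cd.f ((x₁ : ℂ) + (r : ℂ) * I) - cd.f ((x₂ : ℂ) + (r : ℂ) * I)‖ ≤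
      |x₁ - x₂| / 2 * (Yf cd x₁ r / r + Yf cd x₂ r / r) := by
  obtain ⟨A, _, hA⟩ := p1_growth cd
  obtain ⟨hi, he⟩ := (h cd.f A cd.cont cd.ana hA).2 _ (p1_mem x₁ hr) _ (p1_mem x₂ hr)
  obtain ⟨i1, e1⟩ := p1_one cd h x₁ r hr
  obtain ⟨i2, e2⟩ := p1_one cd h x₂ r hr
  rw [he, norm_mul, Complex.norm_real, Real.norm_eq_abs, abs_of_pos (by positivity : (0 : ℝ) < 1 / Real.pi)]
  have hb : ‖∫ t : ℝ, (((cd.f t).im : ℝ) : ℂ) * (1 / ((t : ℂ) - ((x₁ : ℂ) + (r : ℂ) * I)) - 1 / ((t : ℂ) - ((x₂ : ℂ) + (r : ℂ) * I)))‖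
      ≤ ∫ t : ℝ, (|x₁ - x₂| / 2 / r * (vf cd t * (r / ((t - x₁) ^ 2 + r ^ 2))) +
        |x₁ - x₂| / 2 / r * (vf cd t * (r / ((t - x₂) ^ 2 + r ^ 2)))) := by
    refine norm_integral_le_of_norm_le ((i1.const_mul _).add (i2.const_mul _)) (Eventually.of_forall fun t => ?_)
    have hne : ∀ y : ℝ, (t : ℂ) - ((y : ℂ) + (r : ℂ) * I) ≠ 0 := by
      intro y h0
      have := congrArg Complex.im h0
      simp at this
      exact hr.ne' this
    have hv := p1_v0 cd t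
    rw [norm_mul, Complex.norm_real, Real.norm_eq_abs, abs_of_nonneg (show 0 ≤ (cd.f t).im from hv)]
    have h1 : 1 / ((t : ℂ) - ((x₁ : ℂ) + (r : ℂ) * I)) - 1 / ((t : ℂ) - ((x₂ : ℂ) + (r : ℂ) * I)) =
        ((x₁ - x₂ : ℝ) : ℂ) / (((t : ℂ) - ((x₁ : ℂ) + (r : ℂ) * I)) * ((t : ℂ) - ((x₂ : ℂ) + (r : ℂ) * I))) := by
      have := hne x₁
      have := hne x₂
      field_simp
      push_cast
      ring
    rw [h1, norm_div, Complex.norm_real, Real.norm_eq_abs, norm_mul]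
    have n1 := p1_norm t x₁ r
    have n2 := p1_norm t x₂ r
    have p1 : 0 < ‖(t : ℂ) - ((x₁ : ℂ) + (r : ℂ) * I)‖ := norm_pos_iff.2 (hne x₁)
    have p2 : 0 < ‖(t : ℂ) - ((x₂ : ℂ) + (r : ℂ) * I)‖ := norm_pos_iff.2 (hne x₂)
    rw [← n1, ← n2]
    generalize ‖(t : ℂ) - ((x₁ : ℂ) + (r : ℂ) * I)‖ = a at *
    generalize ‖(t : ℂ) - ((x₂ : ℂ) + (r : ℂ) * I)‖ = b at *
    have h2 : |x₁ - x₂| / (a * b) ≤ |x₁ - x₂| / 2 / r * (r / a ^ 2) + |x₁ - x₂| / 2 / r * (r / b ^ 2) := by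
      have h3 : |x₁ - x₂| / 2 / r * (r / a ^ 2) + |x₁ - x₂| / 2 / r * (r / b ^ 2) - |x₁ - x₂| / (a * b) =
          |x₁ - x₂| / 2 * (1 / a - 1 / b) ^ 2 := by
        field_simp
        ring
      have h4 : 0 ≤ |x₁ - x₂| / 2 * (1 / a - 1 / b) ^ 2 := by positivity
      linarith
    show vf cd t * (|x₁ - x₂| / (a * b)) ≤ _
    calc vf cd t * (|x₁ - x₂| / (a * b)) ≤ vf cd t * (|x₁ - x₂| / 2 / r * (r / a ^ 2) + |x₁ - x₂| / 2 / r * (r / b ^ 2)) := by gcongr
      _ = _ := by ring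
  rw [integral_add (i1.const_mul _) (i2.const_mul _), integral_const_mul, integral_const_mul] at hb
  calc 1 / Real.pi * _ ≤ 1 / Real.pi * _ := mul_le_mul_of_nonneg_left hb (by positivity)
    _ = _ := by rw [e1, e2]; ring

/-- (6) -/
theorem p1_six (h : ST_A1) (x r x₁ x₂ : ℝ) (hr : 0 < r) (h1 : |x₁ - x| ≤ r) (h2 : |x₂ - x| ≤ r) :
    |Nf cd x₁ - Nf cd x₂| ≤ 12 * Yf cd x r := by
  have hY := p1_pos cd x r hr
  have key : ∀ y : ℝ, |y - x| ≤ r → Yf cd y r ≤ 3 * Yf cd x r := by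
    intro y hy
    have h3 := p1_four cd h x y r hr
    have h4 : |x - y| / r ≤ 1 := by rw [div_le_one hr, abs_sub_comm]; exact hy
    have h5 : 0 ≤ |x - y| / r := by positivity
    have h6 : 1 + |x - y| / r + (|x - y| / r) ^ 2 ≤ 3 := by nlinarith
    exact h3.trans (by gcongr)
  have k1 := key x₁ h1
  have k2 := key x₂ h2
  have f1 := p1_five cd h x₁ r hr
  have f2 := p1_five cd h x₂ r hr
  have hd := p1_diff cd h x₁ x₂ r hr
  have h12 : |x₁ - x₂| ≤ 2 * r := by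
    have : x₁ - x₂ = (x₁ - x) - (x₂ - x) := by ring
    rw [this]
    have := abs_sub (x₁ - x) (x₂ - x)
    linarith
  have hY1 := p1_pos cd x₁ r hr
  have hY2 := p1_pos cd x₂ r hr
  have hd2 : |(cd.f ((x₁ : ℂ) + (r : ℂ) * I)).re - (cd.f ((x₂ : ℂ) + (r : ℂ) * I)).re| ≤ 6 * Yf cd x r := by
    have h3 := Complex.abs_re_le_norm (cd.f ((x₁ : ℂ) + (r : ℂ) * I) - cd.f ((x₂ : ℂ) + (r : ℂ) * I))
    rw [Complex.sub_re] at h3
    refine (h3.trans hd).trans ?_
    calc |x₁ - x₂| / 2 * (Yf cd x₁ r / r + Yf cd x₂ r / r) ≤ 2 * r / 2 * (3 * Yf cd x r / r + 3 * Yf cd x r / r) := by gcongr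
      _ = 6 * Yf cd x r := by field_simp; ring
  rw [abs_le] at f1 f2 hd2 ⊢
  constructor <;> linarith [f1.1, f1.2, f2.1, f2.2, hd2.1, hd2.2]

theorem st_P1 (h : ST_A1) : ST_P1 := by
  intro Hm Hp C cd
  refine ⟨fun x r hr => p1_one cd h x r hr, fun x r hr => (p1_two cd h x r hr).2,
    fun x r r' hr hrr => p1_three cd h x r r' hr hrr, fun x x' r hr _ => p1_four cd h x x' r hr,
    fun x r hr => p1_five cd h x r hr, fun x r x₁ x₂ hr h1 h2 => p1_six cd h x r x₁ x₂ hr h1 h2⟩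

end

end Pool.Agent.Helper36.CV
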