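import Pool.Agent.Helper36.CV.StmtsQ

set_option autoImplicit false

namespace Pool.Agent.Helper36.CV

open Complex Filter Topology MeasureTheory Set

/-- the arcsine weight -/
theorem q11_arc {a b : ℝ} (hab : a < b) :
    IntervalIntegrable (fun t => 1 / Real.sqrt ((t - a) * (b - t))) volume a b ∧
    ∫ t in a..b, 1 / Real.sqrt ((t - a) * (b - t)) = Real.pi ∧
    IntervalIntegrable (fun t => (t - (a + b) / 2) / Real.sqrt ((t - a) * (b - t))) volume a b ∧
    ∫ t in a..b, (t - (a + b) / 2) / Real.sqrt ((t - a) * (b - t)) = 0 := by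
  set c := (a + b) / 2 with hc
  set h := (b - a) / 2 with hh
  have hh0 : 0 < h := by rw [hh]; linarith
  have hprod : ∀ t, (t - a) * (b - t) = h ^ 2 - (t - c) ^ 2 := by
    intro t; rw [hh, hc]; ring
  have hpos : ∀ t ∈ Ioo a b, 0 < (t - a) * (b - t) := by
    intro t ht
    exact mul_pos (by linarith [ht.1]) (by linarith [ht.2])
  have hder : ∀ t ∈ Ioo a b, HasDerivAt (fun t => Real.arcsin ((t - c) / h))
      (1 / Real.sqrt ((t - a) * (b - t))) t := by
    intro t ht
    have h1 : HasDerivAt (fun t : ℝ => (t - c) / h) (1 / h) t :=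
      ((hasDerivAt_id t).sub_const c).div_const h
    have hlt1 : (t - c) / h < 1 := by
      rw [div_lt_one hh0, hc, hh]; linarith [ht.2]
    have hlt2 : -1 < (t - c) / h := by
      rw [lt_div_iff₀ hh0, hc, hh]; linarith [ht.1]
    have h2 := (Real.hasDerivAt_arcsin (ne_of_gt hlt2) (ne_of_lt hlt1)).comp t h1
    have h3 : 1 / Real.sqrt (1 - ((t - c) / h) ^ 2) * (1 / h) = 1 / Real.sqrt ((t - a) * (b - t)) := by
      rw [hprod]
      have h4 : h ^ 2 - (t - c) ^ 2 = (1 - ((t - c) / h) ^ 2) * h ^ 2 := by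
        field_simp
      rw [h4, Real.sqrt_mul' _ (sq_nonneg h), Real.sqrt_sq hh0.le]
      rw [div_mul_div_comm, one_mul]
    rw [← h3]
    exact h2
  have hcont : Continuous (fun t => Real.arcsin ((t - c) / h)) :=
    Real.continuous_arcsin.comp (by fun_prop)
  have i1 : IntervalIntegrable (fun t => 1 / Real.sqrt ((t - a) * (b - t))) volume a b := by
    apply intervalIntegral.intervalIntegrable_deriv_of_nonneg (g := fun t => Real.arcsin ((t - c) / h))
      hcont.continuousOn
    · intro t ht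
      rw [min_eq_left hab.le, max_eq_right hab.le] at ht
      exact hder t ht
    · intro t ht
      positivity
  have i2 : IntervalIntegrable (fun t => (t - c) / Real.sqrt ((t - a) * (b - t))) volume a b := by
    have h1 := i1.continuousOn_mul (g := fun t => t - c) (by fun_prop)
    refine h1.congr ?_
    intro t _
    show (t - c) * (1 / Real.sqrt ((t - a) * (b - t))) = (t - c) / Real.sqrt ((t - a) * (b - t))
    ring
  refine ⟨i1, ?_, i2, ?_⟩
  · rw [intervalIntegral.integral_eq_sub_of_hasDerivAt_of_le hab.le hcont.continuousOn hder i1]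
    have h1 : (b - c) / h = 1 := by
      rw [div_eq_one_iff_eq hh0.ne', hc, hh]; ring
    have h2 : (a - c) / h = -1 := by
      rw [div_eq_iff hh0.ne', hc, hh]; ring
    rw [h1, h2, Real.arcsin_one, Real.arcsin_neg_one]
    ring
  · have h1 : ∫ t in a..b, (t - c) / Real.sqrt ((t - a) * (b - t)) =
        ∫ t in a..b, (fun s => (s - c) / Real.sqrt ((s - a) * (b - s))) (a + b - t) := by
      rw [intervalIntegral.integral_comp_sub_left (fun s => (s - c) / Real.sqrt ((s - a) * (b - s))) (a + b)]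
      congr 1 <;> ring
    have h2 : ∀ t, (fun s => (s - c) / Real.sqrt ((s - a) * (b - s))) (a + b - t) =
        - ((t - c) / Real.sqrt ((t - a) * (b - t))) := by
      intro t
      simp only []
      have h3 : (a + b - t - a) * (b - (a + b - t)) = (t - a) * (b - t) := by ring
      have h4 : a + b - t - c = - (t - c) := by rw [hc]; ring
      rw [h3, h4, neg_div]
    have h5 : ∫ t in a..b, (fun s => (s - c) / Real.sqrt ((s - a) * (b - s))) (a + b - t) =
        - ∫ t in a..b, (t - c) / Real.sqrt ((t - a) * (b - t)) := by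
      rw [← intervalIntegral.integral_neg]
      apply intervalIntegral.integral_congr
      intro t _
      exact h2 t
    rw [h5] at h1
    linarith

/-- one point of the reciprocal square root, relative form -/
theorem q11_pt {y k : ℝ} (hy : |y| ≤ 1 / 10) (hk : |k| ≤ 1 / 10) :
    1 - y ≤ 1 / Real.sqrt ((1 + y) ^ 2 - k ^ 2) ∧
    1 / Real.sqrt ((1 + y) ^ 2 - k ^ 2) ≤ 1 - y + 3 * (y ^ 2 + k ^ 2) := by
  obtain ⟨hy1, hy2⟩ := abs_le.1 hy
  obtain ⟨hk1, hk2⟩ := abs_le.1 hk
  have hk3 : k ^ 2 ≤ 1 / 100 := by nlinarith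
  have hy3 : y ^ 2 ≤ 1 / 100 := by nlinarith
  have hZ : 4 / 5 ≤ (1 + y) ^ 2 - k ^ 2 := by nlinarith
  set Z := (1 + y) ^ 2 - k ^ 2 with hZd
  have hZ0 : 0 < Z := by linarith
  have hs : 0 < Real.sqrt Z := Real.sqrt_pos.2 hZ0
  have hss : Real.sqrt Z ^ 2 = Z := Real.sq_sqrt hZ0.le
  have hid : Z * (1 - y) ^ 2 = 1 - 2 * y ^ 2 + y ^ 4 - k ^ 2 * (1 - y) ^ 2 := by
    rw [hZd]; ring
  constructor
  · rw [le_div_iff₀ hs]
    apply abs_le_of_sq_le_sq' _ (by norm_num) |>.2
    rw [mul_pow, hss, mul_comm, hid]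
    nlinarith [mul_nonneg (sq_nonneg k) (sq_nonneg (1 - y)), sq_nonneg y, mul_nonneg (sq_nonneg y) (sub_nonneg.2 hy3)]
  · rw [div_le_iff₀ hs]
    have hU : 0 < 1 - y + 3 * (y ^ 2 + k ^ 2) := by nlinarith [sq_nonneg y, sq_nonneg k]
    apply abs_le_of_sq_le_sq' _ (by positivity) |>.2
    rw [mul_pow, hss]
    have e0 : 0 ≤ 3 * (y ^ 2 + k ^ 2) := by positivity
    have h1 : (1 - y + 3 * (y ^ 2 + k ^ 2)) ^ 2 * Z =
        Z * (1 - y) ^ 2 + 2 * (Z * (1 - y)) * (3 * (y ^ 2 + k ^ 2)) + Z * (3 * (y ^ 2 + k ^ 2)) ^ 2 := by ring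
    have h2 : 18 / 25 ≤ Z * (1 - y) := by nlinarith
    have h3 : 0 ≤ Z * (3 * (y ^ 2 + k ^ 2)) ^ 2 := by positivity
    have h4 : k ^ 2 * (1 - y) ^ 2 ≤ k ^ 2 * 2 := mul_le_mul_of_nonneg_left (by nlinarith) (sq_nonneg k)
    have h5 : 18 / 25 * (3 * (y ^ 2 + k ^ 2)) ≤ Z * (1 - y) * (3 * (y ^ 2 + k ^ 2)) :=
      mul_le_mul_of_nonneg_right h2 e0
    have h6 : 0 ≤ y ^ 4 := by positivity
    rw [one_pow, h1, hid]
    nlinarith

/-- average of the reciprocal square root over another gap -/
theorem q11_av {a b a' b' : ℝ} (hab : a < b) (hab' : a' < b') (δ ρ : ℝ) (hρ : 0 < ρ) (hδ : δ ≤ 1 / 20)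
    (hs : b - a ≤ δ * ρ) (hs' : b' - a' ≤ δ * ρ)
    (hX : 3 / 10 * ρ ≤ |(a' + b') / 2 - (a + b) / 2|) :
    |((a' + b') / 2 - (a + b) / 2) * ((1 / Real.pi) * ∫ t in a'..b', (1 / qr a b t) / Real.sqrt ((t - a') * (b' - t))) - 1|
      ≤ 20 * δ ^ 2 := by
  have hδ0 : 0 < δ := by
    have : 0 < δ * ρ := by linarith
    exact (mul_pos_iff_of_pos_right hρ).1 this
  obtain ⟨i1, e1, i2, e2⟩ := q11_arc hab'
  set c := (a + b) / 2 with hc
  set c' := (a' + b') / 2 with hc'
  set X := c' - c with hXd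
  set h := (b - a) / 2 with hh
  have hX0 : X ≠ 0 := by
    intro h0
    rw [h0, abs_zero] at hX
    linarith
  have hXa : 0 < |X| := abs_pos.2 hX0
  have hh0 : 0 < h := by rw [hh]; linarith
  -- the sign
  have key : ∀ t ∈ Icc a' b', X * (1 / qr a b t) = 1 / Real.sqrt ((1 + (t - c') / X) ^ 2 - (h / X) ^ 2) ∧
      |(t - c') / X| ≤ 1 / 10 ∧ |h / X| ≤ 1 / 10 ∧ ((t - c') / X) ^ 2 + (h / X) ^ 2 ≤ 6 * δ ^ 2 := by
    intro t ht
    have hw : |t - c'| ≤ δ * ρ / 2 := by
      rw [abs_le]
      constructor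
      · rw [hc']; linarith [ht.1]
      · rw [hc']; linarith [ht.2]
    have hhw : |h| ≤ δ * ρ / 2 := by
      rw [abs_of_pos hh0, hh]; linarith
    have hδρ : δ * ρ ≤ ρ / 20 := by nlinarith
    have b1 : |(t - c') / X| ≤ 5 / 3 * δ := by
      rw [abs_div, div_le_iff₀ hXa]
      have := mul_le_mul_of_nonneg_left hX (by positivity : (0:ℝ) ≤ 5 / 3 * δ)
      linarith
    have b2 : |h / X| ≤ 5 / 3 * δ := by
      rw [abs_div, div_le_iff₀ hXa]
      have := mul_le_mul_of_nonneg_left hX (by positivity : (0:ℝ) ≤ 5 / 3 * δ)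
      linarith
    have b3 : |(t - c') / X| ≤ 1 / 10 := by linarith
    have b4 : |h / X| ≤ 1 / 10 := by linarith
    have b5 : ((t - c') / X) ^ 2 ≤ (5 / 3 * δ) ^ 2 := by
      rw [← sq_abs]; exact pow_le_pow_left₀ (abs_nonneg _) b1 2
    have b6 : (h / X) ^ 2 ≤ (5 / 3 * δ) ^ 2 := by
      rw [← sq_abs]; exact pow_le_pow_left₀ (abs_nonneg _) b2 2
    refine ⟨?_, b3, b4, by nlinarith [sq_nonneg δ]⟩
    have hid : (t - a) * (t - b) = X ^ 2 * ((1 + (t - c') / X) ^ 2 - (h / X) ^ 2) := by
      have h1 : X ^ 2 * ((1 + (t - c') / X) ^ 2 - (h / X) ^ 2) = (X + (t - c')) ^ 2 - h ^ 2 := by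
        field_simp
      rw [h1, hXd, hh, hc]
      ring
    have hsq : Real.sqrt ((t - a) * (t - b)) = |X| * Real.sqrt ((1 + (t - c') / X) ^ 2 - (h / X) ^ 2) := by
      rw [hid, Real.sqrt_mul (sq_nonneg X), Real.sqrt_sq_eq_abs]
    unfold qr
    rcases lt_or_gt_of_ne hX0 with hneg | hpos
    · have habs : |X| = -X := abs_of_neg hneg
      have hnb : ¬ b ≤ t := by
        intro hbt
        rw [habs] at hX
        have := (abs_le.1 hw).2
        have h3 : c ≤ b := by rw [hc]; linarith
        have h4 : t = X + c + (t - c') := by rw [hXd]; ring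
        linarith
      rw [if_neg hnb, hsq, habs]
      rw [show -(-X * Real.sqrt ((1 + (t - c') / X) ^ 2 - (h / X) ^ 2)) =
        X * Real.sqrt ((1 + (t - c') / X) ^ 2 - (h / X) ^ 2) by ring]
      rw [mul_one_div, div_mul_eq_div_div, div_self hX0]
    · have habs : |X| = X := abs_of_pos hpos
      have hbt : b ≤ t := by
        rw [habs] at hX
        have := (abs_le.1 hw).1
        have h3 : b = c + h := by rw [hc, hh]; ring
        have h5 := (abs_le.1 hhw).2
        have h4 : t = X + c + (t - c') := by rw [hXd]; ring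
        linarith
      rw [if_pos hbt, hsq, habs]
      rw [mul_one_div, div_mul_eq_div_div, div_self hX0]
  have hw0 : ∀ t ∈ Icc a' b', 0 ≤ 1 / Real.sqrt ((t - a') * (b' - t)) := fun t _ => by positivity
  -- the function
  set F : ℝ → ℝ := fun t => X * ((1 / qr a b t) / Real.sqrt ((t - a') * (b' - t))) with hF
  have hFb : ∀ t ∈ Icc a' b', |F t - (1 / Real.sqrt ((t - a') * (b' - t)) -
      (1 / X) * ((t - c') / Real.sqrt ((t - a') * (b' - t))))| ≤
      18 * δ ^ 2 * (1 / Real.sqrt ((t - a') * (b' - t))) := by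
    intro t ht
    obtain ⟨k1, k2, k3, k4⟩ := key t ht
    obtain ⟨p1, p2⟩ := q11_pt k2 k3
    rw [← k1] at p1 p2
    have h1 : F t - (1 / Real.sqrt ((t - a') * (b' - t)) -
      (1 / X) * ((t - c') / Real.sqrt ((t - a') * (b' - t)))) =
        (X * (1 / qr a b t) - (1 - (t - c') / X)) * (1 / Real.sqrt ((t - a') * (b' - t))) := by
      rw [hF]
      simp only []
      ring
    rw [h1, abs_mul, abs_of_nonneg (hw0 t ht)]
    apply mul_le_mul_of_nonneg_right _ (hw0 t ht)
    rw [abs_le]
    constructor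
    · have := sq_nonneg δ; linarith
    · linarith
  have hqm : Measurable (fun t => qr a b t) := by
    unfold qr
    exact Measurable.ite measurableSet_Ici (by fun_prop) (by fun_prop)
  have hFm : Measurable F := by
    rw [hF]
    have : Measurable (fun t => Real.sqrt ((t - a') * (b' - t))) := by fun_prop
    exact measurable_const.mul ((measurable_const.div hqm).div this)
  have iM : IntervalIntegrable (fun t => 1 / Real.sqrt ((t - a') * (b' - t)) -
      (1 / X) * ((t - c') / Real.sqrt ((t - a') * (b' - t)))) volume a' b' := i1.sub (i2.const_mul _)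
  have iF : IntervalIntegrable F volume a' b' := by
    have h1 : IntervalIntegrable (fun t => F t - (1 / Real.sqrt ((t - a') * (b' - t)) -
      (1 / X) * ((t - c') / Real.sqrt ((t - a') * (b' - t))))) volume a' b' := by
      rw [intervalIntegrable_iff_integrableOn_Icc_of_le hab'.le]
      have h2 := (i1.const_mul (18 * δ ^ 2))
      rw [intervalIntegrable_iff_integrableOn_Icc_of_le hab'.le] at h2
      refine Integrable.mono' h2 ?_ ?_
      · apply Measurable.aestronglyMeasurable
        apply hFm.sub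
        apply Measurable.sub
        · exact measurable_const.div (by fun_prop)
        · exact measurable_const.mul (Measurable.div (by fun_prop) (by fun_prop))
      · rw [ae_restrict_iff' measurableSet_Icc]
        exact Filter.Eventually.of_forall (fun t ht => by simpa using hFb t ht)
    have h3 := h1.add iM
    refine h3.congr ?_
    intro t _
    exact sub_add_cancel (F t) _
  have hMint : ∫ t in a'..b', (1 / Real.sqrt ((t - a') * (b' - t)) -
      (1 / X) * ((t - c') / Real.sqrt ((t - a') * (b' - t)))) = Real.pi := by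
    rw [intervalIntegral.integral_sub i1 (i2.const_mul _), e1, intervalIntegral.integral_const_mul, e2]
    ring
  have hdiff : |(∫ t in a'..b', F t) - Real.pi| ≤ 18 * δ ^ 2 * Real.pi := by
    rw [← hMint, ← intervalIntegral.integral_sub iF iM]
    have h1 := intervalIntegral.abs_integral_le_integral_abs (μ := volume) (f := fun t => F t -
      (1 / Real.sqrt ((t - a') * (b' - t)) -
      (1 / X) * ((t - c') / Real.sqrt ((t - a') * (b' - t))))) hab'.le
    refine h1.trans ?_
    rw [hMint]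
    have h2 : ∫ t in a'..b', |F t - (1 / Real.sqrt ((t - a') * (b' - t)) -
      (1 / X) * ((t - c') / Real.sqrt ((t - a') * (b' - t))))| ≤
        ∫ t in a'..b', 18 * δ ^ 2 * (1 / Real.sqrt ((t - a') * (b' - t))) := by
      apply intervalIntegral.integral_mono_on hab'.le (iF.sub iM).abs (i1.const_mul _)
      intro t ht
      exact hFb t ht
    rw [intervalIntegral.integral_const_mul, e1] at h2
    exact h2
  have hpi := Real.pi_pos
  have hfin : X * ((1 / Real.pi) * ∫ t in a'..b', (1 / qr a b t) / Real.sqrt ((t - a') * (b' - t))) - 1 =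
      (1 / Real.pi) * ((∫ t in a'..b', F t) - Real.pi) := by
    rw [hF, intervalIntegral.integral_const_mul]
    field_simp
  rw [hfin, abs_mul, abs_of_pos (by positivity : 0 < 1 / Real.pi)]
  calc (1 / Real.pi) * |(∫ t in a'..b', F t) - Real.pi| ≤ (1 / Real.pi) * (18 * δ ^ 2 * Real.pi) :=
        mul_le_mul_of_nonneg_left hdiff (by positivity)
    _ = 18 * δ ^ 2 := by field_simp
    _ ≤ 20 * δ ^ 2 := by nlinarith [sq_nonneg δ]

end Pool.Agent.Helper36.CV
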