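import Pool.Agent.Helper45.CV.Q11a
import Pool.Agent.Helper45.CV.Q11b

set_option autoImplicit false

namespace Pool.Agent.Helper36.CV

open Complex Filter Topology MeasureTheory Set

theorem q11_w {w ρ α β : ℝ} (hρ : 0 < ρ) (hw : ρ < w) (ha : |α| ≤ 3 / 5 * ρ) (hb : |β| ≤ 3 / 5 * ρ) :
    w - 3 / 5 * ρ ≤ Real.sqrt ((w + α) * (w + β)) ∧ Real.sqrt ((w + α) * (w + β)) ≤ w + 3 / 5 * ρ := by
  obtain ⟨a1, a2⟩ := abs_le.1 ha
  obtain ⟨b1, b2⟩ := abs_le.1 hb
  constructor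
  · apply Real.le_sqrt_of_sq_le
    rw [sq]
    exact mul_le_mul (by linarith) (by linarith) (by linarith) (by linarith)
  · apply Real.sqrt_le_iff.2
    refine ⟨by linarith, ?_⟩
    rw [sq]
    exact mul_le_mul (by linarith) (by linarith) (by linarith) (by linarith)

/-- the square root far away -/
theorem q11_qf {x ρ a b t : ℝ} (hρ : 0 < ρ) (ha : x - 3 / 5 * ρ ≤ a) (hab : a < b) (hb : b ≤ x + 3 / 5 * ρ)
    (ht : ρ < |t - x|) :
    |t - x| - 3 / 5 * ρ ≤ |qr a b t| ∧ |qr a b t| ≤ |t - x| + 3 / 5 * ρ ∧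
    (0 < t - x → 0 < qr a b t) ∧ (t - x < 0 → qr a b t < 0) := by
  have habs : |qr a b t| = Real.sqrt ((t - a) * (t - b)) := by
    unfold qr
    split_ifs
    · exact abs_of_nonneg (Real.sqrt_nonneg _)
    · rw [abs_neg]; exact abs_of_nonneg (Real.sqrt_nonneg _)
  have hα : |x - a| ≤ 3 / 5 * ρ := by rw [abs_le]; constructor <;> linarith
  have hβ : |x - b| ≤ 3 / 5 * ρ := by rw [abs_le]; constructor <;> linarith
  rcases le_or_gt 0 (t - x) with h | h
  · rw [abs_of_nonneg h] at ht ⊢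
    have h1 := q11_w hρ ht hα hβ
    have h2 : (t - x + (x - a)) * (t - x + (x - b)) = (t - a) * (t - b) := by ring
    rw [h2, ← habs] at h1
    refine ⟨h1.1, h1.2, ?_, fun h3 => absurd h (not_le.2 h3)⟩
    intro _
    unfold qr
    rw [if_pos (by linarith)]
    apply Real.sqrt_pos.2
    exact mul_pos (by linarith) (by linarith)
  · rw [abs_of_neg h] at ht ⊢
    have h1 := q11_w hρ ht (α := a - x) (β := b - x) (by rw [abs_sub_comm]; exact hα)
      (by rw [abs_sub_comm]; exact hβ)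
    have h2 : (-(t - x) + (a - x)) * (-(t - x) + (b - x)) = (t - a) * (t - b) := by ring
    rw [h2, ← habs] at h1
    refine ⟨h1.1, h1.2, fun h3 => absurd h3 (not_lt.2 h.le), ?_⟩
    intro _
    unfold qr
    rw [if_neg (by linarith)]
    have : 0 < (t - a) * (t - b) := mul_pos_of_neg_of_neg (by linarith) (by linarith)
    have := Real.sqrt_pos.2 this
    linarith

/-- product of two square roots far away -/
theorem q11_pf {x ρ a b a' b' t : ℝ} (hρ : 0 < ρ) (ha : x - 3 / 5 * ρ ≤ a) (hab : a < b)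
    (hb : b ≤ x + 3 / 5 * ρ) (ha' : x - 3 / 5 * ρ ≤ a') (hab' : a' < b') (hb' : b' ≤ x + 3 / 5 * ρ)
    (ht : ρ < |t - x|) :
    |1 / (qr a b t * qr a' b' t) - 1 / (t - x) ^ 2| ≤ 10 * ρ / |t - x| ^ 3 := by
  obtain ⟨p1, p2, p3, p4⟩ := q11_qf hρ ha hab hb ht
  obtain ⟨q1, q2, q3, q4⟩ := q11_qf hρ ha' hab' hb' ht
  have hw : 0 < |t - x| := by linarith
  have hP : qr a b t * qr a' b' t = |qr a b t| * |qr a' b' t| := by
    rcases lt_or_gt_of_ne (abs_pos.1 hw) with h | h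
    · rw [abs_of_neg (p4 h), abs_of_neg (q4 h)]; ring
    · rw [abs_of_pos (p3 h), abs_of_pos (q3 h)]
  rw [hP, ← sq_abs (t - x)]
  set w := |t - x| with hwd
  set A := |qr a b t|
  set B := |qr a' b' t|
  have hA : 2 / 5 * w ≤ A := by linarith
  have hB : 2 / 5 * w ≤ B := by linarith
  have h1 : A * B ≤ (w + 3 / 5 * ρ) * (w + 3 / 5 * ρ) := mul_le_mul p2 q2 (by linarith) (by linarith)
  have h2 : (w - 3 / 5 * ρ) * (w - 3 / 5 * ρ) ≤ A * B := mul_le_mul p1 q1 (by linarith) (by linarith)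
  have h3 : (2 / 5 * w) * (2 / 5 * w) ≤ A * B := mul_le_mul hA hB (by positivity) (by linarith)
  have hρw : ρ * ρ ≤ ρ * w := mul_le_mul_of_nonneg_left ht.le hρ.le
  have h4 : |w ^ 2 - A * B| ≤ 39 / 25 * (ρ * w) := by
    rw [abs_le]
    constructor
    · nlinarith
    · nlinarith
  have hAB : 0 < A * B := lt_of_lt_of_le (by positivity) h3
  have h5 : 1 / (A * B) - 1 / w ^ 2 = (w ^ 2 - A * B) / (A * B * w ^ 2) := by
    rw [div_sub_div _ _ hAB.ne' (by positivity), one_mul, mul_one]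
  rw [h5, abs_div, abs_of_pos (mul_pos hAB (by positivity)), div_le_div_iff₀ (mul_pos hAB (by positivity)) (by positivity)]
  calc |w ^ 2 - A * B| * w ^ 3 ≤ (39 / 25 * (ρ * w)) * w ^ 3 := mul_le_mul_of_nonneg_right h4 (by positivity)
    _ ≤ 10 * ρ * ((2 / 5 * w) * (2 / 5 * w) * w ^ 2) := by
        have : 0 ≤ ρ * w ^ 4 := by positivity
        nlinarith
    _ ≤ 10 * ρ * (A * B * w ^ 2) := by
        apply mul_le_mul_of_nonneg_left _ (by positivity)
        exact mul_le_mul_of_nonneg_right h3 (by positivity)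

/-- lower bound of the kernel far away -/
theorem q11_kf {x ρ a b t : ℝ} (hρ : 0 < ρ) (ha : x - 3 / 5 * ρ ≤ a) (hab : a < b)
    (hb : b ≤ x + 3 / 5 * ρ) (ht : ρ < |t - x|) :
    1 / (t - x) ^ 2 - 2 * ρ / |t - x| ^ 3 ≤ 1 / (|qr a b t| * |t - (a + b) / 2|) := by
  obtain ⟨p1, p2, p3, p4⟩ := q11_qf hρ ha hab hb ht
  have hw : 0 < |t - x| := by linarith
  have hc1 : |t - (a + b) / 2| ≤ |t - x| + 3 / 5 * ρ := by
    have h1 : t - (a + b) / 2 = (t - x) + (x - (a + b) / 2) := by ring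
    rw [h1]
    refine (abs_add_le _ _).trans ?_
    have h2 : |x - (a + b) / 2| ≤ 3 / 5 * ρ := by rw [abs_le]; constructor <;> linarith
    linarith
  have hc2 : |t - x| - 3 / 5 * ρ ≤ |t - (a + b) / 2| := by
    have h1 : t - x = (t - (a + b) / 2) + ((a + b) / 2 - x) := by ring
    have h2 : |(a + b) / 2 - x| ≤ 3 / 5 * ρ := by rw [abs_le]; constructor <;> linarith
    have h3 := abs_add_le (t - (a + b) / 2) ((a + b) / 2 - x)
    rw [← h1] at h3
    linarith
  rw [← sq_abs (t - x)]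
  set w := |t - x| with hwd
  set A := |qr a b t|
  set B := |t - (a + b) / 2|
  have hA : 0 < A := by linarith
  have hB : 0 < B := by linarith
  have h1 : A * B ≤ (w + 3 / 5 * ρ) * (w + 3 / 5 * ρ) := mul_le_mul p2 hc1 (by linarith) (by linarith)
  have h5 : 1 / w ^ 2 - 2 * ρ / w ^ 3 = (w - 2 * ρ) / w ^ 3 := by
    field_simp
  rw [h5, div_le_div_iff₀ (by positivity) (mul_pos hA hB)]
  rcases le_or_gt (w - 2 * ρ) 0 with h | h
  · have : (w - 2 * ρ) * (A * B) ≤ 0 := mul_nonpos_of_nonpos_of_nonneg h (by positivity)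
    have h7 : 0 < w ^ 3 := by positivity
    linarith
  · have h6 := mul_le_mul_of_nonneg_left h1 h.le
    have h7 : (w - 2 * ρ) * ((w + 3 / 5 * ρ) * (w + 3 / 5 * ρ)) ≤ w ^ 3 := by
      have e1 : 0 ≤ ρ * w ^ 2 := by positivity
      have e2 : 0 ≤ ρ ^ 2 * w := by positivity
      have e3 : 0 ≤ ρ ^ 3 := by positivity
      nlinarith
    linarith

/-- the product near x -/
theorem q11_pn {ρ a b a' b' t : ℝ} (hρ : 0 < ρ) (hs : b - a ≤ ρ / 20) (hs0 : a < b) (hs' : b' - a' ≤ ρ / 20)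
    (hs0' : a' < b') (hX : 3 / 10 * ρ ≤ |(a' + b') / 2 - (a + b) / 2|) :
    1 / (|qr a b t| * |qr a' b' t|) ≤ 8 / ρ * (1 / |qr a b t| + 1 / |qr a' b' t|) := by
  have key : ∀ a b : ℝ, a < b → b - a ≤ ρ / 20 → 3 / 20 * ρ ≤ |t - (a + b) / 2| → ρ / 8 ≤ |qr a b t| := by
    intro a b h0 h1 h2
    have habs : |qr a b t| = Real.sqrt ((t - a) * (t - b)) := by
      unfold qr
      split_ifs
      · exact abs_of_nonneg (Real.sqrt_nonneg _)
      · rw [abs_neg]; exact abs_of_nonneg (Real.sqrt_nonneg _)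
    rw [habs]
    apply Real.le_sqrt_of_sq_le
    have h3 : (t - a) * (t - b) = |t - (a + b) / 2| ^ 2 - ((b - a) / 2) ^ 2 := by
      rw [sq_abs]; ring
    rw [h3]
    have h4 : (3 / 20 * ρ) ^ 2 ≤ |t - (a + b) / 2| ^ 2 := pow_le_pow_left₀ (by positivity) h2 2
    have h5 : ((b - a) / 2) ^ 2 ≤ (ρ / 40) ^ 2 := pow_le_pow_left₀ (by linarith) (by linarith) 2
    nlinarith
  have hor : 3 / 20 * ρ ≤ |t - (a + b) / 2| ∨ 3 / 20 * ρ ≤ |t - (a' + b') / 2| := by
    by_contra hcon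
    push Not at hcon
    have h1 : (a' + b') / 2 - (a + b) / 2 = (t - (a + b) / 2) - (t - (a' + b') / 2) := by ring
    rw [h1] at hX
    have := abs_sub (t - (a + b) / 2) (t - (a' + b') / 2)
    linarith [hcon.1, hcon.2]
  have hA0 : 0 ≤ 1 / |qr a b t| := by positivity
  have hB0 : 0 ≤ 1 / |qr a' b' t| := by positivity
  rcases hor with h | h
  · have h1 := key a b hs0 hs h
    have h2 : 1 / |qr a b t| ≤ 8 / ρ := by
      rw [div_le_div_iff₀ (by linarith) hρ]; linarith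
    calc 1 / (|qr a b t| * |qr a' b' t|) = 1 / |qr a b t| * (1 / |qr a' b' t|) := by
          rw [div_mul_div_comm, one_mul]
      _ ≤ 8 / ρ * (1 / |qr a' b' t|) := mul_le_mul_of_nonneg_right h2 hB0
      _ ≤ 8 / ρ * (1 / |qr a b t| + 1 / |qr a' b' t|) := by
          apply mul_le_mul_of_nonneg_left _ (by positivity)
          linarith
  · have h1 := key a' b' hs0' hs' h
    have h2 : 1 / |qr a' b' t| ≤ 8 / ρ := by
      rw [div_le_div_iff₀ (by linarith) hρ]; linarith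
    calc 1 / (|qr a b t| * |qr a' b' t|) = 1 / |qr a' b' t| * (1 / |qr a b t|) := by
          rw [div_mul_div_comm, one_mul, mul_comm]
      _ ≤ 8 / ρ * (1 / |qr a b t|) := mul_le_mul_of_nonneg_right h2 hA0
      _ ≤ 8 / ρ * (1 / |qr a b t| + 1 / |qr a' b' t|) := by
          apply mul_le_mul_of_nonneg_left _ (by positivity)
          linarith

theorem q11_qm (a b : ℝ) : Measurable (fun t => qr a b t) := by
  unfold qr
  exact Measurable.ite measurableSet_Ici (by fun_prop) (by fun_prop)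

/-- the powers of ε -/
theorem q11_eps {ε : ℝ} (h0 : 0 < ε) (h1 : ε ≤ 1 / 10 ^ 150) :
    ε ^ (119 / 100 : ℝ) ≤ ε ^ (21 / 20 : ℝ) ∧ (ε ^ (59 / 100 : ℝ)) ^ 2 ≤ ε ^ (21 / 20 : ℝ) ∧
    1000 * ε ^ (21 / 20 : ℝ) ≤ ε ^ (103 / 100 : ℝ) ∧ ε ^ (59 / 100 : ℝ) ≤ 1 / 1000 ∧
    ε ^ (6 / 5 : ℝ) ≤ 1 / 1000 ∧ ε ^ (103 / 100 : ℝ) ≤ 1 / 1000 := by
  have hle1 : ε ≤ 1 := h1.trans (by norm_num)
  have hbase : ε ^ (1 / 50 : ℝ) ≤ 1 / 1000 := by
    have h2 : ε ^ (1 / 50 : ℝ) ≤ (1 / 10 ^ 150 : ℝ) ^ (1 / 50 : ℝ) :=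
      Real.rpow_le_rpow h0.le h1 (by norm_num)
    have h3 : (1 / 10 ^ 150 : ℝ) ^ (1 / 50 : ℝ) = 1 / 1000 := by
      have h4 : (1 / 10 ^ 150 : ℝ) = (1 / 1000 : ℝ) ^ (50 : ℝ) := by
        rw [show (50 : ℝ) = ((50 : ℕ) : ℝ) by norm_num, Real.rpow_natCast]
        norm_num
      rw [h4, ← Real.rpow_mul (by norm_num)]
      norm_num
    rw [h3] at h2
    exact h2
  have hmono : ∀ s t : ℝ, s ≤ t → ε ^ t ≤ ε ^ s := fun s t hst =>
    Real.rpow_le_rpow_of_exponent_ge h0 hle1 hst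
  refine ⟨hmono _ _ (by norm_num), ?_, ?_, ?_, ?_, ?_⟩
  · rw [← Real.rpow_natCast, ← Real.rpow_mul h0.le]
    exact hmono _ _ (by norm_num)
  · have h3 : ε ^ (21 / 20 : ℝ) = ε ^ (103 / 100 : ℝ) * ε ^ (1 / 50 : ℝ) := by
      rw [← Real.rpow_add h0]; norm_num
    rw [h3]
    have h4 : 0 < ε ^ (103 / 100 : ℝ) := Real.rpow_pos_of_pos h0 _
    nlinarith
  · exact (hmono (1 / 50) _ (by norm_num)).trans hbase
  · exact (hmono (1 / 50) _ (by norm_num)).trans hbase
  · exact (hmono (1 / 50) _ (by norm_num)).trans hbase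

theorem st_Q11 (hP1 : ST_P1) (hP2 : ST_P2) (hP3 : ST_P3) (hP4 : ST_P4) (hQ8 : ST_Q8) : ST_Q11 := by
  obtain ⟨ε8, hε8, H8⟩ := hQ8
  refine ⟨4, min ε8 (1 / 10 ^ 150), by norm_num, lt_min hε8 (by norm_num), ?_⟩
  intro ε Hm Hp C cd hPar hε x ρ hρ hReg
  have hε0 : 0 < ε := hPar.1
  have hεa : ε ≤ ε8 := hε.trans (min_le_left _ _)
  have hεb : ε ≤ 1 / 10 ^ 150 := hε.trans (min_le_right _ _)
  obtain ⟨z1, z2, z3, z4, z5, z6⟩ := q11_eps hε0 hεb
  have hle1 : ε ≤ 1 := hεb.trans (by norm_num)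
  obtain ⟨P1a, -, P1c, -, -, -⟩ := hP1 Hm Hp C cd
  obtain ⟨-, -, -, -, P2e, P2f, -⟩ := hP2 Hm Hp C cd hPar.2.1
  have hv : Continuous (vf cd) := by
    have h1 : ContinuousOn (fun z : ℂ => (cd.f z).im) {z | 0 ≤ z.im} :=
      Complex.continuous_im.comp_continuousOn cd.cont
    exact h1.comp_continuous Complex.continuous_ofReal (fun t => by simp)
  have hv0 : ∀ t, 0 ≤ vf cd t := fun t => cd.im_nonneg t
  have hpi := Real.pi_pos
  have hpi3 := Real.pi_gt_three
  set D := ε ^ (-(21 / 20) : ℝ) * ρ with hD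
  have hDρ : ρ ≤ D := by
    rw [hD]
    have h1 : 1 ≤ ε ^ (-(21 / 20) : ℝ) := by
      rw [Real.rpow_neg hε0.le]
      apply (one_le_inv₀ (Real.rpow_pos_of_pos hε0 _)).2
      exact Real.rpow_le_one hε0.le hle1 (by norm_num)
    nlinarith
  have hDd : 1 / D = ε ^ (21 / 20 : ℝ) / ρ := by
    rw [hD, Real.rpow_neg hε0.le]
    have : 0 < ε ^ (21 / 20 : ℝ) := Real.rpow_pos_of_pos hε0 _
    field_simp
  obtain ⟨m1, -, -, -⟩ := H8 ε Hm Hp C cd hPar hεa x ρ ρ D hρ le_rfl hDρ le_rfl hReg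
  obtain ⟨-, -, m3, -⟩ := H8 ε Hm Hp C cd hPar hεa x ρ ρ D hρ le_rfl hDρ le_rfl hReg
  have hJ : 0 < Yf cd x ρ := (P1c x ρ ρ hρ le_rfl).1
  have hm1 : ∫ t in Icc (x - ρ) (x + ρ), vf cd t ≤ 2 * ε ^ (6 / 5 : ℝ) * ρ * Yf cd x ρ := by
    refine m1.trans (le_of_eq ?_)
    rw [div_self hρ.ne', mul_one]
  obtain ⟨i2, i3, hJ2, hT3⟩ := q11_mom (vf cd) hv hv0 x ρ D (Yf cd x ρ) (ε ^ (6 / 5 : ℝ))
    (ε ^ (119 / 100 : ℝ)) (ε ^ (21 / 20 : ℝ)) hρ hDρ hJ (P1a x ρ hρ).1 (P1a x ρ hρ).2 z5 hm1 m3 hDd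
    (Real.rpow_nonneg hε0.le _)
  set P0 := (1 / Real.pi) * ∫ t in (Icc (x - ρ) (x + ρ))ᶜ, vf cd t / (t - x) ^ 2 with hP0
  set T3 := ∫ t in (Icc (x - ρ) (x + ρ))ᶜ, vf cd t / |t - x| ^ 3 with hT3d
  set δ := ε ^ (21 / 20 : ℝ) with hδ
  have hδ0 : 0 < δ := Real.rpow_pos_of_pos hε0 _
  have hP0pos : 0 < P0 := by
    have h1 : 0 < 101 / 100 * ρ * P0 := lt_of_lt_of_le hJ hJ2
    exact (mul_pos_iff_of_pos_left (by positivity)).1 h1
  have hT30 : 0 ≤ T3 := setIntegral_nonneg measurableSet_Icc.compl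
    (fun t _ => div_nonneg (hv0 t) (by positivity))
  have hT3b : ρ * T3 ≤ 6 * δ * P0 := by
    refine hT3.trans ?_
    apply mul_le_mul_of_nonneg_right _ hP0pos.le
    linarith
  have hfm : MeasurableSet ((Icc (x - ρ) (x + ρ))ᶜ) := measurableSet_Icc.compl
  refine ⟨P0, hP0pos, ?_⟩
  intro V hVa hVb hVs
  have hVlt := V.lt
  constructor
  · -- the slope
    have hcin : V.c ∈ Ioo V.a V.b := by
      unfold Gap.c; constructor <;> linarith
    obtain ⟨k1, -, -⟩ := (hP3 Hm Hp C cd V.a V.b V.N hVlt V.lab).1 V.c hcin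
    have h1 : ∫ t in (Icc (x - ρ) (x + ρ))ᶜ, (vf cd t / (t - x) ^ 2 - 2 * ρ * (vf cd t / |t - x| ^ 3)) ≤
        ∫ t in (Icc (x - ρ) (x + ρ))ᶜ, vf cd t / (|qr V.a V.b t| * |t - V.c|) := by
      apply setIntegral_mono_on (i2.sub (i3.const_mul _)) k1.integrableOn hfm
      intro t ht
      have h2 := q11_kf hρ hVa hVlt hVb (q11_far ht)
      have h3 := mul_le_mul_of_nonneg_left h2 (hv0 t)
      calc vf cd t / (t - x) ^ 2 - 2 * ρ * (vf cd t / |t - x| ^ 3)
          = vf cd t * (1 / (t - x) ^ 2 - 2 * ρ / |t - x| ^ 3) := by ring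
        _ ≤ vf cd t * (1 / (|qr V.a V.b t| * |t - (V.a + V.b) / 2|)) := h3
        _ = vf cd t / (|qr V.a V.b t| * |t - V.c|) := by
            unfold Gap.c
            ring
    have h2 : ∫ t in (Icc (x - ρ) (x + ρ))ᶜ, vf cd t / (|qr V.a V.b t| * |t - V.c|) ≤
        ∫ t : ℝ, vf cd t / (|qr V.a V.b t| * |t - V.c|) := by
      apply setIntegral_le_integral k1
      exact Filter.Eventually.of_forall (fun t => div_nonneg (hv0 t) (by positivity))
    rw [integral_sub i2 (i3.const_mul _), integral_const_mul] at h1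
    have h3 : P0 - (1 / Real.pi) * (2 * ρ * T3) ≤ V.kk := by
      have h4 : V.kk = (1 / Real.pi) * ∫ t : ℝ, vf cd t / (|qr V.a V.b t| * |t - V.c|) := rfl
      rw [h4, hP0, ← mul_sub]
      apply mul_le_mul_of_nonneg_left _ (by positivity)
      exact h1.trans h2
    have h5 : (1 / Real.pi) * (2 * ρ * T3) ≤ ρ * T3 := by
      have h6 : (1 / Real.pi) * (2 * ρ * T3) = (2 / Real.pi) * (ρ * T3) := by ring
      rw [h6]
      apply mul_le_of_le_one_left (by positivity)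
      rw [div_le_one hpi]
      linarith
    have h7 : 6 * δ * P0 ≤ ε ^ (103 / 100 : ℝ) * P0 := by
      apply mul_le_mul_of_nonneg_right _ hP0pos.le
      linarith
    have h8 : P0 * (1 - ε ^ (103 / 100 : ℝ)) = P0 - ε ^ (103 / 100 : ℝ) * P0 := by ring
    rw [h8]
    linarith
  · intro W hWa hWb hWs hX
    have hWlt := W.lt
    have hne : V ≠ W := by
      intro h
      rw [h, sub_self, abs_zero] at hX
      linarith
    have hord : V.b < W.a ∨ W.b < V.a := by
      rcases lt_trichotomy V.a W.a with h | h | h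
      · exact Or.inl (P2e V W h).1
      · exact absurd (P2f V W h) hne
      · exact Or.inr (P2e W V h).1
    obtain ⟨jI, jE⟩ := hP4 Hm Hp C cd V W hne hord
    have hVs' : V.b - V.a ≤ ε ^ (59 / 100 : ℝ) * ρ := hVs
    have hWs' : W.b - W.a ≤ ε ^ (59 / 100 : ℝ) * ρ := hWs
    have hX' : 3 / 10 * ρ ≤ |(W.a + W.b) / 2 - (V.a + V.b) / 2| := by
      rw [abs_sub_comm]; exact hX
    have hav := q11_av hVlt hWlt (ε ^ (59 / 100 : ℝ)) ρ hρ (by linarith) hVs' hWs' hX'
    have hA0 : W.av (fun t => 1 / V.q t) = (1 / Real.pi) * ∫ t in W.a..W.b,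
        (1 / qr V.a V.b t) / Real.sqrt ((t - W.a) * (W.b - t)) := rfl
    rw [← hA0] at hav
    set A0 := W.av (fun t => 1 / V.q t) with hA0d
    have hDc : (W.a + W.b) / 2 - (V.a + V.b) / 2 = W.c - V.c := rfl
    rw [hDc] at hav hX'
    set Δ := W.c - V.c with hΔ
    have hΔb : |Δ| ≤ 6 / 5 * ρ := by
      rw [hΔ]; unfold Gap.c
      rw [abs_le]; constructor <;> linarith
    -- near integrals
    have hnear : ∀ U : Gap cd, x - 3 / 5 * ρ ≤ U.a → U.b ≤ x + 3 / 5 * ρ →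
        IntegrableOn (fun t => vf cd t / |U.q t|) (Icc (x - ρ) (x + ρ)) := by
      intro U hUa hUb
      have hUlt := U.lt
      have hcin : U.c ∈ Ioo U.a U.b := by
        unfold Gap.c; constructor <;> linarith
      obtain ⟨k1, -, -⟩ := (hP3 Hm Hp C cd U.a U.b U.N hUlt U.lab).1 U.c hcin
      apply q11_mono measurableSet_Icc (g := fun t => (2 * ρ) * (vf cd t / (|qr U.a U.b t| * |t - U.c|)))
      · have := q11_qm U.a U.b
        exact hv.measurable.div (measurable_abs.comp this)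
      · exact (k1.const_mul _).integrableOn
      · intro t ht
        have hUq : U.q t = qr U.a U.b t := rfl
        rw [hUq, abs_of_nonneg (div_nonneg (hv0 t) (abs_nonneg _))]
        by_cases hq : qr U.a U.b t = 0
        · rw [hq]; simp
        · have htc : t ≠ U.c := by
            intro h
            apply hq
            rw [h]
            unfold qr Gap.c
            have h5 : ((U.a + U.b) / 2 - U.a) * ((U.a + U.b) / 2 - U.b) ≤ 0 :=
              mul_nonpos_of_nonneg_of_nonpos (by linarith) (by linarith)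
            rw [Real.sqrt_eq_zero_of_nonpos h5]
            simp
          have h6 : 0 < |t - U.c| := abs_pos.2 (sub_ne_zero.2 htc)
          have h7 : |t - U.c| ≤ 2 * ρ := by
            unfold Gap.c
            rw [abs_le]
            constructor
            · linarith [ht.1]
            · linarith [ht.2]
          have h8 : 0 < |qr U.a U.b t| := abs_pos.2 hq
          have h9 : vf cd t / |qr U.a U.b t| = |t - U.c| * (vf cd t / (|qr U.a U.b t| * |t - U.c|)) := by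
            field_simp
          rw [h9]
          exact mul_le_mul_of_nonneg_right h7 (div_nonneg (hv0 t) (by positivity))
    have iV := hnear V hVa hVb
    have iW := hnear W hWa hWb
    set n := nn x ρ V + nn x ρ W with hn
    have hn0 : 0 ≤ n := by
      apply add_nonneg
      · exact setIntegral_nonneg measurableSet_Icc (fun t _ => div_nonneg (hv0 t) (abs_nonneg _))
      · exact setIntegral_nonneg measurableSet_Icc (fun t _ => div_nonneg (hv0 t) (abs_nonneg _))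
    have e1 : |∫ t in Icc (x - ρ) (x + ρ), vf cd t / (V.q t * W.q t)| ≤ 8 / ρ * n := by
      refine (abs_integral_le_integral_abs).trans ?_
      have h1 : ∫ t in Icc (x - ρ) (x + ρ), |vf cd t / (V.q t * W.q t)| ≤
          ∫ t in Icc (x - ρ) (x + ρ), 8 / ρ * (vf cd t / |V.q t| + vf cd t / |W.q t|) := by
        apply setIntegral_mono_on jI.integrableOn.abs ((iV.add iW).const_mul _) measurableSet_Icc
        intro t _
        have h2 := q11_pn (t := t) hρ (hVs'.trans (by nlinarith)) hVlt (hWs'.trans (by nlinarith)) hWlt hX'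
        have h3 := mul_le_mul_of_nonneg_left h2 (hv0 t)
        have h4 : |vf cd t / (V.q t * W.q t)| = vf cd t * (1 / (|qr V.a V.b t| * |qr W.a W.b t|)) := by
          rw [abs_div, abs_mul, abs_of_nonneg (hv0 t), mul_one_div]
          rfl
        rw [h4]
        refine h3.trans (le_of_eq ?_)
        have hq1 : V.q t = qr V.a V.b t := rfl
        have hq2 : W.q t = qr W.a W.b t := rfl
        simp only [Pi.add_apply, hq1, hq2]
        ring
      rw [integral_const_mul, integral_add iV iW] at h1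
      exact h1
    have e2 : |(∫ t in (Icc (x - ρ) (x + ρ))ᶜ, vf cd t / (V.q t * W.q t)) - Real.pi * P0| ≤ 10 * ρ * T3 := by
      have h0 : Real.pi * P0 = ∫ t in (Icc (x - ρ) (x + ρ))ᶜ, vf cd t / (t - x) ^ 2 := by
        rw [hP0, ← mul_assoc, mul_one_div_cancel hpi.ne', one_mul]
      rw [h0, ← integral_sub jI.integrableOn i2]
      refine (abs_integral_le_integral_abs).trans ?_
      have h1 : ∫ t in (Icc (x - ρ) (x + ρ))ᶜ, |vf cd t / (V.q t * W.q t) - vf cd t / (t - x) ^ 2| ≤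
          ∫ t in (Icc (x - ρ) (x + ρ))ᶜ, 10 * ρ * (vf cd t / |t - x| ^ 3) := by
        apply setIntegral_mono_on (jI.integrableOn.sub i2).abs (i3.const_mul _) hfm
        intro t ht
        have h2 := q11_pf hρ hVa hVlt hVb hWa hWlt hWb (q11_far ht)
        have h3 := mul_le_mul_of_nonneg_left h2 (hv0 t)
        have h4 : vf cd t / (V.q t * W.q t) - vf cd t / (t - x) ^ 2 =
            vf cd t * (1 / (qr V.a V.b t * qr W.a W.b t) - 1 / (t - x) ^ 2) := by
          have hq1 : V.q t = qr V.a V.b t := rfl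
          have hq2 : W.q t = qr W.a W.b t := rfl
          rw [hq1, hq2]
          ring
        simp only [Pi.sub_apply]
        rw [h4, abs_mul, abs_of_nonneg (hv0 t)]
        refine h3.trans (le_of_eq ?_)
        ring
      rw [integral_const_mul] at h1
      exact h1
    have e3 : ∫ t : ℝ, vf cd t / (V.q t * W.q t) = (∫ t in Icc (x - ρ) (x + ρ), vf cd t / (V.q t * W.q t)) +
        ∫ t in (Icc (x - ρ) (x + ρ))ᶜ, vf cd t / (V.q t * W.q t) :=
      (integral_add_compl measurableSet_Icc jI).symm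
    set dN := W.N - V.N with hdN
    have e4 : |dN * A0 - P0| ≤ 8 / 3 * n / ρ + 10 / 3 * (ρ * T3) := by
      have h1 : dN * A0 - P0 = (1 / Real.pi) * ((∫ t in Icc (x - ρ) (x + ρ), vf cd t / (V.q t * W.q t)) +
          ((∫ t in (Icc (x - ρ) (x + ρ))ᶜ, vf cd t / (V.q t * W.q t)) - Real.pi * P0)) := by
        rw [jE, e3]
        have : (1 / Real.pi) * (Real.pi * P0) = P0 := by
          rw [← mul_assoc, one_div_mul_cancel hpi.ne', one_mul]
        rw [mul_add, mul_add, mul_sub, this]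
        ring
      rw [h1, abs_mul, abs_of_pos (by positivity : 0 < 1 / Real.pi)]
      have h2 := (abs_add_le (∫ t in Icc (x - ρ) (x + ρ), vf cd t / (V.q t * W.q t))
          ((∫ t in (Icc (x - ρ) (x + ρ))ᶜ, vf cd t / (V.q t * W.q t)) - Real.pi * P0)).trans (add_le_add e1 e2)
      have h3 : 1 / Real.pi ≤ 1 / 3 := one_div_le_one_div_of_le (by norm_num) hpi3.le
      calc (1 / Real.pi) * |(∫ t in Icc (x - ρ) (x + ρ), vf cd t / (V.q t * W.q t)) +
          ((∫ t in (Icc (x - ρ) (x + ρ))ᶜ, vf cd t / (V.q t * W.q t)) - Real.pi * P0)|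
          ≤ (1 / 3) * (8 / ρ * n + 10 * ρ * T3) := by
            apply mul_le_mul h3 h2 (abs_nonneg _) (by norm_num)
        _ = 8 / 3 * n / ρ + 10 / 3 * (ρ * T3) := by ring
    -- final combination
    set e := Δ * A0 - 1 with he
    have heb : |e| ≤ 20 * δ := by
      refine hav.trans ?_
      linarith
    have hδs : δ ≤ 1 / 1000000 := by linarith
    have h5 : |dN * (1 + e) - Δ * P0| ≤ 6 / 5 * ρ * (8 / 3 * n / ρ + 10 / 3 * (ρ * T3)) := by
      have h6 : dN * (1 + e) - Δ * P0 = Δ * (dN * A0 - P0) := by rw [he]; ring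
      rw [h6, abs_mul]
      exact mul_le_mul hΔb e4 (abs_nonneg _) (by positivity)
    have h6 : 6 / 5 * ρ * (8 / 3 * n / ρ + 10 / 3 * (ρ * T3)) ≤ 16 / 5 * n + 24 * δ * (ρ * P0) := by
      have h7 : 6 / 5 * ρ * (8 / 3 * n / ρ + 10 / 3 * (ρ * T3)) = 16 / 5 * n + 4 * ρ * (ρ * T3) := by
        field_simp
        ring
      rw [h7]
      have := mul_le_mul_of_nonneg_left hT3b (by positivity : 0 ≤ 4 * ρ)
      linarith
    have h7 : |Δ * P0| ≤ 6 / 5 * (ρ * P0) := by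
      rw [abs_mul, abs_of_pos hP0pos]
      have := mul_le_mul_of_nonneg_right hΔb hP0pos.le
      linarith
    have hρP : 0 < ρ * P0 := mul_pos hρ hP0pos
    have h8 : |dN * (1 + e)| ≤ 16 / 5 * n + 2 * (ρ * P0) := by
      have h9 := abs_sub_abs_le_abs_sub (dN * (1 + e)) (Δ * P0)
      have h10 : 24 * δ * (ρ * P0) ≤ 4 / 5 * (ρ * P0) := mul_le_mul_of_nonneg_right (by linarith) hρP.le
      linarith
    have he2 : 1 / 2 ≤ 1 + e := by
      have := (abs_le.1 heb).1
      linarith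
    have h9 : |dN| ≤ 2 * (16 / 5 * n + 2 * (ρ * P0)) := by
      rw [abs_mul, abs_of_pos (by linarith : 0 < 1 + e)] at h8
      have := mul_le_mul_of_nonneg_left he2 (abs_nonneg dN)
      linarith
    have h10 : |dN * e| ≤ 128 * δ * n + 80 * δ * (ρ * P0) := by
      rw [abs_mul]
      calc |dN| * |e| ≤ (2 * (16 / 5 * n + 2 * (ρ * P0))) * (20 * δ) :=
            mul_le_mul h9 heb (abs_nonneg _) (by positivity)
        _ = 128 * δ * n + 80 * δ * (ρ * P0) := by ring
    have h11 : dN - Δ * P0 = (dN * (1 + e) - Δ * P0) - dN * e := by ring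
    have h12 : |dN - P0 * Δ| ≤ |dN * (1 + e) - Δ * P0| + |dN * e| := by
      rw [mul_comm P0 Δ, h11]
      exact abs_sub _ _
    have h13 : 104 * δ * (ρ * P0) ≤ ε ^ (103 / 100 : ℝ) * P0 * ρ := by
      have : ε ^ (103 / 100 : ℝ) * P0 * ρ = ε ^ (103 / 100 : ℝ) * (ρ * P0) := by ring
      rw [this]
      exact mul_le_mul_of_nonneg_right (by linarith) hρP.le
    have h14 : 128 * δ * n ≤ 4 / 5 * n := mul_le_mul_of_nonneg_right (by linarith) hn0
    have h15 : 24 * δ * (ρ * P0) + 80 * δ * (ρ * P0) = 104 * δ * (ρ * P0) := by ring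
    linarith

end Pool.Agent.Helper36.CV
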