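import Pool.Agent.Helper36.CV.StmtsW

/-! CV, module T8: escape -/

set_option autoImplicit false

namespace Pool.Agent.Helper36.CV

theorem t8_rec (l E : ℝ) (n : ℕ) :
    X l (n + 3) E = 2 * X l (n + 2) E * X l (n + 1) E - X l n E := rfl

/-- the previous trace is controlled -/
theorem t8_prev (l E : ℝ) : ∀ k : ℕ, 1 ≤ |X l (k + 1) E| → 1 ≤ |X l (k + 2) E| →
    |X l k E| ≤ |X l (k + 1) E| * |X l (k + 2) E| := by
  intro k
  induction k with
  | zero =>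
    intro h1 h2
    have : X l 0 E = 1 := rfl
    rw [this, abs_one]
    nlinarith
  | succ k ih =>
    intro h1 h2
    have h1' : 1 ≤ |X l (k + 2) E| := h1
    have h2' : 1 ≤ |X l (k + 3) E| := h2
    show |X l (k + 1) E| ≤ |X l (k + 2) E| * |X l (k + 3) E|
    by_cases h0 : 1 ≤ |X l (k + 1) E|
    · have h3 := ih h0 h1'
      have h4 : |X l (k + 1) E| * |X l (k + 2) E| ≤ |X l (k + 3) E| := by
        rw [t8_rec]
        have a1 := abs_sub_abs_le_abs_sub (2 * X l (k + 2) E * X l (k + 1) E) (X l k E)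
        rw [abs_mul, abs_mul, abs_two] at a1
        nlinarith
      have h5 : 0 ≤ |X l (k + 1) E| := abs_nonneg _
      nlinarith [mul_le_mul_of_nonneg_left h4 (abs_nonneg (X l (k + 2) E)),
        mul_nonneg h5 (by linarith : (0 : ℝ) ≤ |X l (k + 2) E| - 1)]
    · have h0' := (not_le.mp h0).le
      nlinarith

theorem t8_step (hT1 : ST_T1) (l E : ℝ) (k : ℕ) (h1 : 1 ≤ |X l (k + 1) E|)
    (h2 : 1 ≤ |X l (k + 2) E|) :
    |X l (k + 3) E| = |X l (k + 1) E| * |X l (k + 2) E| +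
      Real.sqrt ((X l (k + 1) E ^ 2 - 1) * (X l (k + 2) E ^ 2 - 1) + l ^ 2 / 4) := by
  have hp := t8_prev l E k h1 h2
  have hI := (hT1 l E (k + 1)).1
  rw [show k + 1 + 2 = k + 3 from rfl, show k + 1 + 1 = k + 2 from rfl] at hI
  have hsq : (X l (k + 3) E - X l (k + 1) E * X l (k + 2) E) ^ 2 =
      (X l (k + 1) E ^ 2 - 1) * (X l (k + 2) E ^ 2 - 1) + l ^ 2 / 4 := by
    linear_combination hI
  rw [← hsq, Real.sqrt_sq_eq_abs]
  have hr := t8_rec l E k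
  set P := X l (k + 1) E * X l (k + 2) E with hP
  have hPa : |P| = |X l (k + 1) E| * |X l (k + 2) E| := abs_mul _ _
  rw [← hPa] at hp ⊢
  have hr2 : X l (k + 3) E = 2 * P - X l k E := by rw [hr, hP]; ring
  have hp2 := abs_le.mp hp
  rcases le_total 0 P with h | h
  · rw [abs_of_nonneg h] at hp2 ⊢
    rw [abs_of_nonneg (by linarith : 0 ≤ X l (k + 3) E - P),
      abs_of_nonneg (by linarith : 0 ≤ X l (k + 3) E)]
    ring
  · rw [abs_of_nonpos h] at hp2 ⊢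
    rw [abs_of_nonpos (by linarith : X l (k + 3) E - P ≤ 0),
      abs_of_nonpos (by linarith : X l (k + 3) E ≤ 0)]
    ring

theorem t8_sq {x : ℝ} (h : 1 ≤ |x|) : 0 ≤ x ^ 2 - 1 := by
  have : 1 ≤ |x| ^ 2 := by nlinarith
  rw [sq_abs] at this
  linarith

theorem t8_three (hT1 : ST_T1) (l E : ℝ) (k : ℕ) (h1 : 1 ≤ |X l (k + 1) E|)
    (h2 : 1 ≤ |X l (k + 2) E|) :
    1 + |l| / 2 ≤ |X l (k + 3) E| ∧ tau l (k + 2) E + tau l (k + 1) E ≤ tau l (k + 3) E := by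
  have h := t8_step hT1 l E k h1 h2
  have hA := t8_sq h1
  have hB := t8_sq h2
  have hAB : 0 ≤ (X l (k + 1) E ^ 2 - 1) * (X l (k + 2) E ^ 2 - 1) := mul_nonneg hA hB
  have hl : |l| / 2 ≤ Real.sqrt ((X l (k + 1) E ^ 2 - 1) * (X l (k + 2) E ^ 2 - 1) + l ^ 2 / 4) := by
    apply Real.le_sqrt_of_sq_le
    rw [div_pow, sq_abs]
    linarith
  have hprod : 1 ≤ |X l (k + 1) E| * |X l (k + 2) E| := by nlinarith
  have h3 : 1 + |l| / 2 ≤ |X l (k + 3) E| := by linarith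
  refine ⟨h3, ?_⟩
  have h3' : 1 ≤ |X l (k + 3) E| := by
    have : 0 ≤ |l| := abs_nonneg l
    linarith
  unfold tau
  rw [max_eq_right h1, max_eq_right h2, max_eq_right h3']
  set u := Real.arcosh |X l (k + 1) E| with hu
  set v := Real.arcosh |X l (k + 2) E| with hv
  have hu0 : 0 ≤ u := Real.arcosh_nonneg h1
  have hv0 : 0 ≤ v := Real.arcosh_nonneg h2
  rw [← Real.arcosh_cosh (by linarith : 0 ≤ v + u)]
  rw [Real.arcosh_le_arcosh (Real.cosh_pos _) (by linarith)]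
  rw [Real.cosh_add, hu, hv, Real.cosh_arcosh h1, Real.cosh_arcosh h2, Real.sinh_arcosh h1,
    Real.sinh_arcosh h2, sq_abs, sq_abs, ← Real.sqrt_mul hB, h]
  have h4 : Real.sqrt ((X l (k + 2) E ^ 2 - 1) * (X l (k + 1) E ^ 2 - 1)) ≤
      Real.sqrt ((X l (k + 1) E ^ 2 - 1) * (X l (k + 2) E ^ 2 - 1) + l ^ 2 / 4) := by
    apply Real.sqrt_le_sqrt
    have : 0 ≤ l ^ 2 := sq_nonneg l
    linarith
  linarith

theorem st_T8 (hT1 : ST_T1) (hT7 : ST_T7) : ST_T8 := by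
  intro l hl0 hl1 n E hn h1 h2
  obtain ⟨n, rfl⟩ : ∃ j, n = j + 1 := ⟨n - 1, by omega⟩
  have hlp : 0 ≤ |l| := abs_nonneg l
  have key : ∀ d : ℕ, 1 ≤ |X l (n + 1 + d) E| ∧ 1 ≤ |X l (n + 1 + d + 1) E| := by
    intro d
    induction d with
    | zero => exact ⟨h1, h2⟩
    | succ d ih =>
      refine ⟨ih.2, ?_⟩
      have a1 : 1 ≤ |X l (n + d + 1) E| := by
        rw [show n + d + 1 = n + 1 + d by ring]; exact ih.1
      have a2 : 1 ≤ |X l (n + d + 2) E| := by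
        rw [show n + d + 2 = n + 1 + d + 1 by ring]; exact ih.2
      have := (t8_three hT1 l E (n + d) a1 a2).1
      rw [show n + 1 + (d + 1) + 1 = n + d + 3 by ring]
      linarith
  intro m hm
  obtain ⟨d, rfl⟩ : ∃ d, m = n + 1 + d := ⟨m - (n + 1), by omega⟩
  obtain ⟨b1, b2⟩ := key d
  have a1 : 1 ≤ |X l (n + d + 1) E| := by
    rw [show n + d + 1 = n + 1 + d by ring]; exact b1
  have a2 : 1 ≤ |X l (n + d + 2) E| := by
    rw [show n + d + 2 = n + 1 + d + 1 by ring]; exact b2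
  have h3 := t8_three hT1 l E (n + d) a1 a2
  rw [show n + d + 1 = n + 1 + d by ring, show n + d + 2 = n + 1 + d + 1 by ring,
    show n + d + 3 = n + 1 + d + 2 by ring] at h3
  exact ⟨b1, hT7 l hl0 hl1 (n + 1 + d) E b1 b2 (by linarith [h3.1]), h3.2, h3.1⟩

end Pool.Agent.Helper36.CV

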