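import Pool.Agent.Helper36.CV.StmtsE
import Pool.Agent.Helper45.CV.Q11

set_option autoImplicit false

namespace Pool.Agent.Helper36.CV

open Complex Filter Topology MeasureTheory Set

/-- countable subadditivity for nonnegative functions -/
theorem e6_sum {f : ℝ → ℝ} (h0 : ∀ t, 0 ≤ f t) (hf : Measurable f) {S : Set ℝ} {T : ℕ → Set ℝ}
    (hS : S ⊆ ⋃ k, T k) (hT : ∀ k, IntegrableOn f (T k)) {B : ℕ → ℝ} {b : ℝ}
    (hB : ∀ k, ∫ t in T k, f t ≤ B k) (hsum : Summable B) (hb : ∑' k, B k ≤ b) :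
    IntegrableOn f S ∧ ∫ t in S, f t ≤ b := by
  have hB0 : ∀ k, 0 ≤ B k := fun k =>
    le_trans (integral_nonneg (fun t => h0 t)) (hB k)
  have h1 : ∫⁻ t in S, ENNReal.ofReal (f t) ≤ ENNReal.ofReal b := by
    calc ∫⁻ t in S, ENNReal.ofReal (f t) ≤ ∫⁻ t in ⋃ k, T k, ENNReal.ofReal (f t) :=
          lintegral_mono_set hS
      _ ≤ ∑' k, ∫⁻ t in T k, ENNReal.ofReal (f t) := lintegral_iUnion_le _ _
      _ ≤ ∑' k, ENNReal.ofReal (B k) := by
          apply ENNReal.tsum_le_tsum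
          intro k
          rw [← ofReal_integral_eq_lintegral_ofReal (hT k) (Filter.Eventually.of_forall h0)]
          exact ENNReal.ofReal_le_ofReal (hB k)
      _ = ENNReal.ofReal (∑' k, B k) := (ENNReal.ofReal_tsum_of_nonneg hB0 hsum).symm
      _ ≤ ENNReal.ofReal b := ENNReal.ofReal_le_ofReal hb
  have hb0 : 0 ≤ b := le_trans (tsum_nonneg hB0) hb
  constructor
  · refine ⟨hf.aestronglyMeasurable, ?_⟩
    rw [hasFiniteIntegral_iff_ofReal (Filter.Eventually.of_forall h0)]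
    exact lt_of_le_of_lt h1 ENNReal.ofReal_lt_top
  · rw [integral_eq_lintegral_of_nonneg_ae (Filter.Eventually.of_forall h0) hf.aestronglyMeasurable]
    exact ENNReal.toReal_le_of_le_ofReal hb0 h1

theorem e6_fin {f : ℝ → ℝ} (h0 : ∀ t, 0 ≤ f t) (hf : Measurable f) {S : Set ℝ} {T : ℕ → Set ℝ} (J : ℕ)
    (hS : ∀ t ∈ S, ∃ k < J, t ∈ T k) (hT : ∀ k, IntegrableOn f (T k)) {B : ℝ}
    (hB : ∀ k, ∫ t in T k, f t ≤ B) :
    IntegrableOn f S ∧ ∫ t in S, f t ≤ (J : ℝ) * B := by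
  have hB0 : 0 ≤ B := le_trans (integral_nonneg (fun t => h0 t)) (hB 0)
  have h1 : HasSum (fun k : ℕ => if k < J then B else 0) ((J : ℝ) * B) := by
    have h2 : HasSum (fun k : ℕ => if k < J then B else 0)
        (∑ k ∈ Finset.range J, (if k < J then B else 0)) := hasSum_sum_of_ne_finset_zero (by
        intro k hk
        rw [Finset.mem_range] at hk
        simp [hk])
    have h3 : ∑ k ∈ Finset.range J, (if k < J then B else 0) = (J : ℝ) * B := by
      rw [Finset.sum_congr rfl (g := fun _ => B) (fun k hk => if_pos (Finset.mem_range.1 hk))]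
      simp
    rw [h3] at h2
    exact h2
  refine e6_sum h0 hf (T := fun k => if k < J then T k else ∅) (B := fun k => if k < J then B else 0)
    ?_ ?_ ?_ ?_ ?_
  · intro t ht
    obtain ⟨k, hk, hkt⟩ := hS t ht
    rw [Set.mem_iUnion]
    exact ⟨k, by simpa [hk] using hkt⟩
  · intro k
    by_cases hk : k < J
    · simpa [hk] using hT k
    · simp [hk]
  · intro k
    by_cases hk : k < J
    · simpa [hk] using hB k
    · simp [hk]
  · exact h1.summable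
  · exact h1.tsum_eq.le

/-- covering by triadic shells -/
theorem e6_cov {s x : ℝ} (hs : 0 < s) (hx : 0 < x) (hx2 : x ≤ 3 * s / 2) :
    ∃ k : ℕ, s / 3 ^ k / 2 ≤ x ∧ x ≤ 3 * (s / 3 ^ k) / 2 := by
  have hex : ∃ k : ℕ, s / 3 ^ k / 2 ≤ x := by
    obtain ⟨k, hk⟩ := pow_unbounded_of_one_lt (s / x) (by norm_num : (1 : ℝ) < 3)
    refine ⟨k, ?_⟩
    rw [div_lt_iff₀ hx] at hk
    rw [div_div, div_le_iff₀ (by positivity)]
    nlinarith [pow_pos (by norm_num : (0 : ℝ) < 3) k]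
  classical
  refine ⟨Nat.find hex, Nat.find_spec hex, ?_⟩
  rcases Nat.eq_zero_or_pos (Nat.find hex) with h | h
  · rw [h]; simpa using hx2
  · have h1 := Nat.find_min hex (Nat.sub_lt h one_pos)
    have h2 : Nat.find hex = (Nat.find hex - 1) + 1 := by omega
    rw [h2, pow_succ]
    have h3 : 3 * (s / (3 ^ (Nat.find hex - 1) * 3)) / 2 = s / 3 ^ (Nat.find hex - 1) / 2 := by
      generalize Nat.find hex - 1 = m
      field_simp
    rw [h3]
    exact (not_le.1 h1).le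

theorem e6_pow (k : ℕ) : Real.sqrt (2 * 3 ^ k) ≤ 3 / 2 * (7 / 4) ^ k := by
  apply Real.sqrt_le_iff.2
  refine ⟨by positivity, ?_⟩
  rw [mul_pow, ← pow_mul, mul_comm k 2, pow_mul]
  have h1 : (3 : ℝ) ^ k ≤ ((7 / 4 : ℝ) ^ 2) ^ k := pow_le_pow_left₀ (by norm_num) (by norm_num) k
  have h2 : (0 : ℝ) < 3 ^ k := by positivity
  nlinarith

/-- the sum over the shells next to an edge -/
theorem e6_near (W ρ : ℝ → ℝ) (hW : Measurable W) (hW0 : ∀ t, 0 ≤ W t) (hρ : Measurable ρ) (s Bq : ℝ)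
    (hs : 0 < s) (S : Set ℝ) (T : ℕ → Set ℝ) (hTm : ∀ k, MeasurableSet (T k))
    (hS : S ⊆ ⋃ k, T k) (hTρ : ∀ k, ∀ t ∈ T k, s / 3 ^ k / 2 ≤ ρ t)
    (hTi : ∀ k, IntegrableOn W (T k))
    (hTB : ∀ k, ∫ t in T k, W t ≤ Bq * (s / 3 ^ k) * (2 * (3 / 2) ^ k)) :
    IntegrableOn (fun t => W t * Real.sqrt (s / ρ t)) S ∧
    ∫ t in S, W t * Real.sqrt (s / ρ t) ≤ 24 * Bq * s := by
  have hb : ∀ k, ∀ t ∈ T k, Real.sqrt (s / ρ t) ≤ 3 / 2 * (7 / 4) ^ k := by
    intro k t ht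
    refine le_trans (Real.sqrt_le_sqrt ?_) (e6_pow k)
    have h1 := hTρ k t ht
    have h2 : 0 < s / 3 ^ k / 2 := by positivity
    rw [div_le_iff₀ (lt_of_lt_of_le h2 h1)]
    have h3 : s = 2 * 3 ^ k * (s / 3 ^ k / 2) := by field_simp
    calc s = 2 * 3 ^ k * (s / 3 ^ k / 2) := h3
      _ ≤ 2 * 3 ^ k * ρ t := mul_le_mul_of_nonneg_left h1 (by positivity)
  have hm : Measurable (fun t => W t * Real.sqrt (s / ρ t)) :=
    hW.mul ((measurable_const.div hρ).sqrt)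
  have hgs : HasSum (fun k : ℕ => 3 * Bq * s * (7 / 8 : ℝ) ^ k) (3 * Bq * s * (1 - 7 / 8)⁻¹) :=
    (hasSum_geometric_of_lt_one (by norm_num) (by norm_num)).mul_left _
  refine e6_sum (fun t => mul_nonneg (hW0 t) (Real.sqrt_nonneg _)) hm hS
    (B := fun k => 3 * Bq * s * (7 / 8 : ℝ) ^ k) ?_ ?_ ?_ ?_
  · intro k
    apply q11_mono (hTm k) hm ((hTi k).const_mul (3 / 2 * (7 / 4) ^ k))
    intro t ht
    rw [abs_of_nonneg (mul_nonneg (hW0 t) (Real.sqrt_nonneg _)), mul_comm]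
    exact mul_le_mul_of_nonneg_right (hb k t ht) (hW0 t)
  · intro k
    calc ∫ t in T k, W t * Real.sqrt (s / ρ t) ≤ ∫ t in T k, (3 / 2 * (7 / 4) ^ k) * W t := by
          apply setIntegral_mono_on _ ((hTi k).const_mul _) (hTm k)
          · intro t ht
            rw [mul_comm]
            exact mul_le_mul_of_nonneg_right (hb k t ht) (hW0 t)
          · apply q11_mono (hTm k) hm ((hTi k).const_mul (3 / 2 * (7 / 4) ^ k))
            intro t ht
            rw [abs_of_nonneg (mul_nonneg (hW0 t) (Real.sqrt_nonneg _)), mul_comm]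
            exact mul_le_mul_of_nonneg_right (hb k t ht) (hW0 t)
      _ = (3 / 2 * (7 / 4) ^ k) * ∫ t in T k, W t := integral_const_mul _ _
      _ ≤ (3 / 2 * (7 / 4) ^ k) * (Bq * (s / 3 ^ k) * (2 * (3 / 2) ^ k)) :=
          mul_le_mul_of_nonneg_left (hTB k) (by positivity)
      _ = 3 * Bq * s * (7 / 8 : ℝ) ^ k := by
          have h1 : (7 / 8 : ℝ) ^ k = (7 / 4) ^ k * (3 / 2) ^ k / 3 ^ k := by
            rw [← mul_pow, ← div_pow]; norm_num
          rw [h1]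
          field_simp
  · exact hgs.summable
  · rw [hgs.tsum_eq]
    apply le_of_eq
    ring

/-- the number of dyadic shells -/
theorem e6_J {ε : ℝ} (h0 : 0 < ε) (h1 : ε ≤ 1) : ∃ J : ℕ, 1 / ε ≤ 2 ^ J ∧ (J : ℝ) ≤ 31 * ε ^ (-(1 / 20) : ℝ) := by
  have hp : 1 ≤ ε ^ (-(1 / 20) : ℝ) := by
    rw [Real.rpow_neg h0.le]
    exact (one_le_inv₀ (Real.rpow_pos_of_pos h0 _)).2 (Real.rpow_le_one h0.le h1 (by norm_num))
  refine ⟨⌈30 * ε ^ (-(1 / 20) : ℝ)⌉₊, ?_, ?_⟩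
  · have h2 : Real.log (1 / ε) ≤ 20 * ε ^ (-(1 / 20) : ℝ) := by
      have h3 := Real.log_le_rpow_div (x := 1 / ε) (by positivity) (by norm_num : (0 : ℝ) < 1 / 20)
      have h4 : (1 / ε) ^ (1 / 20 : ℝ) = ε ^ (-(1 / 20) : ℝ) := by
        rw [one_div, Real.inv_rpow h0.le, Real.rpow_neg h0.le]
      rw [h4] at h3
      linarith
    have h5 := Nat.le_ceil (30 * ε ^ (-(1 / 20) : ℝ))
    have h6 : Real.log (1 / ε) ≤ (⌈30 * ε ^ (-(1 / 20) : ℝ)⌉₊ : ℝ) * Real.log 2 := by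
      have h7 := Real.log_two_gt_d9
      nlinarith
    have h8 : Real.log (1 / ε) ≤ Real.log ((2 : ℝ) ^ ⌈30 * ε ^ (-(1 / 20) : ℝ)⌉₊) := by
      rw [Real.log_pow]; exact h6
    exact (Real.log_le_log_iff (by positivity) (by positivity)).1 h8
  · have h5 := Nat.ceil_lt_add_one (a := 30 * ε ^ (-(1 / 20) : ℝ)) (by positivity)
    linarith

end Pool.Agent.Helper36.CV
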