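import Pool.Agent.Helper45.CV.E6a

set_option autoImplicit false

namespace Pool.Agent.Helper36.CV

open Complex Filter Topology MeasureTheory Set

theorem e6_ptR {a b t τ : ℝ} (ha : a < t) (hb : t < b) (hτ : b < τ) :
    Real.sqrt ((t - a) * (b - t)) / |τ - t| ≤ 1 / 2 * Real.sqrt ((b - a) / (τ - b)) := by
  have h1 : 0 < τ - t := by linarith
  have h2 : 0 < τ - b := by linarith
  rw [abs_of_pos h1, div_le_iff₀ h1]
  apply Real.sqrt_le_iff.2
  refine ⟨by positivity, ?_⟩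
  rw [mul_pow, mul_pow, Real.sq_sqrt (div_nonneg (by linarith) h2.le)]
  have h3 : 4 * (τ - b) * (b - t) ≤ (τ - t) ^ 2 := by nlinarith [sq_nonneg ((τ - b) - (b - t))]
  have h4 : (b - a) / (τ - b) * (4 * (τ - b) * (b - t)) ≤ (b - a) / (τ - b) * (τ - t) ^ 2 :=
    mul_le_mul_of_nonneg_left h3 (div_nonneg (by linarith) h2.le)
  have h5 : (b - a) / (τ - b) * (4 * (τ - b) * (b - t)) = 4 * ((b - a) * (b - t)) := by
    field_simp
  have h6 : (t - a) * (b - t) ≤ (b - a) * (b - t) := mul_le_mul_of_nonneg_right (by linarith) (by linarith)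
  rw [h5] at h4
  linarith

theorem e6_ptL {a b t τ : ℝ} (ha : a < t) (hb : t < b) (hτ : τ < a) :
    Real.sqrt ((t - a) * (b - t)) / |τ - t| ≤ 1 / 2 * Real.sqrt ((b - a) / (a - τ)) := by
  have h := e6_ptR (a := -b) (b := -a) (t := -t) (τ := -τ) (by linarith) (by linarith) (by linarith)
  have h1 : (-t - -b) * (-a - -t) = (t - a) * (b - t) := by ring
  have h2 : |-τ - -t| = |τ - t| := by rw [← abs_neg]; congr 1; ring
  have h3 : (-a - -b) / (-τ - -a) = (b - a) / (a - τ) := by congr 1 <;> ring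
  rw [h1, h2, h3] at h
  exact h

theorem e6_w0 {a b t : ℝ} (ha : a < t) (hb : t < b) : Real.sqrt ((t - a) * (b - t)) ≤ (b - a) / 2 := by
  apply Real.sqrt_le_iff.2
  refine ⟨by linarith, ?_⟩
  nlinarith [sq_nonneg ((t - a) - (b - t))]

theorem e6_ptM {a b t τ : ℝ} (ha : a < t) (hb : t < b) (hs : b - a ≤ |τ - (a + b) / 2|) :
    Real.sqrt ((t - a) * (b - t)) / |τ - t| ≤ (b - a) / |τ - (a + b) / 2| := by
  have h1 : |t - (a + b) / 2| ≤ (b - a) / 2 := by rw [abs_le]; constructor <;> linarith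
  have h2 : |τ - (a + b) / 2| ≤ |τ - t| + |t - (a + b) / 2| := by
    have := abs_add_le (τ - t) (t - (a + b) / 2)
    rwa [sub_add_sub_cancel] at this
  have h3 : 0 < |τ - (a + b) / 2| := by linarith
  have h4 : 0 < |τ - t| := by linarith
  rw [div_le_div_iff₀ h4 h3]
  have h5 := e6_w0 ha hb
  calc Real.sqrt ((t - a) * (b - t)) * |τ - (a + b) / 2| ≤ (b - a) / 2 * |τ - (a + b) / 2| :=
        mul_le_mul_of_nonneg_right h5 h3.le
    _ ≤ (b - a) / 2 * (2 * |τ - t|) := mul_le_mul_of_nonneg_left (by linarith) (by linarith)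
    _ = (b - a) * |τ - t| := by ring

theorem e6_ptF {a b t τ ε : ℝ} (h0 : 0 < ε) (h1 : ε ≤ 1 / 10) (ha : a < t) (hb : t < b)
    (hs : b - a ≤ 4 * ε * |τ - (a + b) / 2|) :
    Real.sqrt ((t - a) * (b - t)) / |τ - t| ≤ (b - a) / 2 * (1 + 3 * ε ^ 2) / |τ - (a + b) / 2| := by
  set c := (a + b) / 2 with hc
  set w := |τ - c| with hw
  set h := (b - a) / 2 with hh
  have hh0 : 0 < h := by rw [hh]; linarith
  have hhw : h ≤ 2 * ε * w := by rw [hh]; linarith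
  have hw0 : 0 < w := by
    have : 0 < 2 * ε * w := by linarith
    exact (mul_pos_iff_of_pos_left (by positivity)).1 this
  have hu : |t - c| ≤ h := by rw [abs_le, hc, hh]; constructor <;> linarith
  have hwu : w - |t - c| ≤ |τ - t| := by
    have := abs_add_le (τ - t) (t - c)
    rw [sub_add_sub_cancel] at this
    linarith
  have hww : h ≤ w / 5 := by nlinarith
  have h4 : 0 < w - |t - c| := by linarith
  have h5 : 0 < |τ - t| := by linarith
  rw [div_le_div_iff₀ h5 hw0]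
  set u := |t - c| with hud
  have hprod : (t - a) * (b - t) = h ^ 2 - u ^ 2 := by
    rw [hud, sq_abs, hh, hc]; ring
  have key : Real.sqrt ((t - a) * (b - t)) * w ≤ h * (1 + 3 * ε ^ 2) * (w - u) := by
    have e1 : Real.sqrt ((t - a) * (b - t)) * w = Real.sqrt ((h ^ 2 - u ^ 2) * w ^ 2) := by
      rw [hprod, Real.sqrt_mul' _ (sq_nonneg w), Real.sqrt_sq hw0.le]
    rw [e1]
    apply Real.sqrt_le_iff.2
    refine ⟨by positivity, ?_⟩
    have e2 : (h ^ 2 - u ^ 2) * (w ^ 2 - h ^ 2) ≤ h ^ 2 * (w - u) ^ 2 := by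
      nlinarith [sq_nonneg (u * w - h ^ 2)]
    have e3 : 0 ≤ h ^ 2 - u ^ 2 := by
      have : u ^ 2 ≤ h ^ 2 := pow_le_pow_left₀ (abs_nonneg _) hu 2
      linarith
    have e4 : h ^ 2 ≤ 4 * ε ^ 2 * w ^ 2 := by
      have := pow_le_pow_left₀ hh0.le hhw 2
      nlinarith
    have e5 : (1 - 4 * ε ^ 2) * ((h ^ 2 - u ^ 2) * w ^ 2) ≤ h ^ 2 * (w - u) ^ 2 := by
      have := mul_le_mul_of_nonneg_left e4 e3
      nlinarith
    have e6 : ε ^ 2 ≤ 1 / 100 := by nlinarith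
    have e7 : 1 ≤ (1 + 3 * ε ^ 2) ^ 2 * (1 - 4 * ε ^ 2) := by nlinarith [sq_nonneg (ε ^ 2), sq_nonneg ε, mul_nonneg (sq_nonneg ε) (sq_nonneg ε), mul_nonneg (mul_nonneg (sq_nonneg ε) (sq_nonneg ε)) (sub_nonneg.2 e6)]
    have e8 : 0 ≤ (h ^ 2 - u ^ 2) * w ^ 2 := by positivity
    calc (h ^ 2 - u ^ 2) * w ^ 2 ≤ ((1 + 3 * ε ^ 2) ^ 2 * (1 - 4 * ε ^ 2)) * ((h ^ 2 - u ^ 2) * w ^ 2) :=
          le_mul_of_one_le_left e8 e7
      _ = (1 + 3 * ε ^ 2) ^ 2 * ((1 - 4 * ε ^ 2) * ((h ^ 2 - u ^ 2) * w ^ 2)) := by ring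
      _ ≤ (1 + 3 * ε ^ 2) ^ 2 * (h ^ 2 * (w - u) ^ 2) := mul_le_mul_of_nonneg_left e5 (by positivity)
      _ = (h * (1 + 3 * ε ^ 2) * (w - u)) ^ 2 := by ring
  exact key.trans (mul_le_mul_of_nonneg_left hwu (by positivity))

/-- mass of a ball outside the gap -/
theorem e6_mass (hP2 : ST_P2) (hQ2 : ST_Q2) (hQ4 : ST_Q4) {ε Hm Hp : ℝ} {C : Set ℝ} (cd : CD Hm Hp C)
    (hPar : Par ε Hm Hp) (hε : ε ≤ 1 / 10 ^ 5) (K6 : ℝ) (hK6 : 1 ≤ K6) (hεK : 250 * K6 * ε ≤ 1)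
    (V : Gap cd) (hmu : 1000 ≤ |V.mu|)
    (hY : ∀ r : ℝ, 0 < r → r ≤ V.s / (4 * ε) → V.kk * r ≤ K6 * Yf cd V.c r) (d : ℝ)
    (hd : V.s ≤ d) (hd2 : d ≤ V.s / (4 * ε)) :
    IntegrableOn (vf cd) (Icc (V.c - d) (V.c + d)) ∧
    ∫ t in Icc (V.c - d) (V.c + d) \ Icc V.a V.b, vf cd t ≤ 12640 * K6 * ε ^ 2 * d ^ 2 * V.kk := by
  have hε0 : 0 < ε := hPar.1
  obtain ⟨-, -, -, P2d, -, -, P2g, -⟩ := hP2 Hm Hp C cd hPar.2.1
  obtain ⟨Q41, Q42, Q43, Q44⟩ := hQ4 ε Hm Hp C cd hPar hε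
  have hkk : 0 < V.kk := (P2d V).2.2.2.2.2.1
  have hs0 : 0 < V.s := sub_pos.2 V.lt
  have hd0 : 0 < d := lt_of_lt_of_le hs0 hd
  have hLW := Q43 V hmu
  have hks : V.kk * V.s ≤ ε / 1000 := by
    have h1 := Q42 V
    have h2 : 1000 * (V.kk * V.s) ≤ |V.mu| * (V.kk * V.s) := mul_le_mul_of_nonneg_right hmu (by positivity)
    nlinarith
  have hdk : d * V.kk ≤ 1 / 4000 := by
    have h1 : d * V.kk ≤ V.s / (4 * ε) * V.kk := mul_le_mul_of_nonneg_right hd2 hkk.le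
    have h2 : V.s / (4 * ε) * V.kk = V.kk * V.s / (4 * ε) := by ring
    rw [h2] at h1
    refine h1.trans ?_
    rw [div_le_iff₀ (by positivity)]
    linarith
  have hdk0 : 0 < d * V.kk := mul_pos hd0 hkk
  set M := 1 / (79 * (d * V.kk)) with hM
  have hM1 : 1 ≤ M := by
    rw [hM, le_div_iff₀ (by positivity)]
    linarith
  have hM0 : 0 < M := by linarith
  have hYd := hY d hd0 hd2
  have hY0 : 0 < Yf cd V.c d := by
    have h1 : 0 < K6 * Yf cd V.c d := lt_of_lt_of_le (by positivity) hYd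
    exact (mul_pos_iff_of_pos_left (by linarith)).1 h1
  have hwin : ∀ t : ℝ, |t - V.c| ≤ d → |Nf cd t - V.N| * (|V.mu| + 1) ≤ 9 / 10 := fun t ht =>
    hLW t (ht.trans hd2)
  obtain ⟨g1, g2⟩ := hQ2 ε Hm Hp C cd hPar (hε.trans (by norm_num)) V.c d M (Icc V.a V.b) hd0 hM1
    measurableSet_Icc (by
      intro t ht
      have h1 : |t - V.c| ≤ d := by rw [abs_le]; constructor <;> linarith [ht.1, ht.2]
      have h2 := Q44 V t (hwin t h1)
      exact ⟨h2.1, h2.2.1⟩) (by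
      intro W hW
      by_cases hWV : W = V
      · left; rw [hWV]
      · right
        have hWlt := W.lt
        obtain ⟨t, ht1, ht2⟩ : ∃ t ∈ Icc W.a W.b, |t - V.c| ≤ d := by
          obtain ⟨m1, m2⟩ := hW
          refine ⟨max W.a (V.c - d), ⟨le_max_left _ _, max_le hWlt.le m2⟩, ?_⟩
          rw [abs_le]
          constructor
          · have := le_max_right W.a (V.c - d); linarith
          · have : max W.a (V.c - d) ≤ V.c + d := max_le m1 (by linarith)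
            linarith
        have h2 := (Q44 V t (hwin t ht2)).2.2.2 W hWV ht1
        have h3 := Q41 V d t hd0.le ht2
        have h4 : Nf cd t = W.N := W.lab t ht1
        rw [h4] at h3
        have h5 : Real.sqrt (d ^ 2 + V.s ^ 2 / 4) ≤ 79 / 70 * d := by
          apply Real.sqrt_le_iff.2
          refine ⟨by positivity, ?_⟩
          have : V.s ^ 2 ≤ d ^ 2 := pow_le_pow_left₀ hs0.le hd 2
          nlinarith
        have h6 : |W.N - V.N| ≤ 79 / 10 * (d * V.kk) := by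
          refine h3.trans ?_
          have := mul_le_mul_of_nonneg_right h5 hkk.le
          nlinarith
        have h7 : 1 / 10 ≤ |W.mu| * (79 / 10 * (d * V.kk)) :=
          h2.trans (mul_le_mul_of_nonneg_left h6 (abs_nonneg _))
        rw [hM, div_le_iff₀ (by positivity)]
        linarith) (by
      have h1 : M * (V.kk * d) ≤ M * (K6 * Yf cd V.c d) := mul_le_mul_of_nonneg_left hYd hM0.le
      have h2 : M * (V.kk * d) = 1 / 79 := by rw [hM]; field_simp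
      rw [h2] at h1
      have h3 : 31 / 10 * ε * (79 * K6) ≤ M * Yf cd V.c d * (79 * K6) := by
        nlinarith
      exact le_of_mul_le_mul_right h3 (by positivity))
  refine ⟨g1, g2.trans ?_⟩
  have e1 : d / (Yf cd V.c d * M ^ 2) ≤ 6241 * K6 * (d ^ 2 * V.kk) := by
    rw [div_le_iff₀ (by positivity)]
    have h1 : (V.kk * d) * (6241 * (d ^ 2 * V.kk) * M ^ 2) ≤
        (K6 * Yf cd V.c d) * (6241 * (d ^ 2 * V.kk) * M ^ 2) :=
      mul_le_mul_of_nonneg_right hYd (by positivity)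
    have h2 : (V.kk * d) * (6241 * (d ^ 2 * V.kk) * M ^ 2) = d := by
      rw [hM]; field_simp; norm_num
    rw [h2] at h1
    calc d ≤ (K6 * Yf cd V.c d) * (6241 * (d ^ 2 * V.kk) * M ^ 2) := h1
      _ = 6241 * K6 * (d ^ 2 * V.kk) * (Yf cd V.c d * M ^ 2) := by ring
  have e2 : 81 * d / M ≤ 6399 * K6 * (d ^ 2 * V.kk) := by
    have h1 : 81 * d / M = 6399 * (d ^ 2 * V.kk) := by rw [hM]; field_simp; norm_num
    rw [h1]
    have h2 : 0 ≤ d ^ 2 * V.kk := by positivity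
    nlinarith
  calc ε ^ 2 * (d / (Yf cd V.c d * M ^ 2) + 81 * d / M)
      ≤ ε ^ 2 * (6241 * K6 * (d ^ 2 * V.kk) + 6399 * K6 * (d ^ 2 * V.kk)) :=
        mul_le_mul_of_nonneg_left (add_le_add e1 e2) (by positivity)
    _ = 12640 * K6 * ε ^ 2 * d ^ 2 * V.kk := by ring

end Pool.Agent.Helper36.CV
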