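import Pool.Agent.Helper45.CV.E6b

set_option autoImplicit false

namespace Pool.Agent.Helper36.CV

open Complex Filter Topology MeasureTheory Set

theorem e6_qabs (a b t : ℝ) : |qr a b t| = Real.sqrt ((t - a) * (t - b)) := by
  unfold qr
  split_ifs
  · exact abs_of_nonneg (Real.sqrt_nonneg _)
  · rw [abs_neg]; exact abs_of_nonneg (Real.sqrt_nonneg _)

theorem e6_qin {a b t : ℝ} (h : t ∈ Icc a b) : qr a b t = 0 := by
  have h1 : |qr a b t| = 0 := by
    rw [e6_qabs]
    exact Real.sqrt_eq_zero_of_nonpos (mul_nonpos_of_nonneg_of_nonpos (by linarith [h.1]) (by linarith [h.2]))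
  exact abs_eq_zero.1 h1

/-- the middle region -/
theorem e6_mid {v : ℝ → ℝ} (hv : Continuous v) (hv0 : ∀ t, 0 ≤ v t) {a b ε C1 : ℝ} (hab : a < b)
    (hε0 : 0 < ε) (hε1 : ε ≤ 1 / 10)
    (hi : Integrable (fun t => v t / (|qr a b t| * |t - (a + b) / 2|)))
    (hmass : ∀ d : ℝ, b - a ≤ d → d ≤ (b - a) / (4 * ε) →
      ∫ t in Icc ((a + b) / 2 - d) ((a + b) / 2 + d) \ Icc a b, v t ≤ C1 * d ^ 2)
    (hC1 : 0 ≤ C1) (J : ℕ) (hJ : 1 / ε ≤ 2 ^ J) :
    ∫ t in {t : ℝ | b - a ≤ |t - (a + b) / 2| ∧ |t - (a + b) / 2| ≤ (b - a) / (4 * ε)},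
      v t / (|qr a b t| * |t - (a + b) / 2|) ≤ J * (5 * C1) := by
  set c := (a + b) / 2 with hc
  set s := b - a with hs
  have hs0 : 0 < s := by rw [hs]; linarith
  have hqm := q11_qm a b
  have hfm : Measurable (fun t => v t / (|qr a b t| * |t - c|)) :=
    hv.measurable.div ((measurable_abs.comp hqm).mul (by fun_prop))
  have hf0 : ∀ t, 0 ≤ v t / (|qr a b t| * |t - c|) := fun t => div_nonneg (hv0 t) (by positivity)
  refine (e6_fin hf0 hfm (T := fun k => {t : ℝ | 2 ^ k * s ≤ |t - c| ∧ |t - c| ≤ 2 ^ (k + 1) * s ∧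
    |t - c| ≤ s / (4 * ε)}) J ?_ (fun k => hi.integrableOn) (B := 5 * C1) ?_).2
  · rintro t ⟨h1, h2⟩
    have hJ1 : 1 ≤ J := by
      by_contra h
      have : J = 0 := by omega
      rw [this, pow_zero, div_le_one hε0] at hJ
      linarith
    have hex : ∃ k : ℕ, |t - c| ≤ 2 ^ (k + 1) * s := by
      refine ⟨J - 1, ?_⟩
      have h3 : J - 1 + 1 = J := by omega
      rw [h3]
      refine h2.trans ?_
      calc s / (4 * ε) ≤ s / ε := by
            apply div_le_div_of_nonneg_left hs0.le hε0 (by linarith)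
        _ = 1 / ε * s := by ring
        _ ≤ 2 ^ J * s := mul_le_mul_of_nonneg_right hJ hs0.le
    classical
    refine ⟨Nat.find hex, ?_, ?_, Nat.find_spec hex, h2⟩
    · have h3 : Nat.find hex ≤ J - 1 := by
        apply Nat.find_min' hex
        have h3 : J - 1 + 1 = J := by omega
        rw [h3]
        refine h2.trans ?_
        calc s / (4 * ε) ≤ s / ε := by
              apply div_le_div_of_nonneg_left hs0.le hε0 (by linarith)
          _ = 1 / ε * s := by ring
          _ ≤ 2 ^ J * s := mul_le_mul_of_nonneg_right hJ hs0.le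
      omega
    · rcases Nat.eq_zero_or_pos (Nat.find hex) with h | h
      · rw [h]; simpa using h1
      · have h4 := Nat.find_min hex (Nat.sub_lt h one_pos)
        have h5 : Nat.find hex - 1 + 1 = Nat.find hex := by omega
        rw [h5] at h4
        exact (not_le.1 h4).le
  · intro k
    by_cases hk : 2 ^ k * s ≤ s / (4 * ε)
    · have hp : (1 : ℝ) ≤ 2 ^ k := one_le_pow₀ (by norm_num)
      set d := min (2 ^ (k + 1) * s) (s / (4 * ε)) with hd
      have hd1 : s ≤ d := by
        apply le_min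
        · rw [pow_succ]; nlinarith
        · nlinarith
      have hd2 : d ≤ s / (4 * ε) := min_le_right _ _
      have hd3 : d ≤ 2 * (2 ^ k * s) := by
        refine (min_le_left _ _).trans (le_of_eq ?_)
        rw [pow_succ]; ring
      have hm := hmass d hd1 hd2
      have hks : 0 < 2 ^ k * s := by positivity
      have hTm : MeasurableSet {t : ℝ | 2 ^ k * s ≤ |t - c| ∧ |t - c| ≤ 2 ^ (k + 1) * s ∧
          |t - c| ≤ s / (4 * ε)} := by
        have m1 : MeasurableSet {t : ℝ | 2 ^ k * s ≤ |t - c|} :=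
          measurableSet_le measurable_const (by fun_prop)
        have m2 : MeasurableSet {t : ℝ | |t - c| ≤ 2 ^ (k + 1) * s} :=
          measurableSet_le (by fun_prop) measurable_const
        have m3 : MeasurableSet {t : ℝ | |t - c| ≤ s / (4 * ε)} :=
          measurableSet_le (by fun_prop) measurable_const
        exact m1.inter (m2.inter m3)
      have hsub : {t : ℝ | 2 ^ k * s ≤ |t - c| ∧ |t - c| ≤ 2 ^ (k + 1) * s ∧
          |t - c| ≤ s / (4 * ε)} ⊆ Icc (c - d) (c + d) \ Icc a b := by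
        rintro t ⟨t1, t2, t3⟩
        have t4 : |t - c| ≤ d := le_min t2 t3
        obtain ⟨t5, t6⟩ := abs_le.1 t4
        refine ⟨⟨by linarith, by linarith⟩, ?_⟩
        rintro ⟨t7, t8⟩
        have t9 : |t - c| ≤ s / 2 := by
          rw [abs_le, hc, hs]; constructor <;> linarith
        nlinarith
      have hvi : IntegrableOn v (Icc (c - d) (c + d) \ Icc a b) :=
        (hv.integrableOn_Icc).mono_set Set.sdiff_subset
      calc ∫ t in {t : ℝ | 2 ^ k * s ≤ |t - c| ∧ |t - c| ≤ 2 ^ (k + 1) * s ∧ |t - c| ≤ s / (4 * ε)},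
            v t / (|qr a b t| * |t - c|)
          ≤ ∫ t in {t : ℝ | 2 ^ k * s ≤ |t - c| ∧ |t - c| ≤ 2 ^ (k + 1) * s ∧ |t - c| ≤ s / (4 * ε)},
            5 / 4 / (2 ^ k * s) ^ 2 * v t := by
            apply setIntegral_mono_on hi.integrableOn ((hvi.mono_set hsub).const_mul _) hTm
            rintro t ⟨t1, t2, t3⟩
            have q1 : 4 / 5 * |t - c| ≤ |qr a b t| := by
              rw [e6_qabs]
              apply Real.le_sqrt_of_sq_le
              have e1 : (t - a) * (t - b) = |t - c| ^ 2 - s ^ 2 / 4 := by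
                rw [sq_abs, hc, hs]; ring
              rw [e1]
              have e2 : s ≤ |t - c| := by nlinarith
              have e3 : s ^ 2 ≤ |t - c| ^ 2 := pow_le_pow_left₀ hs0.le e2 2
              nlinarith
            have q2 : 4 / 5 * (2 ^ k * s) ^ 2 ≤ |qr a b t| * |t - c| := by
              have := mul_le_mul q1 t1 hks.le (abs_nonneg _)
              nlinarith
            have q3 : 1 / (|qr a b t| * |t - c|) ≤ 5 / 4 / (2 ^ k * s) ^ 2 := by
              rw [div_div]
              rw [div_le_div_iff₀ (lt_of_lt_of_le (by positivity) q2) (by positivity)]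
              linarith
            calc v t / (|qr a b t| * |t - c|) = v t * (1 / (|qr a b t| * |t - c|)) := by ring
              _ ≤ v t * (5 / 4 / (2 ^ k * s) ^ 2) := mul_le_mul_of_nonneg_left q3 (hv0 t)
              _ = 5 / 4 / (2 ^ k * s) ^ 2 * v t := by ring
        _ = 5 / 4 / (2 ^ k * s) ^ 2 * ∫ t in {t : ℝ | 2 ^ k * s ≤ |t - c| ∧ |t - c| ≤ 2 ^ (k + 1) * s ∧
            |t - c| ≤ s / (4 * ε)}, v t := integral_const_mul _ _
        _ ≤ 5 / 4 / (2 ^ k * s) ^ 2 * (C1 * d ^ 2) := by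
            apply mul_le_mul_of_nonneg_left _ (by positivity)
            refine le_trans ?_ hm
            apply setIntegral_mono_set hvi
            · exact Filter.Eventually.of_forall hv0
            · exact hsub.eventuallyLE
        _ ≤ 5 / 4 / (2 ^ k * s) ^ 2 * (C1 * (2 * (2 ^ k * s)) ^ 2) := by
            apply mul_le_mul_of_nonneg_left _ (by positivity)
            exact mul_le_mul_of_nonneg_left (pow_le_pow_left₀ (by linarith) hd3 2) hC1
        _ = 5 * C1 := by
            field_simp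
            ring
    · have hemp : {t : ℝ | 2 ^ k * s ≤ |t - c| ∧ |t - c| ≤ 2 ^ (k + 1) * s ∧ |t - c| ≤ s / (4 * ε)} = ∅ := by
        rw [Set.eq_empty_iff_forall_notMem]
        rintro t ⟨t1, -, t3⟩
        exact hk (t1.trans t3)
      rw [hemp]
      simp only [Measure.restrict_empty, integral_zero_measure]
      positivity

/-- the amplitude at the shells -/
theorem e6_amp {kk K3 ε s Z : ℝ} (hkk : 0 < kk) (hK3 : 0 ≤ K3) (hε0 : 0 < ε) (hKe : 25 * K3 * ε ≤ 1) (hs : 0 < s)
    (k : ℕ) {g y : ℝ} (hg : 0 ≤ g) (hy : y = s / 3 ^ k) (hZ0 : 0 ≤ Z) (hZ : Z ≤ 5 / 2 * s)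
    (h : |Real.log g - Real.log kk| ≤ K3 * (ε * (1 + Real.log (1 + Z / y) + Real.log (1 + Z / s)) + Z / (s / (4 * ε)))) :
    g ≤ kk * (2 * (3 / 2) ^ k) := by
  have hy0 : 0 < y := by rw [hy]; positivity
  rcases hg.eq_or_lt with h0 | h0
  · rw [← h0]; positivity
  have h1 : Z / y ≤ 5 / 2 * 3 ^ k := by
    rw [div_le_iff₀ hy0, hy]
    calc Z ≤ 5 / 2 * s := hZ
      _ = 5 / 2 * 3 ^ k * (s / 3 ^ k) := by field_simp
  have hp : (1 : ℝ) ≤ 3 ^ k := one_le_pow₀ (by norm_num)
  have h2 : Real.log (1 + Z / y) ≤ 3 + 2 * k := by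
    have h3 : 1 + Z / y ≤ 4 * 3 ^ k := by linarith
    have h4 : 0 < 1 + Z / y := by positivity
    have h5 := Real.log_le_log h4 h3
    rw [Real.log_mul (by norm_num) (by positivity), Real.log_pow] at h5
    have h6 := Real.log_le_sub_one_of_pos (by norm_num : (0 : ℝ) < 4)
    have h7 := Real.log_le_sub_one_of_pos (by norm_num : (0 : ℝ) < 3)
    have h8 : (k : ℝ) * Real.log 3 ≤ k * 2 := mul_le_mul_of_nonneg_left (by linarith) (Nat.cast_nonneg k)
    linarith
  have h3 : Real.log (1 + Z / s) ≤ 5 / 2 := by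
    have h4 : 0 < 1 + Z / s := by positivity
    have h5 := Real.log_le_sub_one_of_pos h4
    have h6 : Z / s ≤ 5 / 2 := by rw [div_le_iff₀ hs]; linarith
    linarith
  have h4 : Z / (s / (4 * ε)) ≤ 10 * ε := by
    rw [div_le_iff₀ (by positivity)]
    calc Z ≤ 5 / 2 * s := hZ
      _ = 10 * ε * (s / (4 * ε)) := by field_simp; norm_num
  have h5 : K3 * (ε * (1 + Real.log (1 + Z / y) + Real.log (1 + Z / s)) + Z / (s / (4 * ε))) ≤
      K3 * (ε * (33 / 2 + 2 * k)) := by
    apply mul_le_mul_of_nonneg_left _ hK3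
    have : ε * (1 + Real.log (1 + Z / y) + Real.log (1 + Z / s)) ≤ ε * (1 + (3 + 2 * k) + 5 / 2) :=
      mul_le_mul_of_nonneg_left (by linarith) hε0.le
    linarith
  have h6 : K3 * (ε * (33 / 2 + 2 * k)) ≤ 33 / 50 + 2 / 25 * k := by
    have h7 : K3 * ε * (33 / 2 + 2 * (k : ℝ)) ≤ 1 / 25 * (33 / 2 + 2 * k) :=
      mul_le_mul_of_nonneg_right (by linarith) (by positivity)
    linarith
  have h7 : Real.log g ≤ Real.log kk + (33 / 50 + 2 / 25 * k) := by
    have := (abs_le.1 h).2
    linarith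
  have h8 : Real.log (kk * (2 * (3 / 2) ^ k)) = Real.log kk + (Real.log 2 + k * Real.log (3 / 2)) := by
    rw [Real.log_mul hkk.ne' (by positivity), Real.log_mul (by norm_num) (by positivity), Real.log_pow]
  have h9 := Real.log_two_gt_d9
  have h10 : 1 / 3 ≤ Real.log (3 / 2) := by
    have := Real.one_sub_inv_le_log_of_pos (by norm_num : (0 : ℝ) < 3 / 2)
    linarith [this]
  have h11 : (k : ℝ) * (1 / 3) ≤ k * Real.log (3 / 2) := mul_le_mul_of_nonneg_left h10 (Nat.cast_nonneg k)
  have hk0 : (0 : ℝ) ≤ k := Nat.cast_nonneg k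
  have h12 : Real.log g ≤ Real.log (kk * (2 * (3 / 2) ^ k)) := by
    rw [h8]; linarith
  exact (Real.log_le_log_iff h0 (by positivity)).1 h12

end Pool.Agent.Helper36.CV
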