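import Pool.Agent.Helper36.CV.StmtsQ

set_option autoImplicit false

namespace Pool.Agent.Helper36.CV

open Complex Filter Topology MeasureTheory Set

theorem q11_mono {S : Set ℝ} (hS : MeasurableSet S) {f g : ℝ → ℝ} (hf : Measurable f)
    (hg : IntegrableOn g S) (h : ∀ t ∈ S, |f t| ≤ g t) : IntegrableOn f S := by
  refine Integrable.mono' hg hf.aestronglyMeasurable ?_
  rw [ae_restrict_iff' hS]
  exact Filter.Eventually.of_forall (fun t ht => by simpa using h t ht)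

theorem q11_far {x ρ t : ℝ} (h : t ∈ (Icc (x - ρ) (x + ρ))ᶜ) : ρ < |t - x| := by
  rw [Set.mem_compl_iff, Set.mem_Icc, not_and_or] at h
  rcases h with h | h
  · have h1 : t - x < -ρ := by linarith [not_le.1 h]
    have h2 := neg_abs_le (t - x)
    linarith
  · have h1 : ρ < t - x := by linarith [not_le.1 h]
    exact lt_of_lt_of_le h1 (le_abs_self _)

/-- integrability and the main moments -/
theorem q11_mom (v : ℝ → ℝ) (hv : Continuous v) (hv0 : ∀ t, 0 ≤ v t) (x ρ D J η κ δ : ℝ)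
    (hρ : 0 < ρ) (hD : ρ ≤ D) (hJ : 0 < J)
    (hI : Integrable (fun t => v t * (ρ / ((t - x) ^ 2 + ρ ^ 2))))
    (hJe : J = (1 / Real.pi) * ∫ t : ℝ, v t * (ρ / ((t - x) ^ 2 + ρ ^ 2)))
    (hη : η ≤ 1 / 1000) (hnear : ∫ t in Icc (x - ρ) (x + ρ), v t ≤ 2 * η * ρ * J)
    (hring : ∫ t in Icc (x - D) (x + D) \ Icc (x - ρ) (x + ρ), v t / |t - x| ^ 3 ≤ κ * J / ρ ^ 2)
    (hδ : 1 / D = δ / ρ) (hκ : 0 ≤ κ) :
    IntegrableOn (fun t => v t / (t - x) ^ 2) (Icc (x - ρ) (x + ρ))ᶜ ∧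
    IntegrableOn (fun t => v t / |t - x| ^ 3) (Icc (x - ρ) (x + ρ))ᶜ ∧
    J ≤ 101 / 100 * ρ * ((1 / Real.pi) * ∫ t in (Icc (x - ρ) (x + ρ))ᶜ, v t / (t - x) ^ 2) ∧
    ρ * ∫ t in (Icc (x - ρ) (x + ρ))ᶜ, v t / |t - x| ^ 3 ≤
      (2 * κ + 4 * δ) * ((1 / Real.pi) * ∫ t in (Icc (x - ρ) (x + ρ))ᶜ, v t / (t - x) ^ 2) := by
  have hpi := Real.pi_pos
  have hpi3 := Real.pi_gt_three
  have hpi4 := Real.pi_lt_four
  have hfm : MeasurableSet ((Icc (x - ρ) (x + ρ))ᶜ) := measurableSet_Icc.compl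
  have i2 : IntegrableOn (fun t => v t / (t - x) ^ 2) (Icc (x - ρ) (x + ρ))ᶜ := by
    apply q11_mono hfm (g := fun t => (2 / ρ) * (v t * (ρ / ((t - x) ^ 2 + ρ ^ 2))))
    · exact hv.measurable.div (by fun_prop)
    · exact (hI.const_mul _).integrableOn
    · intro t ht
      have h1 := q11_far ht
      have h2 : ρ ^ 2 < (t - x) ^ 2 := by
        rw [← sq_abs (t - x)]
        exact pow_lt_pow_left₀ h1 hρ.le (by norm_num)
      have h3 : 0 < (t - x) ^ 2 := lt_trans (by positivity) h2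
      have h4 : 1 / (t - x) ^ 2 ≤ 2 / ((t - x) ^ 2 + ρ ^ 2) := by
        rw [div_le_div_iff₀ h3 (by positivity)]
        linarith
      rw [abs_of_nonneg (div_nonneg (hv0 t) h3.le)]
      calc v t / (t - x) ^ 2 = v t * (1 / (t - x) ^ 2) := by ring
        _ ≤ v t * (2 / ((t - x) ^ 2 + ρ ^ 2)) := mul_le_mul_of_nonneg_left h4 (hv0 t)
        _ = (2 / ρ) * (v t * (ρ / ((t - x) ^ 2 + ρ ^ 2))) := by field_simp
  have hle3 : ∀ R : ℝ, 0 < R → ∀ t : ℝ, R < |t - x| →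
      v t / |t - x| ^ 3 ≤ (1 / R) * (v t / (t - x) ^ 2) := by
    intro R hR t ht
    have h0 : 0 < |t - x| := lt_trans hR ht
    have h4 : 1 / |t - x| ^ 3 ≤ (1 / R) * (1 / (t - x) ^ 2) := by
      rw [← sq_abs (t - x), div_mul_div_comm, one_mul, one_div_le_one_div (by positivity) (by positivity)]
      have : |t - x| ^ 3 = |t - x| * |t - x| ^ 2 := by ring
      rw [this]
      exact mul_le_mul_of_nonneg_right ht.le (by positivity)
    calc v t / |t - x| ^ 3 = v t * (1 / |t - x| ^ 3) := by ring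
      _ ≤ v t * ((1 / R) * (1 / (t - x) ^ 2)) := mul_le_mul_of_nonneg_left h4 (hv0 t)
      _ = (1 / R) * (v t / (t - x) ^ 2) := by ring
  have i3 : IntegrableOn (fun t => v t / |t - x| ^ 3) (Icc (x - ρ) (x + ρ))ᶜ := by
    apply q11_mono hfm (g := fun t => (1 / ρ) * (v t / (t - x) ^ 2))
    · exact hv.measurable.div (by fun_prop)
    · exact i2.const_mul _
    · intro t ht
      rw [abs_of_nonneg (div_nonneg (hv0 t) (by positivity))]
      exact hle3 ρ hρ t (q11_far ht)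
  set I2 := ∫ t in (Icc (x - ρ) (x + ρ))ᶜ, v t / (t - x) ^ 2 with hI2
  have hI20 : 0 ≤ I2 := setIntegral_nonneg hfm (fun t _ => div_nonneg (hv0 t) (sq_nonneg _))
  -- first bound
  have hsplit : ∫ t : ℝ, v t * (ρ / ((t - x) ^ 2 + ρ ^ 2)) =
      (∫ t in Icc (x - ρ) (x + ρ), v t * (ρ / ((t - x) ^ 2 + ρ ^ 2))) +
      ∫ t in (Icc (x - ρ) (x + ρ))ᶜ, v t * (ρ / ((t - x) ^ 2 + ρ ^ 2)) :=
    (integral_add_compl measurableSet_Icc hI).symm
  have hn1 : ∫ t in Icc (x - ρ) (x + ρ), v t * (ρ / ((t - x) ^ 2 + ρ ^ 2)) ≤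
      (1 / ρ) * ∫ t in Icc (x - ρ) (x + ρ), v t := by
    rw [← integral_const_mul]
    apply setIntegral_mono_on hI.integrableOn
      ((hv.integrableOn_Icc).const_mul _) measurableSet_Icc
    intro t _
    have : ρ / ((t - x) ^ 2 + ρ ^ 2) ≤ 1 / ρ := by
      rw [div_le_div_iff₀ (by positivity) hρ]
      nlinarith [sq_nonneg (t - x)]
    calc v t * (ρ / ((t - x) ^ 2 + ρ ^ 2)) ≤ v t * (1 / ρ) := mul_le_mul_of_nonneg_left this (hv0 t)
      _ = 1 / ρ * v t := by ring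
  have hf1 : ∫ t in (Icc (x - ρ) (x + ρ))ᶜ, v t * (ρ / ((t - x) ^ 2 + ρ ^ 2)) ≤ ρ * I2 := by
    rw [hI2, ← integral_const_mul]
    apply setIntegral_mono_on hI.integrableOn (i2.const_mul _) hfm
    intro t ht
    have h1 := q11_far ht
    have h3 : 0 < (t - x) ^ 2 := by
      rw [← sq_abs]
      have := lt_trans hρ h1
      positivity
    have : ρ / ((t - x) ^ 2 + ρ ^ 2) ≤ ρ / (t - x) ^ 2 := by
      apply div_le_div_of_nonneg_left hρ.le h3
      nlinarith [sq_nonneg ρ]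
    calc v t * (ρ / ((t - x) ^ 2 + ρ ^ 2)) ≤ v t * (ρ / (t - x) ^ 2) :=
          mul_le_mul_of_nonneg_left this (hv0 t)
      _ = ρ * (v t / (t - x) ^ 2) := by ring
  have hJ1 : J * Real.pi ≤ 2 * η * J + ρ * I2 := by
    have h1 : J * Real.pi = ∫ t : ℝ, v t * (ρ / ((t - x) ^ 2 + ρ ^ 2)) := by
      rw [hJe, mul_comm, ← mul_assoc, mul_one_div_cancel hpi.ne', one_mul]
    rw [h1, hsplit]
    have h2 : (1 / ρ) * ∫ t in Icc (x - ρ) (x + ρ), v t ≤ (1 / ρ) * (2 * η * ρ * J) :=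
      mul_le_mul_of_nonneg_left hnear (by positivity)
    have h3 : (1 / ρ) * (2 * η * ρ * J) = 2 * η * J := by field_simp
    linarith
  have hJ2 : J ≤ 101 / 100 * ρ * ((1 / Real.pi) * I2) := by
    have h1 : 2 * η * J ≤ 2 * (1 / 1000) * J := by
      have := mul_le_mul_of_nonneg_right hη hJ.le
      linarith
    have h4 : J * 3 ≤ J * Real.pi := mul_le_mul_of_nonneg_left hpi3.le hJ.le
    have h2 : J * Real.pi * (100 / 101) ≤ ρ * I2 := by linarith
    have h3 : 101 / 100 * ρ * ((1 / Real.pi) * I2) = (101 / 100) * (ρ * I2) / Real.pi := by ring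
    rw [h3, le_div_iff₀ hpi]
    linarith
  refine ⟨i2, i3, hJ2, ?_⟩
  have hDpos : 0 < D := lt_of_lt_of_le hρ hD
  have hsub : Icc (x - D) (x + D) \ Icc (x - ρ) (x + ρ) ⊆ (Icc (x - ρ) (x + ρ))ᶜ := fun t ht => ht.2
  have hsub2 : (Icc (x - D) (x + D))ᶜ ⊆ (Icc (x - ρ) (x + ρ))ᶜ := by
    apply Set.compl_subset_compl.2
    exact Set.Icc_subset_Icc (by linarith) (by linarith)
  have hun : (Icc (x - ρ) (x + ρ))ᶜ = (Icc (x - D) (x + D) \ Icc (x - ρ) (x + ρ)) ∪ (Icc (x - D) (x + D))ᶜ := by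
    ext t
    simp only [Set.mem_compl_iff, Set.mem_union, Set.mem_sdiff]
    constructor
    · intro h
      by_cases h2 : t ∈ Icc (x - D) (x + D)
      · exact Or.inl ⟨h2, h⟩
      · exact Or.inr h2
    · rintro (h | h)
      · exact h.2
      · exact hsub2 h
  have h3s : ∫ t in (Icc (x - ρ) (x + ρ))ᶜ, v t / |t - x| ^ 3 =
      (∫ t in Icc (x - D) (x + D) \ Icc (x - ρ) (x + ρ), v t / |t - x| ^ 3) +
      ∫ t in (Icc (x - D) (x + D))ᶜ, v t / |t - x| ^ 3 := by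
    conv_lhs => rw [hun]
    apply setIntegral_union _ (measurableSet_Icc.compl) (i3.mono_set hsub) (i3.mono_set hsub2)
    rw [Set.disjoint_left]
    intro t ht ht2
    exact ht2 ht.1
  have hout : ∫ t in (Icc (x - D) (x + D))ᶜ, v t / |t - x| ^ 3 ≤ (1 / D) * I2 := by
    calc ∫ t in (Icc (x - D) (x + D))ᶜ, v t / |t - x| ^ 3
        ≤ ∫ t in (Icc (x - D) (x + D))ᶜ, (1 / D) * (v t / (t - x) ^ 2) := by
          apply setIntegral_mono_on (i3.mono_set hsub2) ((i2.mono_set hsub2).const_mul _)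
            (measurableSet_Icc.compl)
          intro t ht
          exact hle3 D hDpos t (q11_far ht)
      _ = (1 / D) * ∫ t in (Icc (x - D) (x + D))ᶜ, (v t / (t - x) ^ 2) := integral_const_mul _ _
      _ ≤ (1 / D) * I2 := by
          apply mul_le_mul_of_nonneg_left _ (by positivity)
          apply setIntegral_mono_set i2
          · exact Filter.Eventually.of_forall (fun t => div_nonneg (hv0 t) (sq_nonneg _))
          · exact hsub2.eventuallyLE
  rw [h3s]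
  have h1 : ρ * (κ * J / ρ ^ 2) ≤ 2 * κ * ((1 / Real.pi) * I2) := by
    have h2 : ρ * (κ * J / ρ ^ 2) = κ * (J / ρ) := by field_simp
    rw [h2]
    have h5 : J / ρ ≤ 101 / 100 * ((1 / Real.pi) * I2) := by
      rw [div_le_iff₀ hρ]
      linarith
    have h6 : 0 ≤ (1 / Real.pi) * I2 := by positivity
    have := mul_le_mul_of_nonneg_left h5 hκ
    nlinarith [mul_nonneg hκ h6]
  have h2 : ρ * ((1 / D) * I2) ≤ 4 * δ * ((1 / Real.pi) * I2) := by
    have h3 : ρ * ((1 / D) * I2) = δ * I2 := by rw [hδ]; field_simp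
    rw [h3]
    have h4 : 0 ≤ δ := by
      have : 0 < δ / ρ := by rw [← hδ]; positivity
      have h5 : δ = (δ / ρ) * ρ := by field_simp
      rw [h5]; positivity
    have h5 : 4 * δ * ((1 / Real.pi) * I2) = (δ * I2) * (4 / Real.pi) := by ring
    rw [h5]
    have h6 : 1 ≤ 4 / Real.pi := by
      rw [le_div_iff₀ hpi]; linarith
    exact le_mul_of_one_le_right (mul_nonneg h4 hI20) h6
  calc ρ * ((∫ t in Icc (x - D) (x + D) \ Icc (x - ρ) (x + ρ), v t / |t - x| ^ 3) +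
      ∫ t in (Icc (x - D) (x + D))ᶜ, v t / |t - x| ^ 3) ≤ ρ * (κ * J / ρ ^ 2 + (1 / D) * I2) := by
        apply mul_le_mul_of_nonneg_left _ hρ.le
        linarith
    _ = ρ * (κ * J / ρ ^ 2) + ρ * ((1 / D) * I2) := by ring
    _ ≤ 2 * κ * ((1 / Real.pi) * I2) + 4 * δ * ((1 / Real.pi) * I2) := by linarith
    _ = (2 * κ + 4 * δ) * ((1 / Real.pi) * I2) := by ring

end Pool.Agent.Helper36.CV
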